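import Pool.Agent.Lib.SE.N.Spec

/-!
# SE-N, module n0: coefficients independent over `ℚ`
-/

set_option autoImplicit false

open Module

noncomputable section

namespace SEN

open HC HC.E HC.SE SEB SEQ SER SES SEG SE

theorem tn0 : S_n0 := by
  intro V _ _ h h0 hadd hsm x hx
  obtain ⟨N, d, z, hz⟩ := Submodule.mem_span_set'.1 hx
  let P : Submodule ℚ ℝ := Submodule.span ℚ (Set.range d)
  have : FiniteDimensional ℚ P := FiniteDimensional.span_of_finite ℚ (Set.finite_range d)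
  have hd : ∀ j, d j ∈ P := fun j => Submodule.subset_span ⟨j, rfl⟩
  let b := Module.finBasis ℚ P
  have hrep : ∀ j, d j = ∑ k, ((b.repr ⟨d j, hd j⟩ k : ℚ) : ℝ) * (b k : ℝ) := by
    intro j
    have h1 := congrArg (Subtype.val) (b.sum_repr ⟨d j, hd j⟩)
    have h2 : ((∑ k, b.repr ⟨d j, hd j⟩ k • b k : P) : ℝ)
        = ∑ k, ((b.repr ⟨d j, hd j⟩ k : ℚ) : ℝ) * (b k : ℝ) := by
      rw [AddSubmonoidClass.coe_finsetSum]
      refine Finset.sum_congr rfl fun k _ => ?_
      rw [Submodule.coe_smul, Rat.smul_def]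
    rw [← h2, h1]
  refine ⟨_, fun k => (b k : ℝ),
    fun k => ∑ j, ((b.repr ⟨d j, hd j⟩ k : ℚ) : ℝ) • (z j : V), ?_, ?_, ?_⟩
  · exact b.linearIndependent.map' P.subtype P.ker_subtype
  · intro k
    exact Finset.sum_induction _ (· ∈ h) (fun a b ha hb => hadd a ha b hb) h0
      (fun j _ => hsm _ _ (z j).2)
  · rw [← hz]
    have h3 : ∀ k, (b k : ℝ) • ∑ j, ((b.repr ⟨d j, hd j⟩ k : ℚ) : ℝ) • (z j : V)
        = ∑ j, (((b.repr ⟨d j, hd j⟩ k : ℚ) : ℝ) * (b k : ℝ)) • (z j : V) := by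
      intro k
      rw [Finset.smul_sum]
      refine Finset.sum_congr rfl fun j _ => ?_
      rw [smul_smul, mul_comm]
    simp only [h3]
    rw [Finset.sum_comm]
    refine Finset.sum_congr rfl fun j _ => ?_
    rw [← Finset.sum_smul, ← hrep j]

end SEN
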