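import Pool.Agent.Lib.SE.N.Spec
import Pool.Agent.Lib.SE.Big.RatSp

/-!
# PROJECT SE-N, module n1: rational endomorphisms with independent coefficients
-/

set_option autoImplicit false

open Module

noncomputable section

namespace SEN

open HC HC.E HC.SE SEB SEQ SER SES SEG SE

theorem tn1 : S_n1 := by
  intro T T' n c hc Y hY h0 k
  obtain ⟨ι, _, b, hb1, -⟩ := RatSp_aux.lat_basis T
  obtain ⟨ι', _, b', -, hb2'⟩ := RatSp_aux.lat_basis T'
  refine b.ext fun j => ?_
  rw [LinearMap.zero_apply]
  refine b'.repr.injective ?_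
  rw [map_zero]
  ext i
  rw [Finsupp.zero_apply]
  -- rational coordinates
  have hq : ∀ l, ∃ q : ℚ, b'.repr (Y l (b j)) i = q := fun l =>
    RatSp_aux.co b' hb2' (hY l (b j) (hb1 j)) i
  choose q hq using hq
  have h1 : ∑ l, q l • c l = 0 := by
    have h2 := congrArg (fun f : T.V →ₗ[ℝ] T'.V => b'.repr (f (b j)) i) h0
    simp only [LinearMap.sum_apply, LinearMap.smul_apply, map_sum, map_smul,
      Finsupp.finset_sum_apply, Finsupp.smul_apply, smul_eq_mul, LinearMap.zero_apply, map_zero,
      Finsupp.zero_apply, hq] at h2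
    rw [← h2]
    refine Finset.sum_congr rfl fun l _ => ?_
    rw [Rat.smul_def, mul_comm]
  have h3 := (Fintype.linearIndependent_iff.1 hc) q h1 k
  rw [hq, h3, Rat.cast_zero]

end SEN
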