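import Pool.Agent.Lib.SE.N.Spec
import Pool.Agent.Lib.SE.R.Nsc
import Pool.Agent.Lib.SE.Big.Bas
import Pool.Agent.Lib.SE.Big.Pj
import Pool.Agent.Lib.SE.Big.Tr

/-!
# PROJECT SE-N, module n10: Schur's lemma
-/

set_option autoImplicit false

open Module

noncomputable section

namespace SEN

open HC HC.E HC.SE SEB SEQ SER SES SEG SE

namespace n10_aux

variable {T : AV} {m : ℕ}

/-- The complex span of the commutators commutes with `pre δ`. -/
theorem gg_comm {h : Set (Module.End ℝ T.V)} (δ : Module.End ℝ T.V)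
    (hδ : ∀ X ∈ h, X * δ = δ * X) {C : Module.End ℂ (Frm T)} (hC : C ∈ gg h) :
    C * pre δ = pre δ * C := by
  refine Submodule.span_induction (p := fun C _ => C * pre δ = pre δ * C) ?_ ?_ ?_ ?_ hC
  · rintro _ ⟨_, ⟨X, hX, X', hX', rfl⟩, rfl⟩
    have e1 : X * X' * δ = δ * (X * X') := by
      rw [mul_assoc, hδ X' hX', ← mul_assoc, hδ X hX, mul_assoc]
    have e2 : X' * X * δ = δ * (X' * X) := by
      rw [mul_assoc, hδ X hX, ← mul_assoc, hδ X' hX', mul_assoc]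
    have h1 : δ * (X * X' - X' * X) = (X * X' - X' * X) * δ := by
      rw [sub_mul, mul_sub, e1, e2]
    change pre (δ * (X * X' - X' * X)) = pre ((X * X' - X' * X) * δ)
    rw [h1]
  · rw [zero_mul, mul_zero]
  · intro A B _ _ h1 h2
    rw [add_mul, mul_add, h1, h2]
  · intro c A _ h1
    rw [smul_mul_assoc, mul_smul_comm, h1]

/-- Commuting with all traceless operators means being a scalar. -/
theorem cent (W : Type) [AddCommGroup W] [Module ℂ W] [FiniteDimensional ℂ W]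
    (y : Module.End ℂ W)
    (hy : ∀ x : Module.End ℂ W, LinearMap.trace ℂ W x = 0 → x * y = y * x) :
    ∃ c : ℂ, ∀ a, y a = c • a := by
  by_cases hd : finrank ℂ W = 0
  · refine ⟨0, fun a => ?_⟩
    have h1 := Module.finrank_zero_iff.1 hd
    exact Subsingleton.elim _ _
  have hd' : (finrank ℂ W : ℂ) ≠ 0 := Nat.cast_ne_zero.2 hd
  have hc : LinearMap.trace ℂ W (y - (LinearMap.trace ℂ W y / (finrank ℂ W : ℂ)) • 1) = 0 := by
    rw [map_sub, map_smul, LinearMap.trace_one, smul_eq_mul, div_mul_cancel₀ _ hd', sub_self]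
  by_cases hy0 : y - (LinearMap.trace ℂ W y / (finrank ℂ W : ℂ)) • (1 : Module.End ℂ W) = 0
  · exact ⟨_, fun a => LinearMap.congr_fun (sub_eq_zero.1 hy0) a⟩
  exfalso
  obtain ⟨x, hx, hxy⟩ := tNsc W _ hc hy0
  apply hxy
  rw [mul_sub, sub_mul, mul_smul_comm, smul_mul_assoc, mul_one, one_mul, hy x hx,
    sub_sub_sub_cancel_right, sub_self]

/-- An endomorphism which commutes with `Z` and with `h` is a scalar on every eigenspace. -/
theorem scal (D : Cyc T m) (hm : 3 ≤ m) (h : Set (Module.End ℝ T.V)) (hh : HLie D h)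
    (hH : IsHit1 D) (δ : Module.End ℝ T.V) (hZ : ∀ v, δ (D.Z v) = D.Z (δ v))
    (hδ : ∀ X ∈ h, X * δ = δ * X) (s : (ZMod m)ˣ) :
    ∃ c : ℂ, ∀ a ∈ Ws D s, pre δ a = c • a := by
  obtain ⟨-, -, hpre, -, -⟩ := tBas tPj T m D hm
  have hfin : Module.Finite ℂ (Frm T) := Tr_aux.fin_frm T
  let y : Module.End ℂ (Ws D s) := (pre δ).restrict (hpre δ hZ s)
  have hy1 : ∀ a : Ws D s, (y a : Frm T) = pre δ (a : Frm T) := fun a => rfl
  have hcom : ∀ x : Module.End ℂ (Ws D s), LinearMap.trace ℂ (Ws D s) x = 0 →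
      x * y = y * x := by
    intro x hx
    obtain ⟨C, hC, hCx⟩ := hH h hh s (Function.update (fun _ => 0) s x) (by
      intro t
      by_cases ht : t = s
      · subst ht
        rw [Function.update_self]
        exact hx
      · rw [Function.update_of_ne ht, map_zero])
    have hCx' : ∀ a : Ws D s, C (a : Frm T) = (x a : Frm T) := by
      intro a
      have h1 := hCx s rfl a
      rwa [Function.update_self] at h1
    have hcom := gg_comm δ hδ hC
    refine LinearMap.ext fun a => Subtype.ext ?_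
    change (x (y a) : Frm T) = (y (x a) : Frm T)
    rw [hy1, ← hCx', ← hCx', hy1]
    exact LinearMap.congr_fun hcom (a : Frm T)
  obtain ⟨c, hc⟩ := cent (Ws D s) y hcom
  refine ⟨c, fun a ha => ?_⟩
  have h2 := congrArg (fun x : Ws D s => (x : Frm T)) (hc ⟨a, ha⟩)
  exact h2

/-- So it commutes with everything that commutes with `Z`. -/
theorem key (D : Cyc T m) (hm : 3 ≤ m) (h : Set (Module.End ℝ T.V)) (hh : HLie D h)
    (hH : IsHit1 D) (δ : Module.End ℝ T.V) (hZ : ∀ v, δ (D.Z v) = D.Z (δ v))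
    (hδ : ∀ X ∈ h, X * δ = δ * X) (A : Module.End ℝ T.V) (hA : ∀ v, A (D.Z v) = D.Z (A v)) :
    δ * A = A * δ := by
  obtain ⟨htop, -, hpre, hlin, -⟩ := tBas tPj T m D hm
  have hpp : pre (δ * A) = pre (A * δ) := by
    refine LinearMap.ext fun a => ?_
    have ha : a ∈ ⨆ s, Ws D s := by
      rw [htop]
      trivial
    refine Submodule.iSup_induction (fun s => Ws D s)
      (motive := fun a => pre (δ * A) a = pre (A * δ) a) ha ?_ ?_ ?_
    · intro s a ha
      obtain ⟨c, hc⟩ := scal D hm h hh hH δ hZ hδ s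
      change pre A (pre δ a) = pre δ (pre A a)
      rw [hc a ha, hc _ (hpre A hA s a ha), map_smul]
    · rw [map_zero, map_zero]
    · intro a b ha hb
      rw [map_add, map_add, ha, hb]
  exact (hlin _ _).2.2.2 hpp

theorem com_pow {D : Cyc T m} (Γ : Sd D) {g : (ZMod m)ˣ} (hg : g ∈ Γ.S) (k : ℕ) (v : T.V) :
    Γ.Θ g ((D.Z ^ k) v) = (D.Z ^ ((g : ZMod m).val * k)) (Γ.Θ g v) := by
  induction k generalizing v with
  | zero => rw [Nat.mul_zero, pow_zero, Module.End.one_apply, Module.End.one_apply]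
  | succ k ih =>
    rw [pow_succ, Module.End.mul_apply, ih, Γ.com g hg, Nat.mul_add, Nat.mul_one, pow_add,
      Module.End.mul_apply]

theorem pow_congr (D : Cyc T m) (hm : 3 ≤ m) {a b : ℕ} (hab : (a : ZMod m) = (b : ZMod m)) :
    D.Z ^ a = D.Z ^ b := by
  have hZ : D.Z ^ m = 1 := (tPj T m D hm).1
  rw [pow_eq_pow_mod a hZ, pow_eq_pow_mod b hZ]
  rw [(ZMod.natCast_eq_natCast_iff' a b m).1 hab]

theorem A_pow {D : Cyc T m} {A : Module.End ℝ T.V} (hA : ∀ v, A (D.Z v) = D.Z (A v)) (k : ℕ)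
    (v : T.V) : A ((D.Z ^ k) v) = (D.Z ^ k) (A v) := by
  induction k generalizing v with
  | zero => rw [pow_zero, Module.End.one_apply, Module.End.one_apply]
  | succ k ih => rw [pow_succ, Module.End.mul_apply, ih, hA, Module.End.mul_apply]

theorem ZR_pow (D : Cyc T m) (k : ℕ) (v : T.V) : (D.ZR ^ k) v = (D.Z ^ k) v := by
  induction k generalizing v with
  | zero => rfl
  | succ k ih =>
    rw [pow_succ, pow_succ, Module.End.mul_apply, Module.End.mul_apply, ih]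
    rfl

/-- `mul` of `Cj`. -/
theorem mulC (D : Cyc T m) (Γ : Sd D) (hm : 3 ≤ m) (h : Set (Module.End ℝ T.V)) (hh : HLie D h)
    (hC : ∀ X ∈ h, X ∈ Γ.C) (hH : IsHit1 D) (g : (ZMod m)ˣ) (hg : g ∈ Γ.S) (g' : (ZMod m)ˣ)
    (hg' : g' ∈ Γ.S) (A : Module.End ℝ T.V) (hA : ∀ v, A (D.Z v) = D.Z (A v)) (v : T.V) :
    A (Γ.Θ g (Γ.Θ g' ((Γ.Θ (g * g')).symm v))) =
      Γ.Θ g (Γ.Θ g' ((Γ.Θ (g * g')).symm (A v))) := by
  have hmz : NeZero m := ⟨by omega⟩
  have hgg : g * g' ∈ Γ.S := Γ.S.mul_mem hg hg'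
  let δ : Module.End ℝ T.V :=
    (((Γ.Θ (g * g')).symm.trans ((Γ.Θ g').trans (Γ.Θ g)) : T.V ≃ₗ[ℂ] T.V) :
      T.V →ₗ[ℂ] T.V).restrictScalars ℝ
  have hδ : ∀ v, δ v = Γ.Θ g (Γ.Θ g' ((Γ.Θ (g * g')).symm v)) := fun v => rfl
  have h1 : ∀ v, δ (D.Z v) = D.Z (δ v) := by
    intro v
    have e1 : (Γ.Θ (g * g')).symm (D.Z v) =
        (D.Z ^ (((g * g')⁻¹ : (ZMod m)ˣ) : ZMod m).val) ((Γ.Θ (g * g')).symm v) := by
      rw [LinearEquiv.symm_apply_eq, com_pow Γ hgg, LinearEquiv.apply_symm_apply]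
      have e2 : D.Z ^ ((((g * g' : (ZMod m)ˣ)) : ZMod m).val *
          (((g * g')⁻¹ : (ZMod m)ˣ) : ZMod m).val) = D.Z ^ 1 := by
        apply pow_congr D hm
        rw [Nat.cast_mul, ZMod.natCast_zmod_val, ZMod.natCast_zmod_val, Nat.cast_one,
          Units.mul_inv]
      rw [e2, pow_one]
    rw [hδ, hδ, e1, com_pow Γ hg', com_pow Γ hg]
    have e3 : D.Z ^ ((g : ZMod m).val * ((g' : ZMod m).val *
        (((g * g')⁻¹ : (ZMod m)ˣ) : ZMod m).val)) = D.Z ^ 1 := by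
      apply pow_congr D hm
      rw [Nat.cast_mul, Nat.cast_mul, ZMod.natCast_zmod_val, ZMod.natCast_zmod_val,
        ZMod.natCast_zmod_val, Nat.cast_one, ← mul_assoc, ← Units.val_mul, Units.mul_inv]
    rw [e3, pow_one]
  have h2 : ∀ X ∈ h, X * δ = δ * X := by
    intro X hX
    have hXC := hC X hX
    refine LinearMap.ext fun v => ?_
    rw [Module.End.mul_apply, Module.End.mul_apply, hδ, hδ, hXC g hg, hXC g' hg']
    have e1 : (Γ.Θ (g * g')).symm (X v) = X ((Γ.Θ (g * g')).symm v) := by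
      rw [LinearEquiv.symm_apply_eq, ← hXC (g * g') hgg, LinearEquiv.apply_symm_apply]
    rw [e1]
  have h3 := LinearMap.congr_fun (key D hm h hh hH δ h1 h2 A hA) v
  rw [Module.End.mul_apply, Module.End.mul_apply, hδ, hδ] at h3
  exact h3.symm

theorem psi_inj (D : Cyc T m) {v w : T.V} (h : ∀ u, D.ψ u v = D.ψ u w) : v = w := by
  by_contra hne
  have h1 : v - w ≠ 0 := sub_ne_zero.2 hne
  have h2 := D.pos _ h1
  rw [map_sub, h, sub_self] at h2
  exact lt_irrefl _ h2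

/-- The endomorphism `κ`. -/
theorem exκ (D : Cyc T m) (Θ : T.V ≃ₗ[ℂ] T.V) : ∃ κ : Module.End ℝ T.V,
    (∀ u v, D.ψ (Θ u) (Θ v) = D.ψ u (κ v)) ∧ Function.Surjective κ := by
  have hfin : FiniteDimensional ℝ T.V := Module.Finite.trans ℂ T.V
  let Ψ : T.V →ₗ[ℝ] Module.Dual ℝ T.V := D.ψ.flip
  have hinj : Function.Injective Ψ := by
    intro v w hvw
    exact psi_inj D fun u => LinearMap.congr_fun hvw u
  let e : T.V ≃ₗ[ℝ] Module.Dual ℝ T.V :=
    Ψ.linearEquivOfInjective hinj Subspace.dual_finrank_eq.symm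
  let ΘR : T.V →ₗ[ℝ] T.V := (Θ : T.V →ₗ[ℂ] T.V).restrictScalars ℝ
  let F : T.V →ₗ[ℝ] Module.Dual ℝ T.V := (D.ψ.compl₁₂ ΘR ΘR).flip
  let κ : Module.End ℝ T.V := e.symm.toLinearMap ∘ₗ F
  have h1 : ∀ u v, D.ψ (Θ u) (Θ v) = D.ψ u (κ v) := by
    intro u v
    have h2 : e (κ v) = F v := e.apply_symm_apply (F v)
    have h3 := LinearMap.congr_fun h2 u
    exact h3.symm
  refine ⟨κ, h1, ?_⟩
  apply LinearMap.injective_iff_surjective.1
  rw [← LinearMap.ker_eq_bot, LinearMap.ker_eq_bot']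
  intro v hv
  have h4 := h1 (Θ.symm (Complex.I • Θ v)) v
  rw [hv, map_zero, LinearEquiv.apply_symm_apply] at h4
  by_contra hv0
  have h5 : Θ v ≠ 0 := fun h0 => hv0 (Θ.map_eq_zero_iff.1 h0)
  have h6 := D.pos _ h5
  rw [h4] at h6
  exact lt_irrefl _ h6

theorem psi_pow (D : Cyc T m) (k : ℕ) (u v : T.V) : D.ψ ((D.Z ^ k) u) ((D.Z ^ k) v) = D.ψ u v := by
  induction k generalizing u v with
  | zero => rfl
  | succ k ih => rw [pow_succ, Module.End.mul_apply, Module.End.mul_apply, ih, D.inv]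

/-- `su` of `Cj`. -/
theorem suC (D : Cyc T m) (Γ : Sd D) (hm : 3 ≤ m) (h : Set (Module.End ℝ T.V)) (hh : HLie D h)
    (hC : ∀ X ∈ h, X ∈ Γ.C) (hH : IsHit1 D) (g : (ZMod m)ˣ) (hg : g ∈ Γ.S)
    (A : Module.End ℝ T.V) (hA : IsSU D A) (B : Module.End ℝ T.V)
    (hB : ∀ v, Γ.Θ g (B v) = A (Γ.Θ g v)) : IsSU D B := by
  have hBZ : ∀ v, B (D.Z v) = D.Z (B v) := by
    intro v
    apply (Γ.Θ g).injective
    rw [hB, Γ.com g hg, A_pow hA.1.1, Γ.com g hg, hB]
  obtain ⟨κ, hκ, hsur⟩ := exκ D (Γ.Θ g)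
  have hκZ : ∀ v, κ (D.Z v) = D.Z (κ v) := by
    intro v
    apply psi_inj D
    intro u
    have hu : ∃ u', D.Z u' = u := by
      refine ⟨(D.Z ^ (m - 1)) u, ?_⟩
      have hZ : D.Z ^ m = 1 := (tPj T m D hm).1
      have e1 : D.Z * D.Z ^ (m - 1) = D.Z ^ m := by
        rw [← pow_succ']
        congr 1
        omega
      have e2 := LinearMap.congr_fun (e1.trans hZ) u
      exact e2
    obtain ⟨u', rfl⟩ := hu
    rw [D.inv, ← hκ, ← hκ, Γ.com g hg, Γ.com g hg, psi_pow]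
  have hκX : ∀ X ∈ h, X * κ = κ * X := by
    intro X hX
    have hXC := hC X hX
    have hXs := (hh.u X hX).2
    refine LinearMap.ext fun v => ?_
    rw [Module.End.mul_apply, Module.End.mul_apply]
    apply psi_inj D
    intro u
    have e1 := hXs u (κ v)
    have e2 := hXs (Γ.Θ g u) (Γ.Θ g v)
    rw [← hκ] at e1
    rw [hXC g hg, hXC g hg] at e2
    rw [← hκ]
    linarith
  have hκB := key D hm h hh hH κ hκZ hκX B hBZ
  refine ⟨⟨hBZ, ?_⟩, ?_⟩
  · intro u w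
    obtain ⟨v, rfl⟩ := hsur w
    have e1 : B (κ v) = κ (B v) := (LinearMap.congr_fun hκB v).symm
    rw [e1, ← hκ, ← hκ, hB, hB]
    exact hA.1.2 _ _
  · intro k
    let e : T.V ≃ₗ[ℝ] T.V := (Γ.Θ g).restrictScalars ℝ
    have he : ∀ v, e v = Γ.Θ g v := fun v => rfl
    have h1 : e.conj (B * D.ZR ^ k) = A * D.ZR ^ ((g : ZMod m).val * k) := by
      refine LinearMap.ext fun v => ?_
      rw [LinearEquiv.conj_apply_apply, Module.End.mul_apply, Module.End.mul_apply, ZR_pow,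
        ZR_pow, he, hB, com_pow Γ hg, ← he, LinearEquiv.apply_symm_apply]
    have h2 := LinearMap.trace_conj' (B * D.ZR ^ k) e
    rw [h1] at h2
    rw [← h2]
    exact hA.2 _

end n10_aux

open n10_aux in
theorem tn10 : S_n3 → S_n10 := by
  intro h3 T m r D Γ hm _ _ hH
  obtain ⟨h, hh, hC⟩ := h3 T m D Γ
  exact ⟨fun g hg A hA B hB => suC D Γ hm h hh hC hH g hg A hA B hB,
    fun g hg g' hg' A hA v => mulC D Γ hm h hh hC hH g hg g' hg' A hA v⟩

end SEN
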