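import Pool.Agent.Lib.SE.N.Spec
import Pool.Agent.Lib.SE.R.Non
import Pool.Agent.Lib.SE.R.Rt
import Pool.Agent.Lib.SE.R.PjR
import Pool.Agent.Lib.SE.R.ClR
import Pool.Agent.Lib.SE.R.Cmt
import Pool.Agent.Lib.SE.R.Nab

/-!
# PROJECT SE-N, module n11: an element which lives on one factor only
-/

set_option autoImplicit false

open Module

noncomputable section

namespace SEN

open HC HC.E HC.SE SEB SEQ SER SES SEG SE

namespace n11_aux

theorem pT_inj {T : AV} (Θ : T.V ≃ₗ[ℂ] T.V) (b : Frm T) (h : pT Θ b = 0) : b = 0 := by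
  refine LinearMap.ext fun v => ?_
  have h1 : pT Θ b (Θ.symm v) = 0 := by
    rw [h]
    rfl
  have h2 : pT Θ b (Θ.symm v) = b (Θ (Θ.symm v)) := rfl
  rw [h2, LinearEquiv.apply_symm_apply] at h1
  exact h1

variable {q : ℕ} {T : Fin q → AV} {m : Fin q → ℕ} {B : AV} {ι : Type}

/-- the components at the other factors vanish -/
theorem zer (h4 : S_n4) (h6 : S_n6) (D : ∀ i, Cyc (T i) (m i)) (Γ : ∀ i, Sd (D i))
    (hm : ∀ i, 3 ≤ m i) (h : Set (Tup T)) (hh : HLieT D h) (hct : ∀ X ∈ h, CT Γ X)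
    (i : Fin q) (s : (ZMod (m i))ˣ) (F : Set (Ch m)) (hF : Ful Γ F)
    (C : ∀ i, Module.End ℂ (Frm (T i))) (hC : C ∈ ggT h)
    (h0 : ∀ x ∈ F, x ≠ ⟨i, s⟩ → ∀ a ∈ WT D x, C x.1 a = 0) (k : Fin q)
    (hk : k ≠ i) : C k = 0 := by
  have hg : C k ∈ gg ((fun X : Tup T => X k) '' h) := by
    rw [PrT_aux.gg1]
    exact ⟨C, hC, rfl⟩
  have h1 : ∀ g ∈ (Γ k).S, ∀ t : (ZMod (m k))ˣ, (⟨k, g * t⟩ : Ch m) ∈ F →
      ∀ a ∈ Ws (D k) t, C k a = 0 := by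
    intro g hgS t ht a ha
    obtain ⟨e1, -, -⟩ := h4 (T k) (m k) (D k) (Γ k) (hm k) g hgS t
    have e2 : C k (pT ((Γ k).Θ g) a) = 0 :=
      h0 ⟨k, g * t⟩ ht (fun he => hk (congrArg Sigma.fst he)) _ (e1 a ha)
    rw [h6.2.1 q T m D Γ h hct C hC k g hgS a] at e2
    exact pT_inj _ _ e2
  have h2 : ∀ t : (ZMod (m k))ˣ, ∀ a ∈ Ws (D k) t, C k a = 0 := by
    intro t
    obtain ⟨g, hgS, ht⟩ := hF ⟨k, t⟩
    rcases ht with ht | ht
    · exact h1 g hgS t ht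
    · have ht' : (⟨k, g * (-t)⟩ : Ch m) ∈ F := by
        rw [mul_neg]
        exact ht
      have h3 := tLn (T k) (m k) (D k) (hm k) _ (PrT_aux.lie1 hh k) (C k) hg (-t)
        (h1 g hgS (-t) ht')
      rw [neg_neg] at h3
      exact h3
  obtain ⟨htop, -⟩ := tBas tPj (T k) (m k) (D k) (hm k)
  have h5 : (⊤ : Submodule ℂ (Frm (T k))) ≤ LinearMap.ker (C k) := by
    rw [← htop]
    exact iSup_le fun t a ha => h2 t a ha
  exact LinearMap.ext fun a => h5 (Submodule.mem_top : a ∈ ⊤)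

/-- the operators used -/
theorem key (h4 : S_n4) (h6 : S_n6) (D : ∀ i, Cyc (T i) (m i)) (Γ : ∀ i, Sd (D i))
    (hm : ∀ i, 3 ≤ m i) (hT : HTN Γ) (G : GC B ι) (h : Set (TB T B)) (hh : HLieR D G h)
    (hct : ∀ X ∈ h, CT Γ X.1) (i : Fin q) (s : (ZMod (m i))ˣ) (F : Set (Ch m))
    (hsF : (⟨i, s⟩ : Ch m) ∈ F) (hA : Adm Γ F) (hF : Ful Γ F) (X : Module.End ℂ (Ws (D i) s))
    (tX : LinearMap.trace ℂ (Ws (D i) s) X = 0)
    (cX : X * Non_aux.Jw (D i) s = Non_aux.Jw (D i) s * X) :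
    ∃ C' ∈ ggR h, (∀ k, k ≠ i → C'.1 k = 0) ∧
      (∀ a : Ws (D i) s, C'.1 i (a : Frm (T i)) = (((2 : ℂ) • X a : Ws (D i) s) : Frm (T i))) ∧
      ∃ C ∈ Submodule.span ℂ (pre '' G.s), C'.2 = C - pre (mulI B) * C * pre (mulI B) := by
  classical
  obtain ⟨hL, hlift, -⟩ := tPjR q T m D B ι G h hh
  obtain ⟨-, -, hJ, -⟩ := tClR q T m D B ι G h hh
  have hctT : ∀ Y ∈ Prod.fst '' h, CT Γ Y := by
    rintro _ ⟨Y, hY, rfl⟩
    exact hct Y hY
  let x₀ : Ch m := ⟨i, s⟩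
  let A : ∀ x : Ch m, Module.End ℂ (WT D x) := Function.update (fun _ => 0) x₀ X
  have hA0 : A x₀ = X := Function.update_self _ _ _
  have hA1 : ∀ x, x ≠ x₀ → A x = 0 := fun x hx => Function.update_of_ne hx _ _
  obtain ⟨C, hC, hCA⟩ := hT (Prod.fst '' h) hL hctT F hA A (by
    intro x
    by_cases hx : x = x₀
    · subst hx
      rw [hA0]
      exact tX
    · rw [hA1 x hx, map_zero])
  obtain ⟨C₁, hC₁, rfl⟩ := hlift C hC
  have hk0 : ∀ k, k ≠ i → C₁.1 k = 0 := by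
    refine zer h4 h6 D Γ hm (Prod.fst '' h) hL hctT i s F hF C₁.1 hC ?_
    intro x hx hxx a ha
    have h1 := hCA x hx ⟨a, ha⟩
    rw [hA1 x hxx] at h1
    exact h1
  have hki : ∀ a : Ws (D i) s, C₁.1 i (a : Frm (T i)) = (X a : Frm (T i)) := by
    intro a
    have h1 := hCA x₀ hsF a
    rw [hA0] at h1
    exact h1
  refine ⟨C₁ - preR (JT T, mulI B) * C₁ * preR (JT T, mulI B), hJ C₁ hC₁, ?_, ?_, ?_⟩
  · intro k hk
    change C₁.1 k - pre (mulI (T k)) * C₁.1 k * pre (mulI (T k)) = 0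
    rw [hk0 k hk, mul_zero, zero_mul, sub_zero]
  · intro a
    have e1 : pre (mulI (T i)) (a : Frm (T i)) = (Non_aux.Jw (D i) s a : Frm (T i)) := rfl
    have e2 : pre (mulI (T i)) (X (Non_aux.Jw (D i) s a) : Frm (T i)) =
        (Non_aux.Jw (D i) s (X (Non_aux.Jw (D i) s a)) : Frm (T i)) := rfl
    have e3 : Non_aux.Jw (D i) s (X (Non_aux.Jw (D i) s a)) = -X a := by
      have h1 : X (Non_aux.Jw (D i) s a) = Non_aux.Jw (D i) s (X a) := LinearMap.congr_fun cX a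
      rw [h1]
      have h2 := LinearMap.congr_fun (Non_aux.Jw_sq (D i) s) (X a)
      exact h2
    change C₁.1 i (a : Frm (T i)) - pre (mulI (T i)) (C₁.1 i (pre (mulI (T i)) (a : Frm (T i)))) = _
    rw [e1, hki, hki, e2, e3, Submodule.coe_neg, sub_neg_eq_add, two_smul, Submodule.coe_add]
  · refine ⟨C₁.2, ?_, rfl⟩
    have h1 : ggR h ≤ (Submodule.span ℂ (pre '' G.s)).comap
        (LinearMap.snd ℂ (∀ i, Module.End ℂ (Frm (T i))) (Module.End ℂ (Frm B))) := by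
      refine Submodule.span_le.mpr ?_
      rintro _ ⟨Y, ⟨X, hX, X', hX', rfl⟩, rfl⟩
      exact Submodule.subset_span ⟨_, hh.op _ (hh.br X hX X' hX'), rfl⟩
    exact h1 hC₁

end n11_aux

theorem tn11 : S_n4 → S_n5 → S_n6 → S_n11 := by
  intro h4 h5 h6 q T m D Γ hm hT B ι G h hh hct i ⟨s, hs⟩
  refine tRt q T m D B ι G h hh i ?_
  have := At0_aux.fin_frm (T i)
  have hfd : FiniteDimensional ℂ (Ws (D i) s) := inferInstance
  obtain ⟨F, hsF, hA, hF⟩ := (h5 q T m D Γ).2 ⟨i, s⟩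
  obtain ⟨e, he, heJ⟩ := Non_aux.two (D i) s hs
  obtain ⟨X, Y, tX, tY, cX, cY, hXY⟩ := tNab (Ws (D i) s) (Non_aux.Jw (D i) s)
    (Non_aux.Jw_sq (D i) s) e he heJ
  obtain ⟨C, hC, hCk, hCi, C₂, hC₂, hC2⟩ :=
    n11_aux.key h4 h6 D Γ hm hT G h hh hct i s F hsF hA hF X tX cX
  obtain ⟨E, hE, hEk, hEi, E₂, hE₂, hE2⟩ :=
    n11_aux.key h4 h6 D Γ hm hT G h hh hct i s F hsF hA hF Y tY cY
  obtain ⟨hbr, -⟩ := tClR q T m D B ι G h hh
  refine ⟨C * E - E * C, hbr C hC E hE, ?_, ?_, ?_⟩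
  · change C.2 * E.2 - E.2 * C.2 = 0
    rw [hC2, hE2, tCmt B ι G C₂ hC₂ E₂ hE₂, sub_self]
  · intro k hk
    change C.1 k * E.1 k - E.1 k * C.1 k = 0
    rw [hCk k hk, hEk k hk, mul_zero, sub_self]
  · intro h0
    apply hXY
    refine LinearMap.ext fun a => ?_
    have h1 : C.1 i (E.1 i (a : Frm (T i))) - E.1 i (C.1 i (a : Frm (T i))) = 0 :=
      LinearMap.congr_fun h0 (a : Frm (T i))
    rw [hEi, hCi, hCi, hEi, ← Submodule.coe_sub, map_smul, map_smul, smul_smul, smul_smul] at h1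
    have h2 : ((2 : ℂ) * 2) • (X (Y a) - Y (X a)) = 0 := by
      rw [smul_sub]
      exact Subtype.ext h1
    have h3 : X (Y a) - Y (X a) = 0 := (smul_eq_zero.mp h2).resolve_left (by norm_num)
    exact h3

end SEN
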