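import Pool.Agent.Lib.SE.N.Spec
import Pool.Agent.Lib.SE.R.Idn
import Pool.Agent.Lib.SE.R.IdA
import Pool.Agent.Lib.SE.R.Nsc
import Pool.Agent.Lib.SE.R.Sim
import Pool.Agent.Lib.SE.R.PjR
import Pool.Agent.Lib.SE.R.ClR

/-!
# PROJECT SE-N, module n12: everything is hit with `B`-component `0`
-/

set_option autoImplicit false

open Module

noncomputable section

namespace SEN

open HC HC.E HC.SE SEB SEQ SER SES SEG SE

namespace n12_aux

variable {q : ℕ} {T : Fin q → AV} {m : Fin q → ℕ} {B : AV} {ι : Type}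

theorem ct_img {D : ∀ i, Cyc (T i) (m i)} (Γ : ∀ i, Sd (D i)) {h : Set (TB T B)}
    (hct : ∀ X ∈ h, CT Γ X.1) : ∀ X ∈ (Prod.fst '' h : Set (Tup T)), CT Γ X := by
  rintro X ⟨Y, hY, rfl⟩
  exact hct Y hY

/-- A nonzero operator at every character (copy of SE/R/Idn.lean). -/
theorem idn (D : ∀ i, Cyc (T i) (m i)) (Γ : ∀ i, Sd (D i)) (hm : ∀ i, 3 ≤ m i) (hT : HTN Γ)
    (G : GC B ι) {h : Set (TB T B)} (hh : HLieR D G h) (hct : ∀ X ∈ h, CT Γ X.1)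
    (hO : ∀ i, Only h i) {F : Set (Ch m)} (hF : Adm Γ F) {x : Ch m} (hx : x ∈ F) :
    ∃ N ∈ ggR h, N.2 = 0 ∧ (∀ z ∈ F, z ≠ x → ∀ a ∈ WT D z, N.1 z.1 a = 0) ∧
      ∃ a ∈ WT D x, N.1 x.1 a ≠ 0 := by
  classical
  obtain ⟨hHL, hup, hdown⟩ := tPjR q T m D B ι G h hh
  obtain ⟨c1, -, -, c4⟩ := tClR q T m D B ι G h hh
  obtain ⟨Y, hY, hYs, hY2, -, hYi⟩ := hO x.1
  have hgY : preR Y ∈ ggR h := c4 Y hYs
  obtain ⟨-, hcl2⟩ := tClT q T m D hm (Prod.fst '' h) hHL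
  obtain ⟨y', hy'tr, hy'⟩ := hcl2 (preR Y).1 (hdown _ hgY) x
  have hy0 : y' ≠ 0 := by
    intro h0
    apply hYi
    refine Idn_aux.van (D x.1) (hm x.1) (Y.1 x.1) ((hh.rat Y hY).1 x.1) ((hh.u Y hY x.1).1) x.2 ?_
    intro a ha
    have h1 := hy' ⟨a, ha⟩
    rw [h0] at h1
    exact h1
  obtain ⟨z, hztr, hz⟩ := tNsc (WT D x) y' hy'tr hy0
  obtain ⟨C₀, hC₀, hC₀'⟩ := hT (Prod.fst '' h) hHL (ct_img Γ hct) F hF
    (fun s => if hs : s = x then hs ▸ z else 0) (by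
      intro s
      by_cases hs : s = x
      · subst hs
        simpa using hztr
      · simp [hs])
  obtain ⟨C, hC, hC1⟩ := hup C₀ hC₀
  have w1 : ∀ a : WT D x, C.1 x.1 (a : Frm (T x.1)) = (z a : Frm (T x.1)) := by
    intro a
    have h3 := hC₀' x hx a
    rw [hC1]
    simpa using h3
  have w2 : ∀ t ∈ F, t ≠ x → ∀ a : WT D t, C.1 t.1 (a : Frm (T t.1)) = 0 := by
    intro t ht htx a
    have h3 := hC₀' t ht a
    rw [hC1]
    simpa [htx] using h3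
  refine ⟨C * preR Y - preR Y * C, c1 C hC _ hgY, ?_, ?_, ?_⟩
  · have h1 : (preR Y).2 = 0 := by
      change pre Y.2 = 0
      rw [hY2]
      exact LinearMap.ext fun a => LinearMap.comp_zero a
    rw [Prod.snd_sub, Prod.snd_mul, Prod.snd_mul, h1, mul_zero, zero_mul, sub_zero]
  · intro t ht htx a ha
    obtain ⟨u', -, hu'⟩ := hcl2 (preR Y).1 (hdown _ hgY) t
    have h1 : (C * preR Y - preR Y * C).1 t.1 a =
        C.1 t.1 ((preR Y).1 t.1 a) - (preR Y).1 t.1 (C.1 t.1 a) := rfl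
    have h2 := hu' ⟨a, ha⟩
    have h3 := w2 t ht htx ⟨a, ha⟩
    have h4 := w2 t ht htx (u' ⟨a, ha⟩)
    change (preR Y).1 t.1 a = _ at h2
    change C.1 t.1 a = 0 at h3
    rw [h1, h2, h3, h4, map_zero, sub_zero]
  · by_contra hno
    push Not at hno
    apply hz
    refine LinearMap.ext fun a => ?_
    have h1 := hno (a : Frm (T x.1)) a.2
    have h2 : (C * preR Y - preR Y * C).1 x.1 (a : Frm (T x.1)) =
        C.1 x.1 ((preR Y).1 x.1 (a : Frm (T x.1))) -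
          (preR Y).1 x.1 (C.1 x.1 (a : Frm (T x.1))) := rfl
    rw [h2, w1, hy', hy', w1] at h1
    apply Subtype.ext
    exact h1

/-- All traceless operators of `WT D x` are induced (copy of SE/R/IdA.lean). -/
theorem all_mem (D : ∀ i, Cyc (T i) (m i)) (Γ : ∀ i, Sd (D i))
    (hm : ∀ i, 3 ≤ m i) (hT : HTN Γ) (G : GC B ι) {h : Set (TB T B)} (hh : HLieR D G h)
    (hct : ∀ X ∈ h, CT Γ X.1) {F : Set (Ch m)} (hF : Adm Γ F) {x : Ch m} (hx : x ∈ F)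
    (hN : ∃ N ∈ ggR h, N.2 = 0 ∧ (∀ z ∈ F, z ≠ x → ∀ a ∈ WT D z, N.1 z.1 a = 0) ∧
      ∃ a ∈ WT D x, N.1 x.1 a ≠ 0) (X : Module.End ℂ (WT D x))
    (hX : LinearMap.trace ℂ (WT D x) X = 0) : X ∈ IdA_aux.NN D h F x := by
  classical
  obtain ⟨hf, hlift, hgg⟩ := tPjR q T m D B ι G h hh
  obtain ⟨hcl, -, -, -⟩ := tClR q T m D B ι G h hh
  obtain ⟨-, htr⟩ := tClT q T m D hm (Prod.fst '' h) hf
  have hfd : FiniteDimensional ℂ (WT D x) := inferInstance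
  refine tSim (WT D x) (IdA_aux.NN D h F x) ?_ ?_ ?_ X hX
  · rintro A ⟨N, ⟨h1, -, -⟩, h4⟩
    obtain ⟨A', hA', hA⟩ := htr N.1 (hgg N h1) x
    have h5 : A = A' := by
      refine LinearMap.ext fun a => Subtype.ext ?_
      rw [← h4 a, ← hA a]
    rw [h5]
    exact hA'
  · rintro A ⟨N, ⟨h1, h2, h3⟩, h4⟩ y hy
    obtain ⟨C, hC, hC1⟩ := hT (Prod.fst '' h) hf (ct_img Γ hct) F hF
      (fun s => if hs : s = x then hs ▸ y else 0)
      (by
        intro s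
        by_cases hs : s = x
        · subst hs
          simpa using hy
        · simp [hs])
    obtain ⟨C', hC', rfl⟩ := hlift C hC
    have w1 : ∀ a : WT D x, C'.1 x.1 (a : Frm (T x.1)) = (y a : Frm (T x.1)) := by
      intro a
      have h5 := hC1 x hx a
      simpa using h5
    have w2 : ∀ z ∈ F, z ≠ x → ∀ a : WT D z, C'.1 z.1 (a : Frm (T z.1)) = 0 := by
      intro z hz hzx a
      have h5 := hC1 z hz a
      simpa [hzx] using h5
    refine ⟨C' * N - N * C', ⟨hcl C' hC' N h1, ?_, fun z hz hzx a ha => ?_⟩, fun a => ?_⟩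
    · rw [Prod.snd_sub, Prod.snd_mul, Prod.snd_mul, h2, mul_zero, zero_mul, sub_zero]
    · rw [Prod.fst_sub, Prod.fst_mul, Prod.fst_mul, Pi.sub_apply, Pi.mul_apply, Pi.mul_apply,
        LinearMap.sub_apply, Module.End.mul_apply, Module.End.mul_apply, h3 z hz hzx a ha,
        w2 z hz hzx ⟨a, ha⟩, map_zero, map_zero, sub_zero]
    · rw [Prod.fst_sub, Prod.fst_mul, Prod.fst_mul, Pi.sub_apply, Pi.mul_apply, Pi.mul_apply,
        LinearMap.sub_apply, Module.End.mul_apply, Module.End.mul_apply, h4, w1, w1, h4]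
      rfl
  · obtain ⟨N, h1, h2, h3, a, ha, h4⟩ := hN
    obtain ⟨A', -, hA⟩ := htr N.1 (hgg N h1) x
    refine ⟨A', ⟨N, ⟨h1, h2, h3⟩, hA⟩, fun h5 => h4 ?_⟩
    rw [hA ⟨a, ha⟩, h5]
    rfl

end n12_aux

open n12_aux in
theorem tn12 : S_n11 → S_n12 := by
  classical
  intro h11 q T m D Γ hm hT hp B ι G h hh hct F hF A hA
  have : ∀ i, NeZero (m i) := fun i => ⟨by have := hm i; omega⟩
  have hO : ∀ i, Only h i := fun i => h11 q T m D Γ hm hT B ι G h hh hct i (hp i)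
  have hex : ∀ x : Ch m, ∃ N ∈ ggR h, N.2 = 0 ∧ (x ∈ F →
      (∀ a : WT D x, N.1 x.1 (a : Frm (T x.1)) = (A x a : Frm (T x.1))) ∧
        ∀ z ∈ F, z ≠ x → ∀ a : WT D z, N.1 z.1 (a : Frm (T z.1)) = 0) := by
    intro x
    by_cases hx : x ∈ F
    · obtain ⟨N, ⟨h1, h2, h3⟩, h4⟩ :=
        all_mem D Γ hm hT G hh hct hF hx (idn D Γ hm hT G hh hct hO hF hx) (A x) (hA x)
      exact ⟨N, h1, h2, fun _ => ⟨h4, fun z hz hzx a => h3 z hz hzx a a.2⟩⟩
    · exact ⟨0, Submodule.zero_mem _, rfl, fun h => absurd h hx⟩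
  choose N h1 h2 h3 using hex
  refine ⟨∑ x ∈ Finset.univ.filter (fun x => x ∈ F), N x,
    Submodule.sum_mem _ fun x _ => h1 x, ?_, fun y hy a => ?_⟩
  · rw [Prod.snd_sum]
    exact Finset.sum_eq_zero fun x _ => h2 x
  · rw [Prod.fst_sum, Finset.sum_apply, LinearMap.sum_apply, Finset.sum_eq_single y]
    · exact (h3 y hy).1 a
    · intro z hz hzy
      rw [Finset.mem_filter] at hz
      exact (h3 z hz.2).2 y hy (Ne.symm hzy) a
    · intro h5
      exact absurd (Finset.mem_filter.2 ⟨Finset.mem_univ _, hy⟩) h5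

end SEN
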