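import Pool.Agent.Lib.SE.N.Spec
import Pool.Agent.Lib.SE.S.Asm
import Pool.Agent.Lib.SE.S.Ts
import Pool.Agent.Lib.SE.S.GrS
import Pool.Agent.Lib.SE.S.NoI

/-!
# PROJECT SE-N, module n14: the Lie algebra with symplectic factors (helper47; adapts SE/S/M2.lean of helper87)
-/

set_option autoImplicit false

open Module

noncomputable section

namespace SEN

open HC HC.E HC.SE SEB SEQ SER SES SEG SE

namespace n14_aux

variable {q q' : ℕ} {T : Fin q → AV} {m : Fin q → ℕ} {B : AV} {ι : Type} {G : Fin q' → AV}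

/-- An element with `B`-component `0` which vanishes at a full set is `0` on `T`. -/
theorem van' (h4 : S_n4) (h6 : S_n6) (hPj : S_PjM) (D : ∀ i, Cyc (T i) (m i))
    (hm : ∀ i, 3 ≤ m i) (Γ : ∀ i, Sd (D i)) (S : GC B ι)
    (E : ∀ k, (G k).V →ₗ[ℝ] (G k).V →ₗ[ℝ] ℝ) (h : Set (TM T B G)) (hh : HLieM D S E h)
    (hCΓ : ∀ X ∈ h, CT Γ X.1.1) {F : Set (Ch m)} (hF : Ful Γ F)
    {C : CM' T B G} (hC : C ∈ ggM h) (hB : C.1.2 = 0)
    (h0 : ∀ z ∈ F, ∀ a ∈ WT D z, C.1.1 z.1 a = 0) : C.1 = 0 := by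
  obtain ⟨p1, -, -, -, p5, -⟩ := hPj q q' T m D B ι S G E h hh
  obtain ⟨r1, -, r3⟩ := tPjR q T m D B ι S (Prod.fst '' h) p1
  have hg0 : C.1.1 ∈ ggT (Prod.fst '' (Prod.fst '' h)) := r3 C.1 (p5 C hC).1
  refine Prod.ext (funext fun k => ?_) hB
  have hg : C.1.1 k ∈ gg ((fun X : Tup T => X k) '' (Prod.fst '' (Prod.fst '' h))) := by
    rw [PrT_aux.gg1]
    exact ⟨C.1.1, hg0, rfl⟩
  have h2 : ∀ t : (ZMod (m k))ˣ, ∀ a ∈ Ws (D k) t, C.1.1 k a = 0 := by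
    intro t b hb
    obtain ⟨g, hgS, ht⟩ := hF ⟨k, t⟩
    have h3 : ∀ a ∈ Ws (D k) (g * t), C.1.1 k a = 0 := by
      rcases ht with ht | ht
      · exact h0 ⟨k, g * t⟩ ht
      · have h3 := tLn (T k) (m k) (D k) (hm k) _ (PrT_aux.lie1 r1 k) (C.1.1 k) hg (-(g * t))
          (h0 ⟨k, -(g * t)⟩ ht)
        rw [neg_neg] at h3
        exact h3
    obtain ⟨-, h42, -⟩ := h4 (T k) (m k) (D k) (Γ k) (hm k) g⁻¹ (inv_mem hgS) (g * t)
    have hb' : b ∈ Ws (D k) (g⁻¹ * (g * t)) := by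
      rw [inv_mul_cancel_left]
      exact hb
    obtain ⟨a, ha, rfl⟩ := h42 b hb'
    rw [h6.2.2.2 q q' T m D Γ B G h hCΓ C hC k g⁻¹ (inv_mem hgS) a, h3 a ha, map_zero]
  obtain ⟨htop, -⟩ := tBas tPj (T k) (m k) (D k) (hm k)
  have h7 : (⊤ : Submodule ℂ (Frm (T k))) ≤ LinearMap.ker (C.1.1 k) := by
    rw [← htop]
    exact iSup_le fun t a ha => h2 t a ha
  exact LinearMap.ext fun a => h7 (Submodule.mem_top : a ∈ ⊤)

open M2_aux in
/-- Traceless operators at one character. -/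
theorem hits' (hPj : S_PjM) (D : ∀ i, Cyc (T i) (m i)) (Γ : ∀ i, Sd (D i)) (S : GC B ι)
    (E : ∀ k, (G k).V →ₗ[ℝ] (G k).V →ₗ[ℝ] ℝ) (h : Set (TM T B G)) (hh : HLieM D S E h)
    (hCΓ : ∀ X ∈ h, CT Γ X.1.1)
    (hH : H0N Γ B) {F : Set (Ch m)} (hF : Adm Γ F) {x : Ch m} (hx : x ∈ F)
    (X : Module.End ℂ (WT D x)) (hX : LinearMap.trace ℂ (WT D x) X = 0) :
    ∃ C ∈ MM D h F x, ∀ a : WT D x, C.1.1 x.1 (a : Frm (T x.1)) = (X a : Frm (T x.1)) := by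
  classical
  obtain ⟨p1, -, p3, -, -, -⟩ := hPj q q' T m D B ι S G E h hh
  obtain ⟨C, hC, hC2, hC1⟩ := hH ι S (Prod.fst '' h) p1
    (by
      rintro _ ⟨Y, hY, rfl⟩
      exact hCΓ Y hY) F hF
    (fun s => if hs : s = x then hs ▸ X else 0) (by
      intro s
      by_cases hs : s = x
      · subst hs
        simpa using hX
      · simp [hs])
  obtain ⟨C', hC', rfl⟩ := p3 C hC
  refine ⟨C', ⟨hC', hC2, fun z hz hzx a ha => ?_⟩, fun a => ?_⟩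
  · have h5 := hC1 z hz ⟨a, ha⟩
    simpa [hzx] using h5
  · have h5 := hC1 x hx a
    simpa using h5

open M2_aux M1_aux in
theorem tM2' (h4 : S_n4) (h5 : S_n5) (h6 : S_n6) (hBs : SES.S_Bs) (hTs : SES.S_Ts) (hSi : S_SiS)
    (hCl : S_ClX) (hJS : S_JS) (hPj : S_PjM) (hNo : S_NoI) (hDi : S_DiS) (hDim : S_Dim)
    (hAd : S_AdJ) (hSim : S_Sim) (hM1 : S_M1) (hNa : S_NaS) (hCm : S_Cmt)
    (q q' : ℕ) (T : Fin q → AV) (m r : Fin q → ℕ) (D : ∀ i, Cyc (T i) (m i))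
    (Γ : ∀ i, Sd (D i)) (B : AV) (ι : Type)
    (S : GC B ι) (G : Fin q' → AV) (E : ∀ k, (G k).V →ₗ[ℝ] (G k).V →ₗ[ℝ] ℝ)
    (f : ∀ k, Frm (G k) →ₗ[ℂ] Frm (G k) →ₗ[ℂ] ℂ) (h : Set (TM T B G)) (hT : TuD G E f)
    (hm : ∀ i, 3 ≤ m i) (hd : ∀ i, 2 * finrank ℂ (T i).V = r i * Nat.totient (m i))
    (hH : H0N Γ B) (hh : HLieM D S E h) (hCΓ : ∀ X ∈ h, CT Γ X.1.1)
    (hG : HiG f (Prod.snd '' h)) (k : Fin q') :
    ∀ A ∈ Sp (f k), ∃ C ∈ ggM h, C.1 = 0 ∧ C.2 k = A := by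
  classical
  have : ∀ i, NeZero (m i) := fun i => ⟨by have := hm i; omega⟩
  obtain ⟨-, -, -, p4, p5, -⟩ := hPj q q' T m D B ι S G E h hh
  obtain ⟨c1, -, c3, -, -⟩ := hCl (TM T B G) (CM' T B G) preM preM_add preM_smul preM_mul h
    (((JT T, mulI B), JT G) : TM T B G) hh.br hh.J (ggM h) rfl
  obtain ⟨j1, j2, j3, j4, j5⟩ := hJS (G k)
  have hsf := (hT.fs k).sf
  have hm1 := hM1 hBs hTs hSi hNa hCl hJS hCm hPj q q' T m D B ι S G E f h hT hh hG k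
  -- every element of `Sp (f k)` is a component
  have hit : ∀ X ∈ Sp (f k), ∃ C ∈ ggM h, C.2 k = X := fun X hX => by
    obtain ⟨C, hC, -, h2⟩ := hm1 X hX
    exact ⟨C, hC, h2⟩
  have hSp : ∀ C ∈ ggM h, C.2 k ∈ Sp (f k) := fun C hC => hG.1 _ (p5 C hC).2 k
  let N : Submodule ℂ (Module.End ℂ (Frm (G k))) :=
    { carrier := {A | ∃ C ∈ ggM h, C.1 = 0 ∧ C.2 k = A}
      add_mem' := by
        rintro A A' ⟨C, hC, h1, rfl⟩ ⟨C', hC', h1', rfl⟩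
        refine ⟨C + C', add_mem hC hC', ?_, rfl⟩
        rw [Prod.fst_add, h1, h1', add_zero]
      zero_mem' := ⟨0, zero_mem _, rfl, rfl⟩
      smul_mem' := by
        rintro c A ⟨C, hC, h1, rfl⟩
        refine ⟨c • C, Submodule.smul_mem _ c hC, ?_, rfl⟩
        rw [Prod.smul_fst, h1, smul_zero] }
  by_cases hN : ∃ n ∈ N, n ≠ 0
  · refine fun A hA => hSi hBs hTs (Frm (G k)) (f k) hsf N ?_ ?_ hN A hA
    · rintro n ⟨C, hC, -, rfl⟩
      exact hSp C hC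
    · rintro n ⟨C, hC, h1, rfl⟩ X hX
      obtain ⟨C', hC', rfl⟩ := hit X hX
      refine ⟨C' * C - C * C', c1 C' hC' C hC, ?_, rfl⟩
      change C'.1 * C.1 - C.1 * C'.1 = 0
      rw [h1, mul_zero, zero_mul, sub_zero]
  exfalso
  have hN0 : ∀ C ∈ ggM h, C.1 = 0 → C.2 k = 0 := by
    intro C hC h1
    by_contra h2
    exact hN ⟨C.2 k, ⟨C, hC, h1, rfl⟩, h2⟩
  -- a transversal
  obtain ⟨⟨F, hFn, hFo⟩, -⟩ := h5 q T m D Γ
  have htr := fun (C : CM' T B G) (hC : C ∈ ggM h) (x : Ch m) => tr_of hPj D hm S E h hh hC x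
  have hpr : ∀ C ∈ ggM h, ∀ (x : Ch m), ∀ a ∈ WT D x, C.1.1 x.1 a ∈ WT D x := by
    intro C hC x a ha
    obtain ⟨A', -, hA'⟩ := htr C hC x
    rw [hA' ⟨a, ha⟩]
    exact (A' ⟨a, ha⟩).2
  -- a nonzero element of `Sp (f k)`
  have hY0 : ∃ Y ∈ Sp (f k), Y ≠ 0 := by
    refine ⟨pre (mulI (G k)), (hT.fs k).skew _ (j5 (E k) (hT.rf k)), fun h0 => ?_⟩
    have h1 : 0 < finrank ℂ (Frm (G k)) := by
      have := hT.two k
      omega
    have : Nontrivial (Frm (G k)) := Module.nontrivial_of_finrank_pos h1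
    rw [h0, mul_zero] at j2
    have h2 : (1 : Module.End ℂ (Frm (G k))) = 0 := by
      rw [← neg_eq_zero]
      exact j2.symm
    exact one_ne_zero h2
  obtain ⟨Y₀, hY₀, hY₀0⟩ := hY0
  -- some `x` with nonzero image
  have hx : ∃ x ∈ F, ∃ C ∈ MM D h F x, C.2 k ≠ 0 := by
    by_contra hcon
    push Not at hcon
    obtain ⟨C, hC, hC2, hCY⟩ := hm1 Y₀ hY₀
    have hex : ∀ x : Ch m, ∃ N ∈ ggM h, N.1.2 = 0 ∧ N.2 k = 0 ∧ (x ∈ F →
        (∀ a ∈ WT D x, N.1.1 x.1 a = C.1.1 x.1 a) ∧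
          ∀ z ∈ F, z ≠ x → ∀ a ∈ WT D z, N.1.1 z.1 a = 0) := by
      intro x
      by_cases hx : x ∈ F
      · obtain ⟨A', hA'0, hA'⟩ := htr C hC x
        obtain ⟨C', hC', hCA⟩ := hits' hPj D Γ S E h hh hCΓ hH hFn hx A' hA'0
        refine ⟨C', hC'.1, hC'.2.1, hcon x hx C' hC', fun _ => ⟨fun a ha => ?_, hC'.2.2⟩⟩
        rw [hA' ⟨a, ha⟩]
        exact hCA ⟨a, ha⟩
      · exact ⟨0, Submodule.zero_mem _, rfl, rfl, fun h => absurd h hx⟩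
    choose N' n1 n2 n3 n4 using hex
    set Sg : CM' T B G := ∑ x ∈ Finset.univ.filter (fun x => x ∈ F), N' x with hSg
    have s1 : Sg ∈ ggM h := Submodule.sum_mem _ fun x _ => n1 x
    have s2 : Sg.1.2 = 0 := by
      rw [hSg, Prod.fst_sum, Prod.snd_sum]
      exact Finset.sum_eq_zero fun x _ => n2 x
    have s3 : Sg.2 k = 0 := by
      rw [hSg, Prod.snd_sum, Finset.sum_apply]
      exact Finset.sum_eq_zero fun x _ => n3 x
    have s4 : ∀ z ∈ F, ∀ a ∈ WT D z, Sg.1.1 z.1 a = C.1.1 z.1 a := by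
      intro y hy a ha
      rw [hSg, Prod.fst_sum, Prod.fst_sum, Finset.sum_apply, LinearMap.sum_apply,
        Finset.sum_eq_single y]
      · exact (n4 y hy).1 a ha
      · intro z hz hzy
        rw [Finset.mem_filter] at hz
        exact (n4 z hz.2).2 y hy (Ne.symm hzy) a ha
      · intro h5
        exact absurd (Finset.mem_filter.2 ⟨Finset.mem_univ _, hy⟩) h5
    have h6 : (C - Sg).1 = 0 := by
      refine van' h4 h6 hPj D hm Γ S E h hh hCΓ hFo (sub_mem hC s1) ?_ fun z hz a ha => ?_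
      · rw [Prod.fst_sub, Prod.snd_sub, hC2, s2, sub_zero]
      · rw [Prod.fst_sub, Prod.fst_sub, Pi.sub_apply, LinearMap.sub_apply, s4 z hz a ha, sub_self]
    have h7 := hN0 _ (sub_mem hC s1) h6
    rw [Prod.snd_sub, Pi.sub_apply, s3, sub_zero, hCY] at h7
    exact hY₀0 h7
  obtain ⟨x, hxF, C₀, hC₀, hC₀0⟩ := hx
  -- commutators with elements of `ggM h`
  have hbr : ∀ C' ∈ ggM h, ∀ C ∈ MM D h F x, C' * C - C * C' ∈ MM D h F x := by
    rintro C' hC' C ⟨m1, m2, m3⟩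
    refine ⟨c1 C' hC' C m1, ?_, fun z hz hzx a ha => ?_⟩
    · change C'.1.2 * C.1.2 - C.1.2 * C'.1.2 = 0
      rw [m2, mul_zero, zero_mul, sub_zero]
    · change C'.1.1 z.1 (C.1.1 z.1 a) - C.1.1 z.1 (C'.1.1 z.1 a) = 0
      rw [m3 z hz hzx a ha, m3 z hz hzx _ (hpr C' hC' z a ha), map_zero, sub_zero]
  -- the image of `MM` is everything
  have himg : ∀ Y ∈ Sp (f k), ∃ C ∈ MM D h F x, C.2 k = Y := by
    let I : Submodule ℂ (Module.End ℂ (Frm (G k))) :=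
      { carrier := {A | ∃ C ∈ MM D h F x, C.2 k = A}
        add_mem' := by
          rintro A A' ⟨C, hC, rfl⟩ ⟨C', hC', rfl⟩
          exact ⟨C + C', add_mem hC hC', rfl⟩
        zero_mem' := ⟨0, zero_mem _, rfl⟩
        smul_mem' := by
          rintro c A ⟨C, hC, rfl⟩
          exact ⟨c • C, Submodule.smul_mem _ c hC, rfl⟩ }
    refine fun A hA => hSi hBs hTs (Frm (G k)) (f k) hsf I ?_ ?_ ⟨C₀.2 k, ⟨C₀, hC₀, rfl⟩, hC₀0⟩ A hA
    · rintro n ⟨C, hC, rfl⟩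
      exact hSp C hC.1
    · rintro n ⟨C, hC, rfl⟩ X hX
      obtain ⟨C', hC', rfl⟩ := hit X hX
      exact ⟨C' * C - C * C', hbr C' hC' C hC, rfl⟩
  -- the relation
  let P : Submodule ℂ (Module.End ℂ (WT D x) × Module.End ℂ (Frm (G k))) :=
    { carrier := {y | ∃ C ∈ MM D h F x, (∀ a : WT D x,
        C.1.1 x.1 (a : Frm (T x.1)) = (y.1 a : Frm (T x.1))) ∧ C.2 k = y.2}
      add_mem' := by
        rintro y y' ⟨C, hC, h1, h2⟩ ⟨C', hC', h1', h2'⟩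
        refine ⟨C + C', add_mem hC hC', fun a => ?_, ?_⟩
        · rw [Prod.fst_add, Prod.fst_add, Pi.add_apply, LinearMap.add_apply, h1, h1']
          rfl
        · rw [Prod.snd_add, Pi.add_apply, h2, h2']
          rfl
      zero_mem' := ⟨0, zero_mem _, fun _ => rfl, rfl⟩
      smul_mem' := by
        rintro c y ⟨C, hC, h1, h2⟩
        refine ⟨c • C, Submodule.smul_mem _ c hC, fun a => ?_, ?_⟩
        · rw [Prod.smul_fst, Prod.smul_fst, Pi.smul_apply, LinearMap.smul_apply, h1]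
          rfl
        · rw [Prod.smul_snd, Pi.smul_apply, h2]
          rfl }
  have P1 : ∀ y ∈ P, LinearMap.trace ℂ (WT D x) y.1 = 0 ∧ y.2 ∈ Sp (f k) := by
    rintro y ⟨C, hC, h1, h2⟩
    obtain ⟨A', hA'0, hA'⟩ := htr C hC.1 x
    refine ⟨?_, h2 ▸ hSp C hC.1⟩
    have h5 : y.1 = A' := by
      refine LinearMap.ext fun a => Subtype.ext ?_
      rw [← h1 a, ← hA' a]
    rw [h5]
    exact hA'0
  have P2 : ∀ X : Module.End ℂ (WT D x), LinearMap.trace ℂ (WT D x) X = 0 → ∃ Y, (X, Y) ∈ P := by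
    intro X hX
    obtain ⟨C, hC, h1⟩ := hits' hPj D Γ S E h hh hCΓ hH hFn hxF X hX
    exact ⟨C.2 k, C, hC, h1, rfl⟩
  have P3 : ∀ Y ∈ Sp (f k), ∃ X, (X, Y) ∈ P := by
    intro Y hY
    obtain ⟨C, hC, h2⟩ := himg Y hY
    obtain ⟨A', -, hA'⟩ := htr C hC.1 x
    exact ⟨A', C, hC, hA', h2⟩
  have P4 : ∀ Y, ((0 : Module.End ℂ (WT D x)), Y) ∈ P → Y = 0 := by
    rintro Y ⟨C, ⟨m1, m2, m3⟩, h1, h2⟩
    rw [← show C.2 k = Y from h2]
    refine hN0 C m1 (van' h4 h6 hPj D hm Γ S E h hh hCΓ hFo m1 m2 fun z hz a ha => ?_)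
    by_cases hzx : z = x
    · subst hzx
      exact h1 ⟨a, ha⟩
    · exact m3 z hz hzx a ha
  have hfd : FiniteDimensional ℂ (WT D x) := inferInstance
  have P5 : ∀ X, (X, (0 : Module.End ℂ (Frm (G k)))) ∈ P → X = 0 := by
    let N' : Submodule ℂ (Module.End ℂ (WT D x)) :=
      { carrier := {X | (X, (0 : Module.End ℂ (Frm (G k)))) ∈ P}
        add_mem' := by
          intro X X' (h1 : (X, (0 : Module.End ℂ (Frm (G k)))) ∈ P)
            (h2 : (X', (0 : Module.End ℂ (Frm (G k)))) ∈ P)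
          have h3 := P.add_mem h1 h2
          rw [Prod.mk_add_mk, add_zero] at h3
          exact h3
        zero_mem' := P.zero_mem
        smul_mem' := by
          intro c X (h1 : (X, (0 : Module.End ℂ (Frm (G k)))) ∈ P)
          have h3 := P.smul_mem c h1
          rw [Prod.smul_mk, smul_zero] at h3
          exact h3 }
    intro X hX
    by_contra hX0
    have h1 := hSim (WT D x) N' (fun y hy => (P1 _ hy).1) ?_ ⟨X, hX, hX0⟩
    · obtain ⟨X₁, hX₁⟩ := P3 Y₀ hY₀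
      have h2 : (X₁, (0 : Module.End ℂ (Frm (G k)))) ∈ P := h1 X₁ (P1 _ hX₁).1
      obtain ⟨C, hC, e1, e2⟩ := hX₁
      obtain ⟨C', hC', e1', e2'⟩ := h2
      refine hY₀0 (P4 Y₀ ⟨C - C', sub_mem hC hC', fun a => ?_, ?_⟩)
      · rw [Prod.fst_sub, Prod.fst_sub, Pi.sub_apply, LinearMap.sub_apply, e1, e1', sub_self]
        rfl
      · rw [Prod.snd_sub, Pi.sub_apply, e2, e2']
        exact sub_zero Y₀
    · rintro y ⟨C, hC, a1, a2⟩ A hA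
      obtain ⟨C', hC', hCA⟩ := hits' hPj D Γ S E h hh hCΓ hH hFn hxF A hA
      refine ⟨C' * C - C * C', hbr C' hC'.1 C hC, fun a => ?_, ?_⟩
      · change C'.1.1 x.1 (C.1.1 x.1 a) - C.1.1 x.1 (C'.1.1 x.1 a) = _
        rw [a1, hCA, hCA, a1]
        rfl
      · change C'.2 k * C.2 k - C.2 k * C'.2 k = 0
        rw [show C.2 k = 0 from a2, mul_zero, zero_mul, sub_zero]
  refine hNo hDi hJS hDim hAd (T x.1) (m x.1) (r x.1) (D x.1) (hm x.1) (hd x.1) x.2 (G k) (E k)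
    (f k) (hT.rf k) (hT.fs k) (hT.two k) P P1 P2 P3 P4 P5 ?_
  rintro y ⟨C, ⟨m1, m2, m3⟩, a1, a2⟩ X' hX'
  have hJW : ∀ (z : Ch m), ∀ a ∈ WT D z, pre (mulI (T z.1)) a ∈ WT D z := by
    intro z a ha v
    change a (Complex.I • (D z.1).Z v) = zet (m z.1) z.2 * a (Complex.I • v)
    rw [← map_smul]
    exact ha _
  refine ⟨preM (((JT T, mulI B), JT G) : TM T B G) * C -
    C * preM (((JT T, mulI B), JT G) : TM T B G), ⟨c3 C m1, ?_, fun z hz hzx a ha => ?_⟩,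
    fun a => ?_, ?_⟩
  · change pre (mulI B) * C.1.2 - C.1.2 * pre (mulI B) = 0
    rw [m2, mul_zero, zero_mul, sub_zero]
  · change pre (mulI (T z.1)) (C.1.1 z.1 a) - C.1.1 z.1 (pre (mulI (T z.1)) a) = 0
    rw [m3 z hz hzx a ha, m3 z hz hzx _ (hJW z a ha), map_zero, sub_zero]
  · change pre (mulI (T x.1)) (C.1.1 x.1 a) - C.1.1 x.1 (pre (mulI (T x.1)) a) = _
    have e1 := a1 ⟨_, hJW x a a.2⟩
    rw [a1 a, e1]
    exact (hX' a ⟨_, hJW x a a.2⟩ rfl).symm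
  · change pre (mulI (G k)) * C.2 k - C.2 k * pre (mulI (G k)) = _
    rw [show C.2 k = y.2 from a2]


end n14_aux

open n14_aux in
theorem tn14 : S_n2 → S_n4 → S_n5 → S_n6 → S_n14 := by
  intro h2 h4 h5 h6 q q' T m r D Γ B G E f hT hm hd hH ι S h hh Y hY
  have hPaS : PaS := tPaA tBs tTs tSiS tPcS tExS tThA tThB tGrS tClX tJS tOnS tPjP tLkS tIgS
    HC.E.tIsoInv
  have hG : ∀ (q : ℕ) (G : Fin q → AV) (E : ∀ k, (G k).V →ₗ[ℝ] (G k).V →ₗ[ℝ] ℝ)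
      (f : ∀ k, Frm (G k) →ₗ[ℂ] Frm (G k) →ₗ[ℂ] ℂ), TuD G E f → ∀ h, HLieG E h → HiG f h :=
    tTuS tBs tTs tPcS tRbS tClX tJS tOnS tPrG hPaS
  have hh' : HLieM D S E {X | X ∈ h ∧ CT Γ X.1.1} := h2.2.2.2 q q' T m D Γ B ι S G E h hh
  have h1 := hG q' G E f hT _ (tPjM q q' T m D B ι S G E _ hh').2.1
  have h3 := tM2' h4 h5 h6 tBs tTs tSiS tClX tJS tPjM tNoI tDiS dim_all
    (SEB.tAdJ (SEB.tBas SEB.tPj)) tSim tM1 tNaS tCmt q q' T m r D Γ B ι S G E f _ hT hm hd hH hh'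
    (fun X hX => hX.2) h1
  have h7 := tM4 q q' T B G E f _ hT.fs
    (tM3 tBs tTs tPcS tClX tPjM q q' T m D B ι S G E f _ hT hh' h1 h3) Y hY
  refine Submodule.span_mono ?_ h7
  rintro Z ⟨Y₁, hY₁, Y₂, hY₂, rfl⟩
  exact ⟨Y₁, hY₁.1, Y₂, hY₂.1, rfl⟩

end SEN
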