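import Pool.Agent.Lib.SE.N.Spec
import Pool.Agent.Lib.SE.Big.RatSp
import Pool.Agent.Lib.HC.L.B

/-!
# PROJECT SE-N, module n16: rational components of a class
-/

set_option autoImplicit false

open Module

noncomputable section

namespace SEN

open HC HC.E HC.SE SEB SEQ SER SES SEG SE

namespace n16_aux

variable {T : AV} {d : ℕ} {ι : Type} [Fintype ι]

/-- Evaluation at a vector. -/
def ev (v : T.V) : (T.V →ₗ[ℝ] ℂ) →ₗ[ℂ] ℂ where
  toFun a := a v
  map_add' _ _ := rfl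
  map_smul' _ _ := rfl

/-- The product of the coordinates. -/
def term (b : Module.Basis ι ℝ T.V) (s : Fin d → ι) :
    MultilinearMap ℂ (fun _ : Fin d => (T.V →ₗ[ℝ] ℂ)) ℂ :=
  (MultilinearMap.mkPiAlgebra ℂ (Fin d) ℂ).compLinearMap fun j => ev (b (s j))

omit [Fintype ι] in
theorem term_apply (b : Module.Basis ι ℝ T.V) (s : Fin d → ι) (a : Fin d → (T.V →ₗ[ℝ] ℂ)) :
    term b s a = ∏ j, a j (b (s j)) := rfl

/-- The multilinear map with given values on the dual basis. -/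
def mm [DecidableEq ι] (b : Module.Basis ι ℝ T.V) (q : (Fin d → ι) → ℂ) :
    MultilinearMap ℂ (fun _ : Fin d => (T.V →ₗ[ℝ] ℂ)) ℂ :=
  ∑ s, q s • term b s

theorem mm_apply [DecidableEq ι] (b : Module.Basis ι ℝ T.V) (q : (Fin d → ι) → ℂ)
    (a : Fin d → (T.V →ₗ[ℝ] ℂ)) : mm b q a = ∑ s, q s * ∏ j, a j (b (s j)) := by
  rw [mm, sum_apply]
  rfl

theorem mm_alt [DecidableEq ι] (b : Module.Basis ι ℝ T.V) (q : (Fin d → ι) → ℂ)
    (h0 : ∀ s i j, i ≠ j → s i = s j → q s = 0)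
    (h1 : ∀ s i j, i ≠ j → q (s ∘ Equiv.swap i j) = - q s)
    (v : Fin d → (T.V →ₗ[ℝ] ℂ)) (i j : Fin d) (hv : v i = v j) (hij : i ≠ j) :
    mm b q v = 0 := by
  rw [mm_apply]
  refine Finset.sum_involution (fun s _ => s ∘ Equiv.swap i j) ?_ ?_ ?_ ?_
  · intro s _
    rw [h1 s i j hij]
    have h2 : ∏ k, v k (b ((s ∘ Equiv.swap i j) k)) = ∏ k, v k (b (s k)) := by
      rw [← Equiv.prod_comp (Equiv.swap i j)]
      refine Finset.prod_congr rfl fun k _ => ?_
      rw [Function.comp_apply, Equiv.swap_apply_self]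
      congr 1
      rcases eq_or_ne k i with rfl | hki
      · rw [Equiv.swap_apply_left, hv]
      · rcases eq_or_ne k j with rfl | hkj
        · rw [Equiv.swap_apply_right, hv]
        · rw [Equiv.swap_apply_of_ne_of_ne hki hkj]
    rw [h2]
    ring
  · intro s _ hs h
    apply hs
    have h3 : s i = s j := by
      have h4 := congrFun h j
      rw [Function.comp_apply, Equiv.swap_apply_right] at h4
      exact h4
    rw [h0 s i j hij h3, zero_mul]
  · intro s _
    exact Finset.mem_univ _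
  · intro s _
    funext k
    simp only [Function.comp_apply, Equiv.swap_apply_self]

/-- The alternating map with given values. -/
def am [DecidableEq ι] (b : Module.Basis ι ℝ T.V) (q : (Fin d → ι) → ℂ)
    (h0 : ∀ s i j, i ≠ j → s i = s j → q s = 0)
    (h1 : ∀ s i j, i ≠ j → q (s ∘ Equiv.swap i j) = - q s) : Hlg T d :=
  { mm b q with
    map_eq_zero_of_eq' := mm_alt b q h0 h1 }

theorem am_apply [DecidableEq ι] (b : Module.Basis ι ℝ T.V) (q : (Fin d → ι) → ℂ)
    (h0 : ∀ s i j, i ≠ j → s i = s j → q s = 0)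
    (h1 : ∀ s i j, i ≠ j → q (s ∘ Equiv.swap i j) = - q s) (a : Fin d → (T.V →ₗ[ℝ] ℂ)) :
    am b q h0 h1 a = ∑ s, q s * ∏ j, a j (b (s j)) := mm_apply b q a

theorem expand [DecidableEq ι] (b : Module.Basis ι ℝ T.V) (c : Hlg T d)
    (a : Fin d → (T.V →ₗ[ℝ] ℂ)) :
    c a = ∑ s : Fin d → ι, c (fun j => RatSp_aux.fb b (s j)) * ∏ j, a j (b (s j)) := by
  have h1 : a = fun j => ∑ i, a j (b i) • RatSp_aux.fb b i :=
    funext fun j => RatSp_aux.frm_eq b (a j)
  conv_lhs => rw [h1]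
  rw [← AlternatingMap.coe_multilinearMap, MultilinearMap.map_sum]
  refine Finset.sum_congr rfl fun s _ => ?_
  rw [c.toMultilinearMap.map_smul_univ (fun j => a j (b (s j)))
    (fun j => RatSp_aux.fb b (s j)), smul_eq_mul, mul_comm]

theorem am_sum {κ : Type} (s : Finset κ) (f : κ → Hlg T d) (a : Fin d → (T.V →ₗ[ℝ] ℂ)) :
    (∑ k ∈ s, f k) a = ∑ k ∈ s, f k a := by
  classical
  induction s using Finset.induction_on with
  | empty => rfl
  | insert k s hk ih => rw [Finset.sum_insert hk, Finset.sum_insert hk, AlternatingMap.add_apply, ih]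

theorem lieAct_sum {n : ℕ} (X : Module.End ℝ T.V) (x : Fin n → ℂ) (c : Fin n → Hlg T d)
    (a : Fin d → (T.V →ₗ[ℝ] ℂ)) :
    lieAct X (∑ k, x k • c k) a = ∑ k, x k * lieAct X (c k) a := by
  simp only [lieAct, Finset.mul_sum]
  rw [Finset.sum_comm]
  refine Finset.sum_congr rfl fun i _ => ?_
  rw [am_sum]
  rfl

end n16_aux

open n16_aux in
theorem tn16 : S_n16 := by
  classical
  intro T d c
  obtain ⟨ι, _, b, hb1, hb2⟩ := RatSp_aux.lat_basis T
  let β : (Fin d → ι) → (Fin d → (T.V →ₗ[ℝ] ℂ)) := fun s j => RatSp_aux.fb b (s j)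
  let S : Submodule ℚ ℂ := Submodule.span ℚ (Set.range fun s : Fin d → ι => c (β s))
  have hS : Module.Finite ℚ S := Module.Finite.span_of_finite ℚ (Set.finite_range _)
  let ρ : Module.Basis (Fin (Module.finrank ℚ S)) ℚ S := Module.finBasis ℚ S
  have hmem : ∀ s, c (β s) ∈ S := fun s => Submodule.subset_span ⟨s, rfl⟩
  let q : Fin (Module.finrank ℚ S) → (Fin d → ι) → ℚ := fun k s => ρ.repr ⟨_, hmem s⟩ k
  have hq : ∀ s, c (β s) = ∑ k, (ρ k : ℂ) * (q k s : ℂ) := by
    intro s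
    have h := congrArg (fun x : S => (x : ℂ)) (ρ.sum_repr ⟨_, hmem s⟩)
    simp only [AddSubmonoidClass.coe_finsetSum, Submodule.coe_smul] at h
    rw [← h]
    refine Finset.sum_congr rfl fun k _ => ?_
    rw [Rat.smul_def, mul_comm]
  have h0 : ∀ k s i j, i ≠ j → s i = s j → ((q k s : ℚ) : ℂ) = 0 := by
    intro k s i j hij hs
    have h1 : c (β s) = 0 := c.map_eq_zero_of_eq (β s) (by
      show RatSp_aux.fb b (s i) = RatSp_aux.fb b (s j)
      rw [hs]) hij
    have h2 : (⟨c (β s), hmem s⟩ : S) = 0 := Subtype.ext h1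
    show ((ρ.repr ⟨_, hmem s⟩ k : ℚ) : ℂ) = 0
    rw [h2, map_zero, Finsupp.zero_apply, Rat.cast_zero]
  have h1 : ∀ k s i j, i ≠ j → ((q k (s ∘ Equiv.swap i j) : ℚ) : ℂ) = - (q k s : ℂ) := by
    intro k s i j hij
    have h2 : c (β (s ∘ Equiv.swap i j)) = - c (β s) := c.map_swap (β s) hij
    have h3 : (⟨c (β (s ∘ Equiv.swap i j)), hmem _⟩ : S) = -⟨c (β s), hmem s⟩ := Subtype.ext h2
    show ((ρ.repr ⟨_, hmem _⟩ k : ℚ) : ℂ) = -((ρ.repr ⟨_, hmem s⟩ k : ℚ) : ℂ)
    rw [h3, map_neg, Finsupp.neg_apply, Rat.cast_neg]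
  let c' : Fin (Module.finrank ℚ S) → Hlg T d := fun k =>
    am b (fun s => (q k s : ℂ)) (h0 k) (h1 k)
  have hc' : ∀ k a, c' k a = ∑ s, (q k s : ℂ) * ∏ j, a j (b (s j)) := fun k a =>
    am_apply b _ _ _ a
  have hsum : c = ∑ k, (ρ k : ℂ) • c' k := by
    refine AlternatingMap.ext fun a => ?_
    rw [expand b c a, am_sum]
    simp only [AlternatingMap.smul_apply, smul_eq_mul, hc', Finset.mul_sum]
    rw [Finset.sum_comm]
    refine Finset.sum_congr rfl fun s _ => ?_
    rw [show c (fun j => RatSp_aux.fb b (s j)) = _ from hq s, Finset.sum_mul]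
    refine Finset.sum_congr rfl fun k _ => ?_
    ring
  have hrat : ∀ k, RatC T d (c' k) := by
    intro k a ha
    have h2 : ∀ (s : Fin d → ι) (j : Fin d), ∃ x : ℚ, a j (b (s j)) = x := fun s j =>
      ha j _ (hb1 _)
    choose x hx using h2
    refine ⟨∑ s, q k s * ∏ j, x s j, ?_⟩
    rw [hc']
    push_cast
    refine Finset.sum_congr rfl fun s _ => ?_
    congr 1
    exact Finset.prod_congr rfl fun j _ => hx s j
  refine ⟨Module.finrank ℚ S, fun k => (ρ k : ℂ), c', hsum, hrat, fun X hX hXc k a => ?_⟩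
  rw [← lieM_apply]
  refine eq_zero_of_rat (fun a ha => ?_) a
  rw [lieM_apply]
  have h2 : ∀ k, ∃ x : ℚ, lieAct X (c' k) a = x := fun k => lieAct_rat hX (hrat k) a ha
  choose x hx using h2
  have h3 : ∑ t, x t • ρ t = 0 := by
    apply Subtype.ext
    rw [AddSubmonoidClass.coe_finsetSum, Submodule.coe_zero]
    have h4 := hXc a
    rw [hsum, lieAct_sum] at h4
    rw [← h4]
    refine Finset.sum_congr rfl fun t _ => ?_
    rw [Submodule.coe_smul, Rat.smul_def, hx t, mul_comm]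
  have h5 := (Fintype.linearIndependent_iff.1 ρ.linearIndependent) x h3 k
  rw [hx k, h5, Rat.cast_zero]

end SEN
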