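import Pool.Agent.Lib.SE.N.Spec
import Pool.Agent.Lib.SE.R.Hr
import Pool.Agent.Lib.SE.Q.Cutg

/-!
# PROJECT SE-N, module n17: `su` is defined over the rational numbers (helper53)
-/

set_option autoImplicit false

open Module

noncomputable section

namespace SEN

open HC HC.E HC.SE SEB SEQ SER SES SEG SE

namespace n17_aux

/-- Real numbers independent over the rational numbers. -/
theorem num {n : ℕ} (c : Fin n → ℝ) (hc : LinearIndependent ℚ c) (q : Fin n → ℝ)
    (hq : ∀ s, ∃ r : ℚ, q s = r) (h : ∑ s, c s * q s = 0) : ∀ s, q s = 0 := by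
  choose r hr using hq
  have h1 : ∑ s, r s • c s = 0 := by
    rw [← h]
    refine Finset.sum_congr rfl fun s _ => ?_
    rw [Rat.smul_def, hr, mul_comm]
  intro s
  have h2 := Fintype.linearIndependent_iff.1 hc r h1 s
  rw [hr, h2, Rat.cast_zero]

variable {T : AV} {m : ℕ}

theorem rat_add {X Y : Module.End ℝ T.V} (hX : RatEnd T X) (hY : RatEnd T Y) :
    RatEnd T (X + Y) := by
  intro v hv
  obtain ⟨N, hN, h1⟩ := hX v hv
  obtain ⟨M, hM, h2⟩ := hY v hv
  refine ⟨M * N, Nat.mul_ne_zero hM hN, ?_⟩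
  have h3 : (M * N) • (X + Y) v = M • (N • X v) + N • (M • Y v) := by
    rw [LinearMap.add_apply, smul_add, mul_smul, mul_comm M N, mul_smul]
  rw [h3]
  exact T.L.add_mem (T.L.smul_of_tower_mem M h1) (T.L.smul_of_tower_mem N h2)

theorem rat_smul {X : Module.End ℝ T.V} (hX : RatEnd T X) (t : ℚ) :
    RatEnd T ((t : ℝ) • X) := by
  intro v hv
  obtain ⟨N, hN, h1⟩ := hX v hv
  refine ⟨t.den * N, Nat.mul_ne_zero t.den_nz hN, ?_⟩
  have h3 : (t.den * N) • ((t : ℝ) • X) v = t.num • (N • X v) := by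
    have h4 : (t.den : ℝ) * (t : ℝ) = (t.num : ℝ) := by
      have h5 := Rat.den_mul_eq_num t
      exact_mod_cast congrArg (fun x : ℚ => (x : ℝ)) h5
    rw [LinearMap.smul_apply, mul_comm t.den N, mul_smul, ← Nat.cast_smul_eq_nsmul ℝ t.den,
      smul_smul, h4, Int.cast_smul_eq_zsmul, smul_comm]
  rw [h3]
  exact T.L.smul_of_tower_mem t.num h1

end n17_aux

open n17_aux in
theorem tn17 : S_n0 → S_n1 → S_n17 := by
  classical
  intro h0 h1 T m D X hX
  obtain ⟨n, c, Y, hc, hY, hXY⟩ := h0 (Module.End ℝ T.V) {Y | RatEnd T Y}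
    (fun v _ => ⟨1, one_ne_zero, by simp⟩) (fun x hx y hy => rat_add hx hy)
    (fun t x hx => rat_smul hx t) X (HC.L.span_ratEnd T X)
  have hY' : ∀ k, RatEnd T (Y k) := hY
  obtain ⟨ι, _, b, hb1, hb2⟩ := exists_lat_basis' T
  have happ : ∀ v, X v = ∑ k, c k • Y k v := by
    intro v
    rw [hXY, LinearMap.sum_apply]
    rfl
  rw [hXY]
  refine Submodule.sum_mem _ fun k _ => Submodule.smul_mem _ _
    (Submodule.subset_span ⟨hY' k, ⟨?_, ?_⟩, ?_⟩)
  · -- commutation
    have h2 : ∀ k, Y k ∘ₗ D.ZR - D.ZR ∘ₗ Y k = 0 := by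
      refine h1 T T n c hc (fun k => Y k ∘ₗ D.ZR - D.ZR ∘ₗ Y k) ?_ ?_
      · intro k v hv
        have hZ : RatEnd T D.ZR := fun v hv => ⟨1, one_ne_zero, by
          rw [one_smul]; exact D.lat v hv⟩
        exact Hr_aux.rat_sub (Hr_aux.rat_mul (hY' k) hZ) (Hr_aux.rat_mul hZ (hY' k)) v hv
      · refine LinearMap.ext fun v => ?_
        rw [LinearMap.sum_apply]
        have h3 : ∀ k, (c k • (Y k ∘ₗ D.ZR - D.ZR ∘ₗ Y k)) v =
            c k • Y k (D.ZR v) - D.ZR (c k • Y k v) := by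
          intro k
          rw [LinearMap.smul_apply, LinearMap.sub_apply, smul_sub, map_smul]
          rfl
        simp only [h3]
        rw [Finset.sum_sub_distrib, ← map_sum, ← happ, ← happ, LinearMap.zero_apply]
        exact sub_eq_zero.2 (hX.1.1 v)
    intro v
    exact sub_eq_zero.1 (LinearMap.congr_fun (h2 k) v)
  · -- skewness
    have hbb : ∀ i j, D.ψ (Y k (b i)) (b j) + D.ψ (b i) (Y k (b j)) = 0 := by
      intro i j
      refine num c hc (fun k => D.ψ (Y k (b i)) (b j) + D.ψ (b i) (Y k (b j))) ?_ ?_ k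
      · intro k
        obtain ⟨N, hN, hNL⟩ := hY' k (b i) (hb1 i)
        obtain ⟨q, hq⟩ := Hl_aux.psi_rat D _ (b j) N hN hNL (hb1 j)
        obtain ⟨N', hN', hNL'⟩ := hY' k (b j) (hb1 j)
        obtain ⟨q', hq'⟩ := Hl_aux.psi_rat' D _ (b i) N' hN' hNL' (hb1 i)
        exact ⟨q + q', by rw [hq, hq', Rat.cast_add]⟩
      · have h4 : D.ψ (X (b i)) (b j) = ∑ k, c k * D.ψ (Y k (b i)) (b j) := by
          rw [happ, map_sum, LinearMap.sum_apply]
          refine Finset.sum_congr rfl fun s _ => ?_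
          rw [map_smul, LinearMap.smul_apply, smul_eq_mul]
        have h5 : D.ψ (b i) (X (b j)) = ∑ k, c k * D.ψ (b i) (Y k (b j)) := by
          rw [happ, map_sum]
          refine Finset.sum_congr rfl fun s _ => ?_
          rw [map_smul, smul_eq_mul]
        simp only [mul_add]
        rw [Finset.sum_add_distrib, ← h4, ← h5]
        exact hX.1.2 _ _
    have h2 : ∀ i v, D.ψ (Y k (b i)) v + D.ψ (b i) (Y k v) = 0 := by
      intro i v
      have h : D.ψ (Y k (b i)) + (D.ψ (b i)) ∘ₗ (Y k) = 0 := by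
        refine b.ext fun l => ?_
        exact hbb i l
      exact LinearMap.congr_fun h v
    intro u v
    have h : (D.ψ.flip v) ∘ₗ (Y k) + D.ψ.flip (Y k v) = 0 := by
      refine b.ext fun i => ?_
      exact h2 i v
    exact LinearMap.congr_fun h u
  · -- traces
    intro j
    refine num c hc (fun k => LinearMap.trace ℝ T.V (Y k * D.ZR ^ j)) ?_ ?_ k
    · intro k
      exact Cutg_aux.trace_rat _ (Cutg_aux.rat_mul D j _ (hY' k))
    · have h3 := hX.2 j
      rw [hXY, Finset.sum_mul, map_sum] at h3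
      rw [← h3]
      refine Finset.sum_congr rfl fun s _ => ?_
      rw [smul_mul_assoc, map_smul, smul_eq_mul]

end SEN
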