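import Pool.Agent.Lib.SE.N.Spec
import Pool.Agent.Lib.SE.W.Lie
import Pool.Agent.Lib.HC.L.B
import Pool.Agent.Lib.HC.L.La
import Pool.Agent.Lib.HC.L.Lc1
import Pool.Agent.Lib.HC.L.E.IsoInv

/-!
# PROJECT SE-N, n18: the Hodge Lie algebra of a product (helper1)
-/

set_option autoImplicit false

noncomputable section

namespace SEN

open HC HC.E HC.SE SEB SEQ SER SES SEG SE

namespace n18_aux

/-- The inverse isogeny. -/
theorem inv_iso {A T : AV} {q N : ℕ} {P : Fin q → AV} {j : Fin N → Fin q}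
    (ψ : T.V ≃ₗ[ℂ] A.V × (∀ n, (P (j n)).V))
    (hψ : ∀ v ∈ T.L, ∃ k : ℕ, k ≠ 0 ∧ k • (ψ v).1 ∈ A.L ∧ ∀ n, k • (ψ v).2 n ∈ (P (j n)).L) :
    ∀ w : A.V × (∀ n, (P (j n)).V), w.1 ∈ A.L → (∀ n, w.2 n ∈ (P (j n)).L) →
      ∃ k : ℕ, k ≠ 0 ∧ k • ψ.symm w ∈ T.L := by
  obtain ⟨Y, θ, hθ⟩ := Lie_aux.prodE N A (fun n => P (j n))
  have h1 := HC.E.tIsoInv T Y (ψ ≪≫ₗ θ.symm) (fun v hv => by
    obtain ⟨k, hk, h2, h3⟩ := hψ v hv
    refine ⟨k, hk, ?_⟩
    rw [hθ]
    show (θ (k • θ.symm (ψ v))).1 ∈ A.L ∧ ∀ n, (θ (k • θ.symm (ψ v))).2 n ∈ (P (j n)).L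
    rw [map_nsmul, LinearEquiv.apply_symm_apply]
    exact ⟨h2, h3⟩)
  intro w h2 h3
  obtain ⟨k, hk, h4⟩ := h1 (θ.symm w) (by
    rw [hθ, LinearEquiv.apply_symm_apply]
    exact ⟨h2, h3⟩)
  refine ⟨k, hk, ?_⟩
  have h5 : (ψ ≪≫ₗ θ.symm).symm (θ.symm w) = ψ.symm w := by
    show ψ.symm (θ (θ.symm w)) = ψ.symm w
    rw [LinearEquiv.apply_symm_apply]
  rw [h5] at h4
  exact h4

/-- The coefficients commute with the complex linear rational maps. -/
theorem comm_of (h1 : S_n1) {T : AV} {n : ℕ} {x : Fin n → ℝ} {Y : Fin n → Module.End ℝ T.V}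
    (hx : LinearIndependent ℚ x) (hY : ∀ k, RatEnd T (Y k)) (hI : mulI T = ∑ k, x k • Y k)
    (Θ : T.V →ₗ[ℂ] T.V) (hΘ : RatEnd T (Θ.restrictScalars ℝ)) (k : Fin n) (v : T.V) :
    Y k (Θ v) = Θ (Y k v) := by
  have h2 := h1 T T n x hx (fun k => Y k * Θ.restrictScalars ℝ - Θ.restrictScalars ℝ * Y k)
    (fun k => (hY k).comm hΘ) (by
      have h3 : ∑ k, x k • (Y k * Θ.restrictScalars ℝ - Θ.restrictScalars ℝ * Y k) =
          (∑ k, x k • Y k) * Θ.restrictScalars ℝ - Θ.restrictScalars ℝ * ∑ k, x k • Y k := by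
        rw [Finset.sum_mul, Finset.mul_sum, ← Finset.sum_sub_distrib]
        refine Finset.sum_congr rfl fun k _ => ?_
        rw [smul_sub, smul_mul_assoc, mul_smul_comm]
      refine h3.trans ?_
      rw [← hI]
      refine LinearMap.ext fun w => ?_
      show Complex.I • Θ w - Θ (Complex.I • w) = 0
      rw [map_smul, sub_self]) k
  have h4 := LinearMap.congr_fun h2 v
  exact sub_eq_zero.1 h4

end n18_aux

open n18_aux in
theorem tn18 : S_n0 → S_n1 → S_n18 := by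
  intro h0 h1 A T q N P m D Γ j ψ hψ d c hc
  classical
  have hi := inv_iso ψ hψ
  let H : Set (Module.End ℝ A.V × Tup P) := {p | RatEnd A p.1 ∧ ∀ i, RatEnd (P i) (p.2 i)}
  have hsp : ((mulI A, JT P) : Module.End ℝ A.V × Tup P) ∈ Submodule.span ℝ H := by
    have e1 : ((mulI A, JT P) : Module.End ℝ A.V × Tup P) =
        LinearMap.inl ℝ (Module.End ℝ A.V) (Tup P) (mulI A) +
          LinearMap.inr ℝ (Module.End ℝ A.V) (Tup P) (JT P) := by
      refine Prod.ext ?_ ?_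
      · show mulI A = mulI A + 0
        rw [add_zero]
      · show JT P = 0 + JT P
        rw [zero_add]
    have e2 : Submodule.span ℝ {X | RatEnd A X} ≤
        (Submodule.span ℝ H).comap (LinearMap.inl ℝ (Module.End ℝ A.V) (Tup P)) :=
      Submodule.span_le.2 fun X hX => Submodule.subset_span ⟨hX, fun i => Lie_aux.rat_zero⟩
    have e3 : ∀ i, Submodule.span ℝ {X | RatEnd (P i) X} ≤
        ((Submodule.span ℝ H).comap (LinearMap.inr ℝ (Module.End ℝ A.V) (Tup P))).comap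
          (LinearMap.single ℝ (fun i => Module.End ℝ (P i).V) i) := by
      intro i
      refine Submodule.span_le.2 fun X hX => Submodule.subset_span ⟨Lie_aux.rat_zero, fun i' => ?_⟩
      show RatEnd (P i') ((Pi.single i X : Tup P) i')
      by_cases h : i' = i
      · subst h
        rw [Pi.single_eq_same]
        exact hX
      · rw [Pi.single_eq_of_ne h]
        exact Lie_aux.rat_zero
    rw [e1]
    refine Submodule.add_mem _ (e2 (HC.L.tLc1 A)) ?_
    have e4 : JT P ∈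
        (Submodule.span ℝ H).comap (LinearMap.inr ℝ (Module.End ℝ A.V) (Tup P)) := by
      rw [← Finset.univ_sum_single (JT P)]
      exact Submodule.sum_mem _ fun i _ => e3 i (HC.L.tLc1 (P i))
    exact e4
  obtain ⟨n, x, y, hx, hy, hxy⟩ := h0 (Module.End ℝ A.V × Tup P) H
    ⟨Lie_aux.rat_zero, fun i => Lie_aux.rat_zero⟩
    (fun p hp p' hp' => ⟨Lie_aux.rat_add hp.1 hp'.1, fun i => Lie_aux.rat_add (hp.2 i) (hp'.2 i)⟩)
    (fun t p hp => ⟨Lie_aux.rat_qsmul hp.1 t, fun i => Lie_aux.rat_qsmul (hp.2 i) t⟩)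
    (mulI A, JT P) hsp
  have hcomp : ∀ i, mulI (P i) = ∑ k, x k • (y k).2 i := by
    intro i
    have h2 := congrArg (fun p : Module.End ℝ A.V × Tup P => p.2 i) hxy
    refine Eq.trans h2 ?_
    show (∑ k, x k • y k).2 i = _
    rw [Prod.snd_sum, Finset.sum_apply]
    rfl
  refine ⟨n, x, fun k => (y k).1, fun k => (y k).2, hy, fun k i => ⟨?_, ?_⟩, hxy, ?_⟩
  · intro g hg v
    exact comm_of h1 hx (fun k => (hy k).2 i) (hcomp i) (((Γ i).Θ g : (P i).V →ₗ[ℂ] (P i).V))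
      ((Γ i).rat g hg) k v
  · intro v
    exact comm_of h1 hx (fun k => (hy k).2 i) (hcomp i) (D i).Z
      (fun v hv => ⟨1, one_ne_zero, by rw [one_smul]; exact (D i).lat v hv⟩) k v
  · intro k a
    rw [← lieM_apply]
    refine eq_zero_of_rat (fun a ha => ?_) a
    rw [lieM_apply]
    have h2 : ∀ t, ∃ z : ℚ, lieAct (Lie_aux.EE ψ (y t).1 (y t).2) c a = z := fun t =>
      lieAct_rat (Lie_aux.rat_EE ψ hψ hi (hy t).1 (hy t).2) hc.1 a ha
    choose z hz using h2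
    have h3 := HC.L.pLa T d c hc a
    have h4 : mulI T = ∑ t, x t • Lie_aux.EE ψ (y t).1 (y t).2 := by
      rw [← Lie_aux.EE_mulI ψ]
      have h5 := congrArg (Lie_aux.EL ψ) hxy
      rw [map_sum] at h5
      refine Eq.trans h5 (Finset.sum_congr rfl fun t _ => ?_)
      exact map_smul (Lie_aux.EL ψ) (x t) (y t)
    rw [h4, ← lieX_apply, map_sum] at h3
    have h6 : ∑ t, z t • x t = 0 := by
      apply Complex.ofReal_injective
      rw [Complex.ofReal_zero, ← h3, Complex.ofReal_sum]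
      refine Finset.sum_congr rfl fun t _ => ?_
      rw [lieX_apply, HC.lieAct_smul, hz t, Rat.smul_def]
      push_cast
      ring
    rw [hz k, (Fintype.linearIndependent_iff.1 hx) z h6 k, Rat.cast_zero]

end SEN
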