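import Pool.Agent.Lib.SE.N.Spec
import Pool.Agent.Lib.SE.Big.Pj
import Pool.Agent.Lib.SE.Big.Bas

/-!
# PROJECT SE-N, module n19: the projectors
-/

set_option autoImplicit false

open Module

noncomputable section

namespace SEN

open HC HC.E HC.SE SEB SEQ SER SES SEG SE

namespace n19_aux

variable {T : AV} {m : ℕ}

lemma zet_pow_one (hm : m ≠ 0) (t : (ZMod m)ˣ) : zet m t ^ m = 1 := by
  unfold zet
  rw [← pow_mul, Nat.mul_comm, pow_mul, (Complex.isPrimitiveRoot_exp m hm).pow_eq_one, one_pow]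

lemma zet_inj (hm : m ≠ 0) (s t : (ZMod m)ˣ) (h : zet m s = zet m t) : s = t := by
  haveI : NeZero m := ⟨hm⟩
  have h1 := (Complex.isPrimitiveRoot_exp m hm).pow_inj (ZMod.val_lt (s : ZMod m))
    (ZMod.val_lt (t : ZMod m)) h
  exact Units.ext (ZMod.val_injective m h1)

lemma zet_ne (hm : m ≠ 0) (t : (ZMod m)ˣ) : zet m t ≠ 0 := by
  intro h
  have h1 := zet_pow_one hm t
  rw [h, zero_pow hm] at h1
  exact zero_ne_one h1

/-- The real coefficient. -/
def cf (m : ℕ) (Y : Set (ZMod m)ˣ) (k : ℕ) : ℝ := (1 / m : ℝ) * ∑ᶠ s ∈ Y, (zet m s ^ k).re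

lemma ep_eq (D : Cyc T m) (Y : Set (ZMod m)ˣ) :
    ep D Y = ∑ k ∈ Finset.range m, cf m Y k • D.ZR ^ (m - k) := rfl

lemma conj_zet (hm : 3 ≤ m) (s : (ZMod m)ˣ) (k : ℕ) :
    (starRingEnd ℂ) (zet m s ^ k) = zet m (-s) ^ k := by
  rw [map_pow, Bas_aux.zet_conj hm]

lemma conj_mul (hm : 3 ≤ m) (s : (ZMod m)ˣ) : (starRingEnd ℂ) (zet m s) * zet m s = 1 := by
  have hm0 : m ≠ 0 := by omega
  rw [mul_comm, Complex.mul_conj, Complex.normSq_eq_norm_sq, zet, norm_pow,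
    IsPrimitiveRoot.norm'_eq_one (Complex.isPrimitiveRoot_exp m hm0) hm0]
  simp

lemma sumY (hm : 3 ≤ m) (Y : Set (ZMod m)ˣ) (hY : ∀ s ∈ Y, -s ∈ Y) (k : ℕ) (Yf : Finset (ZMod m)ˣ)
    (hYf : ∀ s, s ∈ Yf ↔ s ∈ Y) :
    ((∑ᶠ s ∈ Y, (zet m s ^ k).re : ℝ) : ℂ) = ∑ s ∈ Yf, zet m s ^ k := by
  have h0 : (∑ᶠ s ∈ Y, (zet m s ^ k).re : ℝ) = ∑ s ∈ Yf, (zet m s ^ k).re := by
    refine finsum_mem_eq_sum_of_inter_support_eq _ ?_
    ext s
    simp only [Set.mem_inter_iff, Finset.mem_coe, hYf]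
  have h1 : ∑ s ∈ Yf, (starRingEnd ℂ) (zet m s ^ k) = ∑ s ∈ Yf, zet m s ^ k := by
    refine Finset.sum_nbij' (fun s => -s) (fun s => -s) ?_ ?_ ?_ ?_ ?_
    · intro s hs
      rw [hYf] at hs ⊢
      exact hY s hs
    · intro s hs
      rw [hYf] at hs ⊢
      exact hY s hs
    · intro s _
      exact neg_neg s
    · intro s _
      exact neg_neg s
    · intro s _
      exact conj_zet hm s k
  rw [h0, Complex.ofReal_sum]
  have h2 : ∀ s ∈ Yf, (((zet m s ^ k).re : ℝ) : ℂ) =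
      (1 / 2 : ℂ) * (zet m s ^ k + (starRingEnd ℂ) (zet m s ^ k)) := by
    intro s _
    rw [Complex.re_eq_add_conj]
    ring
  rw [Finset.sum_congr rfl h2, ← Finset.mul_sum, Finset.sum_add_distrib, h1]
  ring

lemma geo (hm : m ≠ 0) (s t : (ZMod m)ˣ) :
    ∑ k ∈ Finset.range m, zet m s ^ k * zet m t ^ (m - k) = if s = t then (m : ℂ) else 0 := by
  have hc0 : zet m t ≠ 0 := zet_ne hm t
  have e1 : ∀ k ∈ Finset.range m, zet m s ^ k * zet m t ^ (m - k) =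
      (zet m s * (zet m t)⁻¹) ^ k := by
    intro k hk
    have hk' : k ≤ m := (Finset.mem_range.1 hk).le
    have h1 : zet m t ^ (m - k) * zet m t ^ k = 1 := by
      rw [← pow_add, Nat.sub_add_cancel hk', zet_pow_one hm]
    rw [mul_pow, inv_pow]
    congr 1
    exact eq_inv_of_mul_eq_one_left h1
  rw [Finset.sum_congr rfl e1]
  split_ifs with hst
  · subst hst
    rw [mul_inv_cancel₀ hc0]
    simp
  · have hx : zet m s * (zet m t)⁻¹ ≠ 1 := by
      intro h1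
      apply hst
      apply zet_inj hm
      have h2 := congrArg (fun z => z * zet m t) h1
      simpa [mul_assoc, inv_mul_cancel₀ hc0] using h2
    rw [geom_sum_eq hx, mul_pow, inv_pow, zet_pow_one hm, zet_pow_one hm, inv_one, mul_one,
      sub_self, zero_div]

lemma coef (hm : 3 ≤ m) (Y : Set (ZMod m)ˣ) (hY : ∀ s ∈ Y, -s ∈ Y) (t : (ZMod m)ˣ) :
    (t ∈ Y → ∑ k ∈ Finset.range m, (cf m Y k : ℂ) * zet m t ^ (m - k) = 1) ∧
    (t ∉ Y → ∑ k ∈ Finset.range m, (cf m Y k : ℂ) * zet m t ^ (m - k) = 0) := by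
  classical
  have hm0 : m ≠ 0 := by omega
  haveI : NeZero m := ⟨hm0⟩
  set Yf : Finset (ZMod m)ˣ := Finset.univ.filter fun s => s ∈ Y with hYf
  have hYf' : ∀ s, s ∈ Yf ↔ s ∈ Y := by
    intro s
    rw [hYf, Finset.mem_filter]
    simp
  have hmc : (m : ℂ) ≠ 0 := Nat.cast_ne_zero.mpr hm0
  have key : ∑ k ∈ Finset.range m, (cf m Y k : ℂ) * zet m t ^ (m - k) =
      (m : ℂ)⁻¹ * ∑ s ∈ Yf, if s = t then (m : ℂ) else 0 := by
    rw [Finset.sum_congr rfl fun s _ => (geo hm0 s t).symm, Finset.sum_comm, Finset.mul_sum]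
    refine Finset.sum_congr rfl fun k _ => ?_
    rw [cf, Complex.ofReal_mul, sumY hm Y hY k Yf hYf', ← Finset.sum_mul]
    push_cast
    ring
  rw [key, Finset.sum_ite_eq']
  constructor
  · intro ht
    rw [if_pos ((hYf' t).2 ht), inv_mul_cancel₀ hmc]
  · intro ht
    rw [if_neg (fun h => ht ((hYf' t).1 h)), mul_zero]

lemma ZR_pow (D : Cyc T m) (k : ℕ) (v : T.V) : (D.ZR ^ k) v = (D.Z ^ k) v := by
  induction k generalizing v with
  | zero => simp
  | succ k ih =>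
    rw [pow_succ, pow_succ, Module.End.mul_apply, Module.End.mul_apply, ih]
    rfl

lemma Ws_pow (D : Cyc T m) (t : (ZMod m)ˣ) (a : Frm T) (h : a ∈ Ws D t) (k : ℕ) (v : T.V) :
    a ((D.ZR ^ k) v) = zet m t ^ k * a v := by
  induction k generalizing v with
  | zero => simp
  | succ k ih =>
    rw [pow_succ, Module.End.mul_apply, ih]
    have : a (D.ZR v) = zet m t * a v := h v
    rw [this, pow_succ]
    ring

lemma pre_ep (D : Cyc T m) (Y : Set (ZMod m)ˣ) (t : (ZMod m)ˣ) (a : Frm T) (h : a ∈ Ws D t) :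
    pre (ep D Y) a = (∑ k ∈ Finset.range m, (cf m Y k : ℂ) * zet m t ^ (m - k)) • a := by
  refine LinearMap.ext fun v => ?_
  show a (ep D Y v) = _
  rw [ep_eq, LinearMap.sum_apply, map_sum, LinearMap.smul_apply, smul_eq_mul, Finset.sum_mul]
  refine Finset.sum_congr rfl fun k _ => ?_
  rw [LinearMap.smul_apply, map_smul, Ws_pow D t a h, Complex.real_smul]
  ring

lemma pre_pos (hm : 3 ≤ m) (D : Cyc T m) (Y : Set (ZMod m)ˣ) (hY : ∀ s ∈ Y, -s ∈ Y)
    (t : (ZMod m)ˣ) (ht : t ∈ Y) (a : Frm T) (h : a ∈ Ws D t) : pre (ep D Y) a = a := by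
  rw [pre_ep D Y t a h, (coef hm Y hY t).1 ht, one_smul]

lemma pre_neg (hm : 3 ≤ m) (D : Cyc T m) (Y : Set (ZMod m)ˣ) (hY : ∀ s ∈ Y, -s ∈ Y)
    (t : (ZMod m)ˣ) (ht : t ∉ Y) (a : Frm T) (h : a ∈ Ws D t) : pre (ep D Y) a = 0 := by
  rw [pre_ep D Y t a h, (coef hm Y hY t).2 ht, zero_smul]

lemma ext_Ws (hm : 3 ≤ m) (D : Cyc T m) (P Q : Module.End ℝ T.V)
    (h : ∀ s, ∀ a ∈ Ws D s, pre P a = pre Q a) : P = Q := by
  obtain ⟨h1, -, -, h4, -⟩ := tBas tPj T m D hm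
  refine (h4 P Q).2.2.2 ?_
  refine LinearMap.ext fun a => ?_
  have ha : a ∈ ⨆ s, Ws D s := by rw [h1]; trivial
  induction ha using Submodule.iSup_induction' with
  | mem s x hx => exact h s x hx
  | zero => rw [map_zero, map_zero]
  | add x y _ _ hx hy => rw [map_add, map_add, hx, hy]

lemma pre_mul (P Q : Module.End ℝ T.V) (a : Frm T) : pre (P * Q) a = pre Q (pre P a) := rfl

lemma com (D : Cyc T m) (Y : Set (ZMod m)ˣ) (X : Module.End ℝ T.V)
    (hX : ∀ v, X (D.Z v) = D.Z (X v)) : ep D Y * X = X * ep D Y := by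
  have h1 : Commute D.ZR X := LinearMap.ext fun v => (hX v).symm
  have h2 : Commute (ep D Y) X := by
    rw [ep_eq]
    exact Commute.sum_left _ _ _ fun k _ => (h1.pow_left _).smul_left _
  exact h2

lemma psi_pow (hm : 3 ≤ m) (D : Cyc T m) (k : ℕ) (hk : k ≤ m) (u v : T.V) :
    D.ψ ((D.ZR ^ (m - k)) u) v = D.ψ u ((D.ZR ^ k) v) := by
  have h1 : ∀ (j : ℕ) (u v : T.V), D.ψ ((D.ZR ^ j) u) ((D.ZR ^ j) v) = D.ψ u v := by
    intro j
    induction j with
    | zero => intro u v; rfl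
    | succ j ih =>
      intro u v
      rw [pow_succ', Module.End.mul_apply, Module.End.mul_apply]
      exact (D.inv _ _).trans (ih u v)
  have h2 : (D.ZR ^ m) v = v := by
    rw [ZR_pow, (tPj T m D hm).1]
    rfl
  have h3 : (D.ZR ^ (m - k)) ((D.ZR ^ k) v) = v := by
    rw [← Module.End.mul_apply, ← pow_add, Nat.sub_add_cancel hk, h2]
  calc D.ψ ((D.ZR ^ (m - k)) u) v = D.ψ ((D.ZR ^ (m - k)) u) ((D.ZR ^ (m - k)) ((D.ZR ^ k) v)) := by
        rw [h3]
    _ = D.ψ u ((D.ZR ^ k) v) := h1 _ _ _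

lemma cf_symm (hm : 3 ≤ m) (Y : Set (ZMod m)ˣ) (k : ℕ) (hk : k ≤ m) :
    cf m Y (m - k) = cf m Y k := by
  have hm0 : m ≠ 0 := by omega
  have h1 : ∀ s : (ZMod m)ˣ, (zet m s ^ (m - k)).re = (zet m s ^ k).re := by
    intro s
    have h2 : zet m s ^ (m - k) * zet m s ^ k = 1 := by
      rw [← pow_add, Nat.sub_add_cancel hk, zet_pow_one hm0]
    have h3 : (starRingEnd ℂ) (zet m s ^ k) * zet m s ^ k = 1 := by
      rw [map_pow, ← mul_pow, conj_mul hm, one_pow]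
    have h4 : zet m s ^ (m - k) = (starRingEnd ℂ) (zet m s ^ k) :=
      mul_right_cancel₀ (pow_ne_zero _ (zet_ne hm0 s)) (h2.trans h3.symm)
    rw [h4, Complex.conj_re]
  rw [cf, cf]
  congr 1
  exact finsum_mem_congr rfl fun s _ => h1 s

lemma sym (hm : 3 ≤ m) (D : Cyc T m) (Y : Set (ZMod m)ˣ) (u v : T.V) :
    D.ψ (ep D Y u) v = D.ψ u (ep D Y v) := by
  rw [ep_eq, LinearMap.sum_apply, LinearMap.sum_apply, map_sum, map_sum, LinearMap.sum_apply]
  have e1 : ∀ k ∈ Finset.range m, D.ψ ((cf m Y k • D.ZR ^ (m - k)) u) v =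
      cf m Y k * D.ψ u ((D.ZR ^ k) v) := by
    intro k hk
    rw [LinearMap.smul_apply, map_smul, LinearMap.smul_apply, smul_eq_mul,
      psi_pow hm D k (Finset.mem_range.1 hk).le]
  have e2 : ∀ k ∈ Finset.range m, D.ψ u ((cf m Y k • D.ZR ^ (m - k)) v) =
      cf m Y k * D.ψ u ((D.ZR ^ (m - k)) v) := by
    intro k _
    rw [LinearMap.smul_apply, map_smul, smul_eq_mul]
  rw [Finset.sum_congr rfl e1, Finset.sum_congr rfl e2]
  have hZ : (D.ZR ^ m) v = v := by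
    rw [ZR_pow, (tPj T m D hm).1]
    rfl
  obtain ⟨n, rfl⟩ : ∃ n, m = n + 1 := ⟨m - 1, by omega⟩
  rw [Finset.sum_range_succ' (fun k => cf (n + 1) Y k * D.ψ u ((D.ZR ^ k) v)),
    Finset.sum_range_succ' (fun k => cf (n + 1) Y k * D.ψ u ((D.ZR ^ (n + 1 - k)) v))]
  have e3 : (D.ZR ^ (n + 1 - 0)) v = (D.ZR ^ 0) v := by
    rw [Nat.sub_zero, hZ, pow_zero]
    rfl
  rw [e3]
  congr 1
  rw [← Finset.sum_range_reflect]
  refine Finset.sum_congr rfl fun k hk => ?_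
  have hk' : k < n := Finset.mem_range.1 hk
  have e4 : n - 1 - k + 1 = n + 1 - (k + 1) := by omega
  rw [e4, cf_symm hm Y (k + 1) (by omega)]

lemma mem (D : Cyc T m) (Y : Set (ZMod m)ˣ) :
    ep D Y ∈ Submodule.span ℝ (Set.range fun k : ℕ => D.ZR ^ k) := by
  rw [ep_eq]
  exact Submodule.sum_mem _ fun k _ => Submodule.smul_mem _ _ (Submodule.subset_span ⟨m - k, rfl⟩)

end n19_aux

open n19_aux in
theorem tn19 : S_n19 := by
  intro hn4 T m D hm
  refine ⟨fun Y hY => ⟨fun s hs a ha => pre_pos hm D Y hY s hs a ha,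
    fun s hs a ha => pre_neg hm D Y hY s hs a ha, fun X hX => n19_aux.com D Y X hX, ?_, n19_aux.sym hm D Y,
    n19_aux.mem D Y, ?_⟩, ?_⟩
  · refine ext_Ws hm D _ _ fun s a ha => ?_
    rw [pre_mul]
    by_cases hs : s ∈ Y
    · rw [pre_pos hm D Y hY s hs a ha, pre_pos hm D Y hY s hs a ha]
    · rw [pre_neg hm D Y hY s hs a ha, map_zero]
  · intro Γ g hg v
    have hY' : ∀ s ∈ {s : (ZMod m)ˣ | ∃ t ∈ Y, s = g * t}, -s ∈ {s | ∃ t ∈ Y, s = g * t} := by
      rintro s ⟨t, ht, rfl⟩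
      exact ⟨-t, hY t ht, (mul_neg g t).symm⟩
    have h1 : ((Γ.Θ g : T.V →ₗ[ℂ] T.V).restrictScalars ℝ : Module.End ℝ T.V) *
        ep D {s | ∃ t ∈ Y, s = g * t} =
        ep D Y * ((Γ.Θ g : T.V →ₗ[ℂ] T.V).restrictScalars ℝ : Module.End ℝ T.V) := by
      refine ext_Ws hm D _ _ fun t a ha => ?_
      rw [pre_mul, pre_mul]
      have h2 : pre ((Γ.Θ g : T.V →ₗ[ℂ] T.V).restrictScalars ℝ) a ∈ Ws D (g * t) :=
        (hn4 T m D Γ hm g hg t).1 a ha
      by_cases ht : t ∈ Y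
      · rw [pre_pos hm D _ hY' (g * t) ⟨t, ht, rfl⟩ _ h2, pre_pos hm D Y hY t ht a ha]
      · rw [pre_neg hm D _ hY' (g * t) ?_ _ h2, pre_neg hm D Y hY t ht a ha, map_zero]
        rintro ⟨t', ht', he⟩
        exact ht (by rw [mul_left_cancel he]; exact ht')
    exact LinearMap.congr_fun h1 v
  · intro ι _ Y hY hc hd
    constructor
    · refine ext_Ws hm D _ _ fun s a ha => ?_
      obtain ⟨i, hi⟩ := hc s
      refine LinearMap.ext fun v => ?_
      show a ((∑ i, ep D (Y i)) v) = a v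
      rw [LinearMap.sum_apply, map_sum, Finset.sum_eq_single i]
      · exact LinearMap.congr_fun (pre_pos hm D (Y i) (hY i) s hi a ha) v
      · intro i' _ hne
        exact LinearMap.congr_fun (pre_neg hm D (Y i') (hY i') s
          (fun h => Set.disjoint_left.1 (hd i' i hne) h hi) a ha) v
      · intro h
        exact absurd (Finset.mem_univ i) h
    · intro i i' hne
      refine ext_Ws hm D _ _ fun s a ha => ?_
      rw [pre_mul]
      have h0 : pre (0 : Module.End ℝ T.V) a = 0 := by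
        refine LinearMap.ext fun v => ?_
        show a 0 = 0
        exact map_zero a
      rw [h0]
      by_cases hs : s ∈ Y i
      · rw [pre_pos hm D (Y i) (hY i) s hs a ha]
        exact pre_neg hm D (Y i') (hY i') s (fun h => Set.disjoint_left.1 (hd i i' hne) hs h) a ha
      · rw [pre_neg hm D (Y i) (hY i) s hs a ha, map_zero]

end SEN
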