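import Pool.Agent.Lib.SE.N.Spec

/-!
# PROJECT SE-N, module n2: cutting down (helper33)
-/

set_option autoImplicit false

open Module

noncomputable section

namespace SEN

open HC HC.E HC.SE SEB SEQ SER SES SEG SE

namespace n2_aux

/-- A complex linear automorphism as a real endomorphism. -/
def rl {T : AV} (Θ : T.V ≃ₗ[ℂ] T.V) : Module.End ℝ T.V :=
  ((Θ : T.V ≃ₗ[ℂ] T.V) : T.V →ₗ[ℂ] T.V).restrictScalars ℝ

theorem rl_apply {T : AV} (Θ : T.V ≃ₗ[ℂ] T.V) (v : T.V) : rl Θ v = Θ v := rfl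

/-- The defect `X Θ - Θ X`. -/
def dl {T : AV} (Θ : T.V ≃ₗ[ℂ] T.V) : Module.End ℝ T.V →ₗ[ℝ] (T.V →ₗ[ℝ] T.V) :=
  LinearMap.mulRight ℝ (rl Θ) - LinearMap.mulLeft ℝ (rl Θ)

theorem dl_apply {T : AV} (Θ : T.V ≃ₗ[ℂ] T.V) (X : Module.End ℝ T.V) (v : T.V) :
    dl Θ X v = X (Θ v) - Θ (X v) := rfl

theorem dl_eq {T : AV} (Θ : T.V ≃ₗ[ℂ] T.V) (X : Module.End ℝ T.V) :
    dl Θ X = X * rl Θ - rl Θ * X := rfl

theorem dl_zero_iff {T : AV} (Θ : T.V ≃ₗ[ℂ] T.V) (X : Module.End ℝ T.V) :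
    dl Θ X = 0 ↔ ∀ v, X (Θ v) = Θ (X v) := by
  constructor
  · intro h v
    have h1 : dl Θ X v = 0 := by
      rw [h]
      rfl
    rw [dl_apply] at h1
    exact sub_eq_zero.1 h1
  · intro h
    refine LinearMap.ext fun v => ?_
    rw [dl_apply, h v, sub_self]
    rfl

theorem rat_mul {T : AV} {X Y : Module.End ℝ T.V} (hX : RatEnd T X) (hY : RatEnd T Y) :
    RatEnd T (X * Y) := by
  intro v hv
  obtain ⟨N, hN, h⟩ := hY v hv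
  obtain ⟨M, hM, h'⟩ := hX _ h
  refine ⟨M * N, mul_ne_zero hM hN, ?_⟩
  rw [map_nsmul] at h'
  rw [mul_smul]
  exact h'

theorem rat_sub {T : AV} {X Y : Module.End ℝ T.V} (hX : RatEnd T X) (hY : RatEnd T Y) :
    RatEnd T (X - Y) := by
  intro v hv
  obtain ⟨N, hN, h⟩ := hX v hv
  obtain ⟨M, hM, h'⟩ := hY v hv
  refine ⟨M * N, mul_ne_zero hM hN, ?_⟩
  have h1 : (M * N) • (X - Y) v = M • (N • X v) - N • (M • Y v) := by
    rw [LinearMap.sub_apply, smul_sub, mul_smul, mul_comm M N, mul_smul]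
  rw [h1]
  exact T.L.sub_mem (T.L.toAddSubgroup.nsmul_mem h M) (T.L.toAddSubgroup.nsmul_mem h' N)

theorem rat_dl {T : AV} {Θ : T.V ≃ₗ[ℂ] T.V} (hΘ : RatEnd T (rl Θ)) {X : Module.End ℝ T.V}
    (hX : RatEnd T X) : RatHom T T (dl Θ X) := by
  rw [dl_eq]
  exact rat_sub (rat_mul hX hΘ) (rat_mul hΘ hX)

theorem dl_J {T : AV} (Θ : T.V ≃ₗ[ℂ] T.V) : dl Θ (mulI T) = 0 := by
  rw [dl_zero_iff]
  intro v
  exact (map_smul Θ Complex.I v).symm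

/-- The cutting argument. -/
theorem cut (h0 : S_n0) (h1 : S_n1) {V : Type} [AddCommGroup V] [Module ℝ V] (h : Set V)
    (hz : (0 : V) ∈ h) (ha : ∀ x ∈ h, ∀ y ∈ h, x + y ∈ h) (hs : ∀ t : ℚ, ∀ x ∈ h, (t : ℝ) • x ∈ h)
    (J : V) (hJ : J ∈ Submodule.span ℝ h) {I : Type} (A : I → AV)
    (δ : ∀ i, V →ₗ[ℝ] ((A i).V →ₗ[ℝ] (A i).V)) (hr : ∀ X ∈ h, ∀ i, RatHom (A i) (A i) (δ i X))
    (hδ : ∀ i, δ i J = 0) : J ∈ Submodule.span ℝ {X | X ∈ h ∧ ∀ i, δ i X = 0} := by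
  obtain ⟨n, c, y, hc, hy, hJy⟩ := h0 V h hz ha hs J hJ
  have h2 : ∀ k i, δ i (y k) = 0 := by
    intro k i
    refine h1 (A i) (A i) n c hc (fun k => δ i (y k)) (fun k => hr (y k) (hy k) i) ?_ k
    have h3 := hδ i
    rw [hJy, map_sum] at h3
    rw [← h3]
    refine Finset.sum_congr rfl fun k _ => ?_
    rw [map_smul]
  rw [hJy]
  exact Submodule.sum_mem _ fun k _ => Submodule.smul_mem _ _
    (Submodule.subset_span ⟨hy k, fun i => h2 k i⟩)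

section One

variable {T : AV} {m : ℕ} {D : Cyc T m} (Γ : Sd D)

theorem C_iff (X : Module.End ℝ T.V) : X ∈ Γ.C ↔ ∀ g : Γ.S, dl (Γ.Θ g) X = 0 := by
  constructor
  · intro h g
    rw [dl_zero_iff]
    exact h g g.2
  · intro h g hg
    exact (dl_zero_iff _ _).1 (h ⟨g, hg⟩)

theorem C_zero : (0 : Module.End ℝ T.V) ∈ Γ.C := by
  rw [C_iff]
  intro g
  exact map_zero _

theorem C_add {X Y : Module.End ℝ T.V} (hX : X ∈ Γ.C) (hY : Y ∈ Γ.C) : X + Y ∈ Γ.C := by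
  rw [C_iff] at hX hY ⊢
  intro g
  rw [map_add, hX g, hY g, add_zero]

theorem C_smul (r : ℝ) {X : Module.End ℝ T.V} (hX : X ∈ Γ.C) : r • X ∈ Γ.C := by
  rw [C_iff] at hX ⊢
  intro g
  rw [map_smul, hX g, smul_zero]

theorem C_br {X Y : Module.End ℝ T.V} (hX : X ∈ Γ.C) (hY : Y ∈ Γ.C) :
    X * Y - Y * X ∈ Γ.C := by
  intro g hg v
  rw [LinearMap.sub_apply, LinearMap.sub_apply, Module.End.mul_apply, Module.End.mul_apply,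
    Module.End.mul_apply, Module.End.mul_apply, hX g hg, hY g hg, hX g hg, hY g hg, map_sub]

theorem rat_C (g : Γ.S) {X : Module.End ℝ T.V} (hX : RatEnd T X) :
    RatHom T T (dl (Γ.Θ g) X) :=
  rat_dl (Γ.rat g g.2) hX

end One

section Tup

variable {q : ℕ} {T : Fin q → AV} {m : Fin q → ℕ} {D : ∀ i, Cyc (T i) (m i)} (Γ : ∀ i, Sd (D i))

/-- The defects of a tuple. -/
def dT (x : Σ i, (Γ i).S) : Tup T →ₗ[ℝ] ((T x.1).V →ₗ[ℝ] (T x.1).V) :=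
  dl ((Γ x.1).Θ x.2) ∘ₗ LinearMap.proj x.1

theorem dT_apply (x : Σ i, (Γ i).S) (X : Tup T) : dT Γ x X = dl ((Γ x.1).Θ x.2) (X x.1) := rfl

theorem CT_iff (X : Tup T) : CT Γ X ↔ ∀ x : Σ i, (Γ i).S, dT Γ x X = 0 := by
  constructor
  · intro h x
    exact (C_iff (Γ x.1) _).1 (h x.1) x.2
  · intro h i
    exact (C_iff (Γ i) _).2 fun g => h ⟨i, g⟩

theorem CT_zero : CT Γ (0 : Tup T) := fun i => C_zero (Γ i)

theorem CT_add {X Y : Tup T} (hX : CT Γ X) (hY : CT Γ Y) : CT Γ (X + Y) :=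
  fun i => C_add (Γ i) (hX i) (hY i)

theorem CT_smul (r : ℝ) {X : Tup T} (hX : CT Γ X) : CT Γ (r • X) :=
  fun i => C_smul (Γ i) r (hX i)

theorem CT_br {X Y : Tup T} (hX : CT Γ X) (hY : CT Γ Y) : CT Γ (X * Y - Y * X) :=
  fun i => C_br (Γ i) (hX i) (hY i)

theorem rat_T (x : Σ i, (Γ i).S) {X : Tup T} (hX : ∀ i, RatEnd (T i) (X i)) :
    RatHom (T x.1) (T x.1) (dT Γ x X) :=
  rat_C (Γ x.1) x.2 (hX x.1)

theorem dT_J (x : Σ i, (Γ i).S) : dT Γ x (JT T) = 0 := dl_J _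

end Tup

end n2_aux

open n2_aux in
theorem tn2 : S_n0 → S_n1 → S_n2 := by
  intro h0 h1
  refine ⟨?_, ?_, ?_, ?_⟩
  · intro T m D Γ h hh
    refine ⟨fun X hX => hh.rat X hX.1, fun X hX => hh.u X hX.1, ⟨⟨⟨hh.lie.zero, C_zero Γ⟩,
      fun X hX Y hY => ⟨hh.lie.add X hX.1 Y hY.1, C_add Γ hX.2 hY.2⟩,
      fun t X hX => ⟨hh.lie.smul t X hX.1, C_smul Γ _ hX.2⟩⟩,
      fun X hX Y hY => ⟨hh.lie.br X hX.1 Y hY.1, C_br Γ hX.2 hY.2⟩⟩, ?_⟩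
    have h2 := cut h0 h1 h hh.lie.zero hh.lie.add hh.lie.smul (mulI T) hh.J (fun _ : Γ.S => T)
      (fun g => dl (Γ.Θ g)) (fun X hX g => rat_C Γ g (hh.rat X hX)) (fun g => dl_J _)
    refine Submodule.span_mono ?_ h2
    rintro X ⟨hX, hX'⟩
    exact ⟨hX, (C_iff Γ X).2 hX'⟩
  · intro q T m D Γ h hh
    refine ⟨fun X hX => hh.rat X hX.1, fun X hX => hh.u X hX.1, ⟨hh.zero, CT_zero Γ⟩,
      fun X hX Y hY => ⟨hh.add X hX.1 Y hY.1, CT_add Γ hX.2 hY.2⟩,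
      fun t X hX => ⟨hh.smul t X hX.1, CT_smul Γ _ hX.2⟩,
      fun X hX Y hY => ⟨hh.br X hX.1 Y hY.1, CT_br Γ hX.2 hY.2⟩, ?_⟩
    have h2 := cut h0 h1 h hh.zero hh.add hh.smul (JT T) hh.J (fun x : (Σ i, (Γ i).S) => T x.1)
      (fun x => dT Γ x) (fun X hX x => rat_T Γ x (hh.rat X hX)) (fun x => dT_J Γ x)
    refine Submodule.span_mono ?_ h2
    rintro X ⟨hX, hX'⟩
    exact ⟨hX, (CT_iff Γ X).2 hX'⟩
  · intro q T m D Γ B ι G h hh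
    refine ⟨fun X hX => hh.rat X hX.1, fun X hX => hh.u X hX.1, fun X hX => hh.op X hX.1,
      ⟨hh.zero, CT_zero Γ⟩,
      fun X hX Y hY => ⟨hh.add X hX.1 Y hY.1, CT_add Γ hX.2 hY.2⟩,
      fun t X hX => ⟨hh.smul t X hX.1, CT_smul Γ _ hX.2⟩,
      fun X hX Y hY => ⟨hh.br X hX.1 Y hY.1, CT_br Γ hX.2 hY.2⟩, ?_⟩
    have h2 := cut h0 h1 h hh.zero hh.add hh.smul _ hh.J (fun x : (Σ i, (Γ i).S) => T x.1)
      (fun x => dT Γ x ∘ₗ LinearMap.fst ℝ _ _) (fun X hX x => rat_T Γ x (hh.rat X hX).1)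
      (fun x => dT_J Γ x)
    refine Submodule.span_mono ?_ h2
    rintro X ⟨hX, hX'⟩
    exact ⟨hX, (CT_iff Γ X.1).2 hX'⟩
  · intro q q' T m D Γ B ι G G' E h hh
    refine ⟨fun X hX => hh.rat X hX.1, fun X hX => hh.u X hX.1, fun X hX => hh.op X hX.1,
      fun X hX => hh.sk X hX.1, ⟨hh.zero, CT_zero Γ⟩,
      fun X hX Y hY => ⟨hh.add X hX.1 Y hY.1, CT_add Γ hX.2 hY.2⟩,
      fun t X hX => ⟨hh.smul t X hX.1, CT_smul Γ _ hX.2⟩,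
      fun X hX Y hY => ⟨hh.br X hX.1 Y hY.1, CT_br Γ hX.2 hY.2⟩, ?_⟩
    have h2 := cut h0 h1 h hh.zero hh.add hh.smul _ hh.J (fun x : (Σ i, (Γ i).S) => T x.1)
      (fun x => dT Γ x ∘ₗ LinearMap.fst ℝ _ _ ∘ₗ LinearMap.fst ℝ _ _)
      (fun X hX x => rat_T Γ x (hh.rat X hX).1)
      (fun x => dT_J Γ x)
    refine Submodule.span_mono ?_ h2
    rintro X ⟨hX, hX'⟩
    exact ⟨hX, (CT_iff Γ X.1.1).2 hX'⟩

end SEN
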