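import Pool.Agent.Lib.SE.N.Spec

set_option autoImplicit false

open Module

noncomputable section

namespace SEN

open HC HC.E HC.SE SEB SEQ SER SES SEG SE

namespace n20_aux

/-- The orbits of `± S`. -/
def rel {m : ℕ} (S : Subgroup (ZMod m)ˣ) : Setoid (ZMod m)ˣ where
  r s t := ∃ g ∈ S, t = g * s ∨ t = -(g * s)
  iseqv := by
    refine ⟨fun s => ⟨1, S.one_mem, Or.inl (one_mul s).symm⟩, ?_, ?_⟩
    · rintro s t ⟨g, hg, h | h⟩
      · exact ⟨g⁻¹, S.inv_mem hg, Or.inl (by rw [h, inv_mul_cancel_left])⟩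
      · exact ⟨g⁻¹, S.inv_mem hg, Or.inr (by rw [h, mul_neg, inv_mul_cancel_left, neg_neg])⟩
    · rintro s t u ⟨g, hg, h⟩ ⟨g', hg', h'⟩
      refine ⟨g' * g, S.mul_mem hg' hg, ?_⟩
      rcases h with rfl | rfl <;> rcases h' with rfl | rfl
      · exact Or.inl (mul_assoc _ _ _).symm
      · exact Or.inr (by rw [mul_assoc])
      · exact Or.inr (by rw [mul_neg, mul_assoc])
      · exact Or.inl (by rw [mul_neg, neg_neg, mul_assoc])

/-- A symmetric set of representatives. -/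
theorem exY {m : ℕ} (S : Subgroup (ZMod m)ˣ) (hS : (-1 : (ZMod m)ˣ) ∉ S) :
    ∃ Y : Set (ZMod m)ˣ, (∀ s ∈ Y, -s ∈ Y) ∧ (∀ s, ∃ g ∈ S, ∃ t ∈ Y, s = g * t) ∧
      ∀ g ∈ S, ∀ g' ∈ S, ∀ t ∈ Y, ∀ t' ∈ Y, g * t = g' * t' → g = g' := by
  let rep : (ZMod m)ˣ → (ZMod m)ˣ := fun s => Quotient.out (Quotient.mk (rel S) s)
  have h1 : ∀ s t, (rel S).r s t → rep s = rep t := fun s t h =>
    congrArg Quotient.out (Quotient.sound h)
  have h2 : ∀ s, (rel S).r (rep s) s := fun s => @Quotient.mk_out _ (rel S) s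
  have hn : ∀ s, rep s = rep (-s) := fun s => h1 _ _ ⟨1, S.one_mem, Or.inr (by rw [one_mul])⟩
  have hr : ∀ s, rep (rep s) = rep s := fun s => h1 _ _ (h2 s)
  refine ⟨{s | s = rep s ∨ -s = rep s}, ?_, ?_, ?_⟩
  · rintro s (h | h)
    · exact Or.inr (by rw [neg_neg, ← hn]; exact h)
    · exact Or.inl (by rw [← hn]; exact h)
  · intro s
    obtain ⟨g, hg, h | h⟩ := h2 s
    · exact ⟨g, hg, rep s, Or.inl (hr s).symm, h⟩
    · exact ⟨g, hg, -rep s, Or.inr (by rw [neg_neg, ← hn, hr]), by rw [mul_neg]; exact h⟩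
  · intro g hg g' hg' t ht t' ht' h
    have h3 : rep t = rep t' := by
      refine h1 _ _ ⟨g'⁻¹ * g, S.mul_mem (S.inv_mem hg') hg, Or.inl ?_⟩
      rw [mul_assoc, h, inv_mul_cancel_left]
    have h4 : t' = t ∨ t' = -t := by
      rcases ht with ht | ht <;> rcases ht' with ht' | ht'
      · exact Or.inl (by rw [ht', ← h3, ← ht])
      · exact Or.inr (by rw [← neg_neg t', ht', ← h3, ← ht])
      · exact Or.inr (by rw [ht', ← h3, ← ht])
      · exact Or.inl (by rw [← neg_neg t', ht', ← h3, ← ht, neg_neg])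
    rcases h4 with rfl | rfl
    · exact mul_right_cancel h
    · exfalso
      apply hS
      have h5 : g = -g' := by
        have : g * t = -g' * t := by rw [h, mul_neg, neg_mul]
        exact mul_right_cancel this
      have h6 : (-1 : (ZMod m)ˣ) = g * g'⁻¹ := by
        rw [h5, neg_mul, mul_inv_cancel]
      rw [h6]
      exact S.mul_mem hg (S.inv_mem hg')

variable {T : AV} {m : ℕ}

theorem isU_add (D : Cyc T m) {X Y : Module.End ℝ T.V} (hX : IsU D X) (hY : IsU D Y) :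
    IsU D (X + Y) := by
  constructor
  · intro v
    rw [LinearMap.add_apply, LinearMap.add_apply, hX.1, hY.1, map_add]
  · intro u v
    have h1 := hX.2 u v
    have h2 := hY.2 u v
    rw [LinearMap.add_apply, LinearMap.add_apply, map_add, map_add, LinearMap.add_apply]
    linarith

theorem isSU_add (D : Cyc T m) {X Y : Module.End ℝ T.V} (hX : IsSU D X) (hY : IsSU D Y) :
    IsSU D (X + Y) := by
  refine ⟨isU_add D hX.1 hY.1, fun k => ?_⟩
  rw [add_mul, map_add, hX.2 k, hY.2 k, add_zero]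

theorem isSU_zero (D : Cyc T m) : IsSU D 0 := by
  refine ⟨⟨fun v => by simp, fun u v => by simp⟩, fun k => by simp⟩

theorem isSU_sum (D : Cyc T m) {ι : Type} (s : Finset ι) (X : ι → Module.End ℝ T.V)
    (hX : ∀ i ∈ s, IsSU D (X i)) : IsSU D (∑ i ∈ s, X i) := by
  classical
  induction s using Finset.induction_on with
  | empty => rw [Finset.sum_empty]; exact isSU_zero D
  | insert a s ha ih =>
    rw [Finset.sum_insert ha]
    exact isSU_add D (hX a (Finset.mem_insert_self a s))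
      (ih fun i hi => hX i (Finset.mem_insert_of_mem hi))

/-- `B E` is in `su` when `B` is and `E` is symmetric, commutes with `B` and lies in the span of the powers
of `Z`. -/
theorem isSU_mul (D : Cyc T m) {B E : Module.End ℝ T.V} (hB : IsSU D B)
    (hE : E ∈ Submodule.span ℝ (Set.range fun k : ℕ => D.ZR ^ k))
    (hZ : ∀ v, E (D.Z v) = D.Z (E v)) (hs : ∀ u v, D.ψ (E u) v = D.ψ u (E v))
    (hc : E * B = B * E) : IsSU D (B * E) := by
  refine ⟨⟨fun v => ?_, fun u v => ?_⟩, fun k => ?_⟩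
  · rw [Module.End.mul_apply, Module.End.mul_apply, hZ, hB.1.1]
  · have h1 := hB.1.2 (E u) v
    have h2 : (B * E) v = E (B v) := by rw [← hc]; rfl
    rw [h2, ← hs, Module.End.mul_apply]
    exact h1
  · have key : ∀ F ∈ Submodule.span ℝ (Set.range fun k : ℕ => D.ZR ^ k),
        LinearMap.trace ℝ T.V (B * F * D.ZR ^ k) = 0 := by
      intro F hF
      induction hF using Submodule.span_induction with
      | mem x hx =>
        obtain ⟨j, rfl⟩ := hx
        have : B * D.ZR ^ j * D.ZR ^ k = B * D.ZR ^ (j + k) := by rw [mul_assoc, pow_add]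
        simp only [this]
        exact hB.2 _
      | zero => rw [mul_zero, zero_mul, map_zero]
      | add x y _ _ hx hy => rw [mul_add, add_mul, map_add, hx, hy, add_zero]
      | smul a x _ hx => rw [mul_smul_comm, smul_mul_assoc, map_smul, hx, smul_zero]
    exact key E hE

/-- `Θ⁻¹ A Θ`. -/
def cj (Θ : T.V ≃ₗ[ℂ] T.V) (A : Module.End ℝ T.V) : Module.End ℝ T.V where
  toFun v := Θ.symm (A (Θ v))
  map_add' u v := by rw [map_add, map_add, map_add]
  map_smul' c v := by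
    have h : ∀ (x : T.V), c • x = (c : ℂ) • x := fun x => (Complex.coe_smul c x).symm
    rw [h v, map_smul, ← h, map_smul, h, map_smul, ← h, RingHom.id_apply]

theorem cj_spec (Θ : T.V ≃ₗ[ℂ] T.V) (A : Module.End ℝ T.V) (v : T.V) :
    Θ (cj Θ A v) = A (Θ v) := Θ.apply_symm_apply _

end n20_aux

open n20_aux in
theorem tn20 : S_n4 → S_n19 → S_n20 := by
  intro h4 h19 T m D Γ hm hC
  haveI : NeZero m := ⟨by omega⟩
  obtain ⟨H1, H2⟩ := h19 h4 T m D hm
  obtain ⟨Y, hYn, hYc, hYd⟩ := exY Γ.S Γ.neg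
  set gY : (ZMod m)ˣ → Set (ZMod m)ˣ := fun g => {s | ∃ t ∈ Y, s = g * t} with hgY
  have hgn : ∀ g, ∀ s ∈ gY g, -s ∈ gY g := by
    rintro g s ⟨t, ht, rfl⟩
    exact ⟨-t, hYn t ht, by rw [mul_neg]⟩
  haveI : Fintype Γ.S := Fintype.ofFinite _
  obtain ⟨K1, K2⟩ := H2 Γ.S (fun g => gY g) (fun g => hgn g)
    (fun s => by
      obtain ⟨g, hg, t, ht, h⟩ := hYc s
      exact ⟨⟨g, hg⟩, t, ht, h⟩)
    (fun g g' hgg' => by
      rw [Set.disjoint_left]
      rintro s ⟨t, ht, h⟩ ⟨t', ht', h'⟩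
      apply hgg'
      exact Subtype.ext (hYd g g.2 g' g'.2 t ht t' ht' (by rw [← h, ← h'])))
  set E : (ZMod m)ˣ → Module.End ℝ T.V := fun g => ep D (gY g) with hE
  have e3 : ∀ g, ∀ X : Module.End ℝ T.V, (∀ v, X (D.Z v) = D.Z (X v)) → E g * X = X * E g :=
    fun g => (H1 (gY g) (hgn g)).2.2.1
  have e4 : ∀ g, E g * E g = E g := fun g => (H1 (gY g) (hgn g)).2.2.2.1
  have e5 : ∀ g u v, D.ψ (E g u) v = D.ψ u (E g v) := fun g => (H1 (gY g) (hgn g)).2.2.2.2.1
  have e6 : ∀ g, E g ∈ Submodule.span ℝ (Set.range fun k : ℕ => D.ZR ^ k) :=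
    fun g => (H1 (gY g) (hgn g)).2.2.2.2.2.1
  have e7 : ∀ g, ∀ h ∈ Γ.S, ∀ v, Γ.Θ h (E (h * g) v) = E g (Γ.Θ h v) := by
    intro g h hh v
    have h1 := (H1 (gY g) (hgn g)).2.2.2.2.2.2 Γ h hh v
    have h2 : {s | ∃ t ∈ gY g, s = h * t} = gY (h * g) := by
      ext s
      constructor
      · rintro ⟨t, ⟨u, hu, rfl⟩, rfl⟩
        exact ⟨u, hu, (mul_assoc _ _ _).symm⟩
      · rintro ⟨u, hu, rfl⟩
        exact ⟨g * u, ⟨u, hu, rfl⟩, mul_assoc _ _ _⟩
    rw [h2] at h1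
    exact h1
  have eZ : ∀ g v, E g (D.Z v) = D.Z (E g v) := by
    intro g v
    have h1 := e3 g D.ZR (fun v => rfl)
    exact LinearMap.congr_fun h1 v
  refine ⟨E, ?_, e6, ?_⟩
  · have h1 : ∑ᶠ g : (Γ.S : Set (ZMod m)ˣ), E g = ∑ᶠ g ∈ (Γ.S : Set (ZMod m)ˣ), E g :=
      finsum_set_coe_eq_finsum_mem _
    have h2 : ∑ᶠ g : Γ.S, E g = ∑ g : Γ.S, E g := finsum_eq_sum_of_fintype _
    calc ∑ᶠ g ∈ Γ.S, E g = ∑ᶠ g : Γ.S, E g := h1.symm
      _ = ∑ g : Γ.S, E g := h2
      _ = 1 := K1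
  · intro A hA
    set B : (ZMod m)ˣ → Module.End ℝ T.V := fun g => cj (Γ.Θ g) A with hB
    have hBsu : ∀ g ∈ Γ.S, IsSU D (B g) := fun g hg => hC.su g hg A hA (B g)
      fun v => cj_spec _ _ _
    have hBE : ∀ g ∈ Γ.S, ∀ g', E g' * B g = B g * E g' := fun g hg g' =>
      e3 g' (B g) (hBsu g hg).1.1
    refine ⟨∑ g : Γ.S, B g * E g, ?_, ?_, ?_⟩
    · exact isSU_sum D _ _ fun g _ => isSU_mul D (hBsu g g.2) (e6 g) (eZ g) (e5 g)
        (hBE g g.2 g)
    · intro h hh v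
      have h1 : ∀ g : Γ.S, (B g * E g) (Γ.Θ h v) =
          Γ.Θ h ((B (g * h) * E (g * h)) v) := by
        intro g
        rw [Module.End.mul_apply, Module.End.mul_apply, ← e7 g h hh v, mul_comm h (g : (ZMod m)ˣ)]
        apply (Γ.Θ g).injective
        have h2 := hC.mul g g.2 h hh A hA.1.1 (Γ.Θ (g * h) (E (g * h) v))
        rw [LinearEquiv.symm_apply_apply] at h2
        rw [hB]
        simp only
        rw [cj_spec, h2]
        rfl
      rw [LinearMap.sum_apply, LinearMap.sum_apply, map_sum]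
      calc ∑ g : Γ.S, (B g * E g) (Γ.Θ h v)
          = ∑ g : Γ.S, Γ.Θ h ((B (g * h) * E (g * h)) v) := Finset.sum_congr rfl fun g _ => h1 g
        _ = ∑ g : Γ.S, Γ.Θ h ((B g * E g) v) :=
          Fintype.sum_equiv (Equiv.mulRight (⟨h, hh⟩ : Γ.S)) _ _ fun g => rfl
    · intro g hg v
      have h1 : E g * (∑ g' : Γ.S, B g' * E g') = B g * E g := by
        rw [Finset.mul_sum]
        rw [Finset.sum_eq_single (⟨g, hg⟩ : Γ.S)]
        · rw [← mul_assoc, hBE g hg g, mul_assoc, e4]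
        · intro g' _ hne
          have h2 : E g * E g' = 0 := K2 ⟨g, hg⟩ g' (Ne.symm hne)
          rw [← mul_assoc, hBE g' g'.2 g, mul_assoc, h2, mul_zero]
        · intro h
          exact absurd (Finset.mem_univ _) h
      have h3 : E g ((∑ g' : Γ.S, B g' * E g') v) = B g (E g v) := LinearMap.congr_fun h1 v
      rw [h3]
      exact cj_spec _ _ _

end SEN
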