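import Pool.Agent.Lib.SE.N.Spec
import Pool.Agent.Lib.SE.W.Lie

/-!
# PROJECT SE-N, module n21: the bigger variety
-/

set_option autoImplicit false

open Module

noncomputable section

namespace SEN

open HC HC.E HC.SE SEB SEQ SER SES SEG SE

namespace n21_aux

/-- A nonzero multiple is in the lattice. -/
def RL (T : AV) (v : T.V) : Prop := ∃ k : ℕ, k ≠ 0 ∧ k • v ∈ T.L

variable {T : AV}

lemma RL_of_mem {v : T.V} (h : v ∈ T.L) : RL T v := ⟨1, one_ne_zero, by rwa [one_smul]⟩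

lemma RL_zero : RL T 0 := RL_of_mem T.L.zero_mem

lemma RL_add {v w : T.V} (hv : RL T v) (hw : RL T w) : RL T (v + w) := by
  obtain ⟨N, hN, h1⟩ := hv
  obtain ⟨M, hM, h2⟩ := hw
  refine ⟨N * M, mul_ne_zero hN hM, ?_⟩
  rw [smul_add]
  refine add_mem ?_ ?_
  · rw [mul_comm, mul_smul]
    exact T.L.smul_of_tower_mem M h1
  · rw [mul_smul]
    exact T.L.smul_of_tower_mem N h2

lemma RL_sum {ι : Type} (s : Finset ι) (f : ι → T.V) (h : ∀ i ∈ s, RL T (f i)) :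
    RL T (∑ i ∈ s, f i) := by
  classical
  induction s using Finset.induction_on with
  | empty => rw [Finset.sum_empty]; exact RL_zero
  | insert a s ha ih =>
    rw [Finset.sum_insert ha]
    exact RL_add (h a (Finset.mem_insert_self a s))
      (ih fun i hi => h i (Finset.mem_insert_of_mem hi))

/-- If `k • v` is rational so is `v`. -/
lemma RL_of_smul {v : T.V} {k : ℕ} (hk : k ≠ 0) (h : RL T (k • v)) : RL T v := by
  obtain ⟨N, hN, h1⟩ := h
  exact ⟨N * k, mul_ne_zero hN hk, by rwa [mul_smul]⟩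

/-- A uniform denominator. -/
lemma unif {T T' : AV} (Φ : T'.V →ₗ[ℂ] T.V) (h : ∀ v ∈ T'.L, RL T (Φ v)) :
    ∃ k : ℕ, k ≠ 0 ∧ ∀ v ∈ T'.L, k • Φ v ∈ T.L := by
  classical
  have hfin : Module.Finite ℤ T'.L := ZLattice.module_finite ℝ T'.L
  obtain ⟨s, hs⟩ := (Submodule.fg_top T'.L).1 hfin.fg_top
  have hsL : ∀ x ∈ s, x ∈ T'.L := by
    intro x hx
    rw [← hs]
    exact Submodule.subset_span hx
  choose! K hK0 hK using h
  refine ⟨∏ x ∈ s, K x, Finset.prod_ne_zero_iff.2 fun x hx => hK0 x (hsL x hx), ?_⟩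
  intro v hv
  rw [← hs] at hv
  induction hv using Submodule.span_induction with
  | mem x hx =>
    have hx' : x ∈ s := hx
    rw [← Finset.mul_prod_erase s K hx', mul_comm, mul_smul]
    exact T.L.smul_of_tower_mem _ (hK x (hsL x hx'))
  | zero =>
    rw [map_zero, smul_zero]
    exact T.L.zero_mem
  | add x y _ _ hx hy =>
    rw [map_add, smul_add]
    exact add_mem hx hy
  | smul a x _ hx =>
    rw [map_zsmul, smul_comm]
    exact T.L.smul_mem a hx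

/-- The inverse of `ψ` preserves rational vectors. -/
lemma RL_symm (hI : E.S_IsoInv) {A T : AV} {N : ℕ} {B : Fin N → AV}
    (ψ : T.V ≃ₗ[ℂ] A.V × (∀ n, (B n).V))
    (hψ : ∀ v ∈ T.L, ∃ k : ℕ, k ≠ 0 ∧ k • (ψ v).1 ∈ A.L ∧ ∀ n, k • (ψ v).2 n ∈ (B n).L)
    (a : A.V) (b : ∀ n, (B n).V) (ha : RL A a) (hb : ∀ n, RL (B n) (b n)) :
    RL T (ψ.symm (a, b)) := by
  classical
  obtain ⟨T0, θ, hθ⟩ := Lie_aux.prodE N A B
  have h1 : ∀ v ∈ T.L, ∃ k : ℕ, k ≠ 0 ∧ k • (ψ ≪≫ₗ θ.symm) v ∈ T0.L := by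
    intro v hv
    obtain ⟨k, hk, h2, h3⟩ := hψ v hv
    refine ⟨k, hk, ?_⟩
    rw [hθ, map_nsmul, LinearEquiv.trans_apply, LinearEquiv.apply_symm_apply]
    exact ⟨h2, h3⟩
  have h2 := hI T T0 (ψ ≪≫ₗ θ.symm) h1
  obtain ⟨ka, hka, ha⟩ := ha
  choose kb hkb hb using hb
  have h3 : (ka * ∏ n, kb n) ≠ 0 :=
    mul_ne_zero hka (Finset.prod_ne_zero_iff.2 fun n _ => hkb n)
  refine RL_of_smul h3 ?_
  have h4 : θ.symm ((ka * ∏ n, kb n) • (a, b)) ∈ T0.L := by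
    rw [hθ, LinearEquiv.apply_symm_apply]
    refine ⟨?_, fun n => ?_⟩
    · show (ka * ∏ n, kb n) • a ∈ A.L
      rw [mul_comm, mul_smul]
      exact A.L.smul_of_tower_mem _ ha
    · show (ka * ∏ n, kb n) • b n ∈ (B n).L
      rw [← Finset.mul_prod_erase Finset.univ kb (Finset.mem_univ n), mul_comm (kb n), ← mul_assoc,
        mul_smul]
      exact (B n).L.smul_of_tower_mem _ (hb n)
  obtain ⟨M, hM, h5⟩ := h2 _ h4
  refine ⟨M, hM, ?_⟩
  have h6 : (ψ ≪≫ₗ θ.symm).symm (θ.symm ((ka * ∏ n, kb n) • (a, b))) =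
      (ka * ∏ n, kb n) • ψ.symm (a, b) := by
    rw [← map_nsmul ψ.symm, LinearEquiv.symm_apply_eq, LinearEquiv.trans_apply,
      LinearEquiv.apply_symm_apply]
  rwa [h6] at h5

end n21_aux

open n21_aux in
theorem tn21 : S_n21 := by
  classical
  intro hI A T q N P m D Γ j ψ E hm hE hψ
  have hne : ∀ i, NeZero (m i) := fun i => ⟨by have := hm i; omega⟩
  let 𝓘 : Type := Σ n : Fin N, (Γ (j n)).S
  have hfi : ∀ n : Fin N, Fintype (Γ (j n)).S := fun n => by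
    haveI := hne (j n)
    exact Fintype.ofFinite _
  have : Fintype 𝓘 := inferInstanceAs (Fintype (Σ n : Fin N, (Γ (j n)).S))
  let e : Fin (Fintype.card 𝓘) ≃ 𝓘 := (Fintype.equivFin 𝓘).symm
  obtain ⟨T', θ, hθ⟩ := Lie_aux.prodE (Fintype.card 𝓘) A (fun n' => P (j (e n').1))
  let c : (∀ n', (P (j (e n').1)).V) ≃ₗ[ℂ] (∀ x : 𝓘, (P (j x.1)).V) :=
    LinearEquiv.piCongrLeft ℂ (fun x : 𝓘 => (P (j x.1)).V) e
  have hc : ∀ y n', c y (e n') = y n' := by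
    intro y n'
    exact Equiv.piCongrLeft_apply_apply (fun x : 𝓘 => (P (j x.1)).V) e y n'
  let S : (∀ x : 𝓘, (P (j x.1)).V) →ₗ[ℂ] (∀ n, (P (j n)).V) :=
    LinearMap.pi fun n => ∑ g : (Γ (j n)).S,
      (((Γ (j n)).Θ g).symm : (P (j n)).V →ₗ[ℂ] (P (j n)).V) ∘ₗ
        (LinearMap.proj (⟨n, g⟩ : 𝓘) : (∀ x : 𝓘, (P (j x.1)).V) →ₗ[ℂ] (P (j n)).V)
  have hS : ∀ y n, S y n = ∑ g : (Γ (j n)).S, ((Γ (j n)).Θ g).symm (y ⟨n, g⟩) := by
    intro y n
    simp only [S, LinearMap.pi_apply, LinearMap.sum_apply]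
    rfl
  let Φ : T'.V →ₗ[ℂ] T.V :=
    (ψ.symm : (A.V × (∀ n, (P (j n)).V)) →ₗ[ℂ] T.V) ∘ₗ
      (LinearMap.prodMap LinearMap.id (S ∘ₗ (c : (∀ n', (P (j (e n').1)).V) →ₗ[ℂ] _))) ∘ₗ
        (θ : T'.V →ₗ[ℂ] _)
  have hΦ : ∀ v, Φ v = ψ.symm ((θ v).1, S (c (θ v).2)) := fun v => rfl
  let Ψ : T.V →ₗ[ℝ] T'.V :=
    { toFun := fun v => θ.symm ((ψ v).1, fun n' =>
        (Γ (j (e n').1)).Θ ((e n').2 : (ZMod (m (j (e n').1)))ˣ)
          (E (j (e n').1) ((e n').2 : (ZMod (m (j (e n').1)))ˣ) ((ψ v).2 (e n').1)))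
      map_add' := by
        intro v w
        rw [← map_add, map_add ψ]
        congr 1
        refine Prod.ext rfl (funext fun n' => ?_)
        show (Γ (j (e n').1)).Θ _ (E (j (e n').1) _ ((ψ v).2 (e n').1 + (ψ w).2 (e n').1)) = _
        rw [map_add, map_add]
        rfl
      map_smul' := by
        intro r v
        have h1 : ψ (r • v) = (r : ℂ) • ψ v := by
          rw [← map_smul]
          congr 1
        have h2 : ∀ w : T'.V, r • w = (r : ℂ) • w := fun w => (Complex.coe_smul r w).symm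
        rw [RingHom.id_apply, h2, ← map_smul, h1]
        congr 1
        refine Prod.ext rfl (funext fun n' => ?_)
        show (Γ (j (e n').1)).Θ _ (E (j (e n').1) _ ((r : ℂ) • (ψ v).2 (e n').1)) =
          (r : ℂ) • (Γ (j (e n').1)).Θ _ (E (j (e n').1) _ ((ψ v).2 (e n').1))
        rw [← map_smul, Complex.coe_smul, Complex.coe_smul, map_smul] }
  have hΨ : ∀ v, θ (Ψ v) = ((ψ v).1, fun n' =>
        (Γ (j (e n').1)).Θ ((e n').2 : (ZMod (m (j (e n').1)))ˣ)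
          (E (j (e n').1) ((e n').2 : (ZMod (m (j (e n').1)))ˣ) ((ψ v).2 (e n').1))) :=
    fun v => θ.apply_symm_apply _
  refine ⟨T', Fintype.card 𝓘, fun n' => (e n').1, fun n' => (e n').2, θ, Φ, Ψ,
    fun n' => (e n').2.2, fun v hv => (hθ v).1 hv, ?_, ?_, hΨ⟩
  · refine unif Φ fun v hv => ?_
    obtain ⟨h1, h2⟩ := (hθ v).1 hv
    rw [hΦ]
    refine RL_symm hI ψ hψ _ _ (RL_of_mem h1) fun n => ?_
    rw [hS]
    refine RL_sum _ _ fun g _ => ?_
    have h3 : c (θ v).2 ⟨n, g⟩ ∈ (P (j n)).L := by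
      obtain ⟨n', hn'⟩ := e.surjective ⟨n, g⟩
      have h4 : ∀ x : 𝓘, e n' = x → c (θ v).2 x ∈ (P (j x.1)).L := by
        intro x hx
        subst hx
        rw [hc]
        exact h2 n'
      exact h4 ⟨n, g⟩ hn'
    exact hI (P (j n)) (P (j n)) ((Γ (j n)).Θ g)
      (fun w hw => (Γ (j n)).rat g g.2 w hw) _ h3
  · intro v
    rw [hΦ, LinearEquiv.symm_apply_eq, hΨ]
    refine Prod.ext rfl (funext fun n => ?_)
    show S (c _) n = (ψ v).2 n
    rw [hS]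
    have h1 : ∀ x : 𝓘, c (fun n' =>
        (Γ (j (e n').1)).Θ ((e n').2 : (ZMod (m (j (e n').1)))ˣ)
          (E (j (e n').1) ((e n').2 : (ZMod (m (j (e n').1)))ˣ) ((ψ v).2 (e n').1))) x =
        (Γ (j x.1)).Θ (x.2 : (ZMod (m (j x.1)))ˣ) (E (j x.1) x.2 ((ψ v).2 x.1)) := by
      intro x
      obtain ⟨n', rfl⟩ := e.surjective x
      rw [hc]
    have h2 : ∀ g : (Γ (j n)).S, ((Γ (j n)).Θ g).symm (c (fun n' =>
        (Γ (j (e n').1)).Θ ((e n').2 : (ZMod (m (j (e n').1)))ˣ)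
          (E (j (e n').1) ((e n').2 : (ZMod (m (j (e n').1)))ˣ) ((ψ v).2 (e n').1))) ⟨n, g⟩) =
        E (j n) g ((ψ v).2 n) := by
      intro g
      rw [h1]
      exact LinearEquiv.symm_apply_apply _ _
    rw [Finset.sum_congr rfl fun g _ => h2 g]
    have h3 : ∑ᶠ g ∈ (Γ (j n)).S, E (j n) g = ∑ g : (Γ (j n)).S, E (j n) g := by
      rw [← finsum_eq_sum_of_fintype]
      exact (finsum_set_coe_eq_finsum_mem (f := E (j n))
        ((Γ (j n)).S : Set (ZMod (m (j n)))ˣ)).symm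
    have h4 := hE (j n)
    rw [h3] at h4
    calc ∑ g : (Γ (j n)).S, E (j n) g ((ψ v).2 n)
        = (∑ g : (Γ (j n)).S, E (j n) g) ((ψ v).2 n) := by rw [LinearMap.sum_apply]
      _ = (ψ v).2 n := by rw [h4]; rfl

end SEN
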