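import Pool.Agent.Lib.SE.N.Spec
import Pool.Agent.Lib.SE.W.All
import Pool.Agent.Lib.SE.Big.ToBig

/-!
# PROJECT SE-N, module n22: the theorem for classes killed by the symmetrised algebra (helper45, for helper74)
-/

set_option autoImplicit false

open Module

noncomputable section

namespace SEN

open HC HC.E HC.SE SEB SEQ SER SES SEG SE

namespace n22_aux

open SE.Lie_aux

theorem isSU_zero {T : AV} {m : ℕ} (D : Cyc T m) : IsSU D 0 := by
  refine ⟨⟨fun v => ?_, fun u v => ?_⟩, fun k => ?_⟩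
  · rw [LinearMap.zero_apply, LinearMap.zero_apply, map_zero]
  · rw [LinearMap.zero_apply, LinearMap.zero_apply, map_zero, map_zero, LinearMap.zero_apply,
      add_zero]
  · rw [zero_mul, map_zero]

/-- The inverse isogeny. -/
theorem inv_iso {A T : AV} {q N : ℕ} {J : Fin q → AV} {j : Fin N → Fin q}
    (ψ : T.V ≃ₗ[ℂ] A.V × (∀ n, (J (j n)).V))
    (hψ : ∀ v ∈ T.L, ∃ k : ℕ, k ≠ 0 ∧ k • (ψ v).1 ∈ A.L ∧ ∀ n, k • (ψ v).2 n ∈ (J (j n)).L) :
    ∀ w : A.V × (∀ n, (J (j n)).V), w.1 ∈ A.L → (∀ n, w.2 n ∈ (J (j n)).L) →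
      ∃ k : ℕ, k ≠ 0 ∧ k • ψ.symm w ∈ T.L := by
  have hIso : E.S_IsoInv := HC.E.tIsoInv
  obtain ⟨Y, θ, hθ⟩ := prodE N A (fun n => J (j n))
  have h1 := hIso T Y (ψ ≪≫ₗ θ.symm) (fun v hv => by
    obtain ⟨k, hk, h2, h3⟩ := hψ v hv
    refine ⟨k, hk, ?_⟩
    rw [hθ]
    show (θ (k • θ.symm (ψ v))).1 ∈ A.L ∧ ∀ n, (θ (k • θ.symm (ψ v))).2 n ∈ (J (j n)).L
    rw [map_nsmul, LinearEquiv.apply_symm_apply]
    exact ⟨h2, h3⟩)
  intro w h2 h3
  obtain ⟨k, hk, h4⟩ := h1 (θ.symm w) (by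
    rw [hθ, LinearEquiv.apply_symm_apply]
    exact ⟨h2, h3⟩)
  refine ⟨k, hk, ?_⟩
  have h5 : (ψ ≪≫ₗ θ.symm).symm (θ.symm w) = ψ.symm w := by
    show ψ.symm (θ (θ.symm w)) = ψ.symm w
    rw [LinearEquiv.apply_symm_apply]
  rw [h5] at h4
  exact h4

/-- What commutes with `Z` commutes with combinations of the powers of `Z`. -/
theorem comm_span {T : AV} {m : ℕ} (D : Cyc T m) {Y : Module.End ℝ T.V}
    (hY : ∀ v, Y (D.Z v) = D.Z (Y v)) {E : Module.End ℝ T.V}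
    (hE : E ∈ Submodule.span ℝ (Set.range fun k : ℕ => D.ZR ^ k)) (v : T.V) :
    Y (E v) = E (Y v) := by
  have h : Y * E = E * Y := by
    refine Submodule.span_induction (p := fun E _ => Y * E = E * Y) ?_ ?_ ?_ ?_ hE
    · rintro _ ⟨k, rfl⟩
      exact ToBig_aux.comm_pow D hY k
    · rw [mul_zero, zero_mul]
    · intro E E' _ _ h h'
      rw [mul_add, add_mul, h, h']
    · intro r E _ h
      rw [mul_smul_comm, smul_mul_assoc, h]
  exact congrArg (fun X : Module.End ℝ T.V => X v) h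

theorem sum_mem {T : AV} {d n : ℕ} (x : Fin n → ℂ) (c : Fin n → Hlg T d)
    (h : ∀ k, HC.SE.Alg2 T d (c k)) : HC.SE.Alg2 T d (∑ k, x k • c k) := by
  have h0 : HC.SE.Alg2 T d (0 : Hlg T d) := cl_alg2.base Alg.zero
  have h1 : ∀ s : Finset (Fin n), HC.SE.Alg2 T d (∑ k ∈ s, x k • c k) := by
    intro s
    classical
    induction s using Finset.induction_on with
    | empty => rw [Finset.sum_empty]; exact h0
    | insert j s hj ih =>
      rw [Finset.sum_insert hj]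
      exact cl_alg2.add (cl_alg2.smul _ (h j)) ih
  exact h1 Finset.univ

end n22_aux

open n22_aux SE.Lie_aux

theorem tn22 : S_n16 → S_n17 → S_n18 → S_n20 → S_n21 → S_n25 → S_n26 → S_n22 := by
  intro h16 h17 h18 h20 h21 h25 h26 A T q N P m D Γ j ψ hA hm hD hCj hψ d c hc hK
  choose E hE1 hE2 hE3 using fun i => h20 (P i) (m i) (D i) (Γ i) (hm i) (hCj i)
  obtain ⟨T', N', n₀, g₀, ψ', Φ, Ψ, hg, hψ', hΦ, hΦΨ, hΨ⟩ :=
    h21 HC.E.tIsoInv A T q N P m D Γ j ψ E hm hE1 hψ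
  have hψ2 : ∀ v ∈ T'.L, ∃ k : ℕ, k ≠ 0 ∧ k • (ψ' v).1 ∈ A.L ∧
      ∀ n', k • (ψ' v).2 n' ∈ (P (j (n₀ n'))).L := fun v hv =>
    ⟨1, one_ne_zero, by rw [one_smul]; exact (hψ' v hv).1, fun n' => by
      rw [one_smul]; exact (hψ' v hv).2 n'⟩
  have hi := inv_iso (j := fun n' => j (n₀ n')) ψ' hψ2
  obtain ⟨n, x, c', hcs, hcr, hck⟩ := h16 T' d (psh Ψ c)
  -- (1) the elements of `su`
  have hsu0 : ∀ B : Tup P, (∀ i, IsSU (D i) (B i)) → ∀ a,
      lieAct (EE (j := fun n' => j (n₀ n')) ψ' 0 B) (psh Ψ c) a = 0 := by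
    intro B hB
    choose B₀ hB1 hB2 hB3 using fun i => hE3 i (B i) (hB i)
    refine h26.1 T T' d Ψ (EE ψ 0 B₀) _ c (fun v => ?_) (hK B₀ hB1 hB2)
    apply ψ'.injective
    rw [psi_EE, hΨ, hΨ, psi_EE]
    refine Prod.ext rfl (funext fun n' => ?_)
    exact (hB3 (j (n₀ n')) (g₀ n') (hg n') ((ψ v).2 (n₀ n'))).symm
  have hsu : ∀ k, ∀ B : Tup P, (∀ i, IsSU (D i) (B i)) →
      EE (j := fun n' => j (n₀ n')) ψ' 0 B ∈ HC.Lc3.kill (c' k) := by
    intro k B hB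
    have h1 : ∀ i, ∀ X ∈ Submodule.span ℝ {Y | RatEnd (P i) Y ∧ IsSU (D i) Y},
        (Pi.single i X : Tup P) ∈ (HC.Lc3.kill (c' k)).comap
          (EL (j := fun n' => j (n₀ n')) ψ' ∘ₗ LinearMap.inr ℝ (Module.End ℝ A.V) (Tup P)) := by
      intro i X hX
      have h2 : Submodule.span ℝ {Y | RatEnd (P i) Y ∧ IsSU (D i) Y} ≤
          ((HC.Lc3.kill (c' k)).comap (EL (j := fun n' => j (n₀ n')) ψ' ∘ₗ
            LinearMap.inr ℝ (Module.End ℝ A.V) (Tup P))).comap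
            (LinearMap.single ℝ (fun i => Module.End ℝ (P i).V) i) := by
        refine Submodule.span_le.2 ?_
        rintro Y ⟨hY1, hY2⟩
        have h3 : ∀ i', RatEnd (P i') ((Pi.single i Y : Tup P) i') ∧
            IsSU (D i') ((Pi.single i Y : Tup P) i') := by
          intro i'
          by_cases h : i' = i
          · subst h
            rw [Pi.single_eq_same]
            exact ⟨hY1, hY2⟩
          · rw [Pi.single_eq_of_ne h]
            exact ⟨rat_zero, isSU_zero _⟩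
        exact hck _ (rat_EE ψ' hψ2 hi rat_zero fun i' => (h3 i').1)
          (hsu0 _ fun i' => (h3 i').2) k
      exact h2 hX
    have h4 : B ∈ (HC.Lc3.kill (c' k)).comap
        (EL (j := fun n' => j (n₀ n')) ψ' ∘ₗ LinearMap.inr ℝ (Module.End ℝ A.V) (Tup P)) := by
      rw [← Finset.univ_sum_single B]
      exact Submodule.sum_mem _ fun i _ => h1 i (B i) (h17 (P i) (m i) (D i) (B i) (hB i))
    exact h4
  -- (2) the Hodge Lie algebra
  obtain ⟨n₁, y, X, Y, hr, hY, hsum, hkl⟩ := h18 A T q N P m D Γ j ψ hψ d c hc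
  have hX : ∀ s, ∀ a, lieAct (EE (j := fun n' => j (n₀ n')) ψ' (X s) (Y s)) (psh Ψ c) a = 0 := by
    intro s
    refine h26.1 T T' d Ψ (EE ψ (X s) (Y s)) _ c (fun v => ?_) (hkl s)
    apply ψ'.injective
    rw [psi_EE, hΨ, hΨ, psi_EE]
    refine Prod.ext rfl (funext fun n' => ?_)
    change Y s (j (n₀ n')) ((Γ (j (n₀ n'))).Θ (g₀ n') (E (j (n₀ n')) (g₀ n') ((ψ v).2 (n₀ n')))) =
      (Γ (j (n₀ n'))).Θ (g₀ n') (E (j (n₀ n')) (g₀ n') (Y s (j (n₀ n')) ((ψ v).2 (n₀ n'))))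
    rw [(hY s (j (n₀ n'))).1 (g₀ n') (hg n'),
      comm_span (D (j (n₀ n'))) (hY s (j (n₀ n'))).2 (hE2 (j (n₀ n')) (g₀ n'))]
  have hI : ∀ k, mulI T' ∈ HC.Lc3.kill (c' k) := by
    intro k
    have h1 : mulI T' = ∑ s, y s • EE (j := fun n' => j (n₀ n')) ψ' (X s) (Y s) := by
      have h2 : mulI T' = EL (j := fun n' => j (n₀ n')) ψ' (mulI A, JT P) :=
        (EE_mulI (j := fun n' => j (n₀ n')) ψ').symm
      rw [h2, hsum, map_sum]
      exact Finset.sum_congr rfl fun s _ => by rw [map_smul]; rfl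
    rw [h1]
    exact Submodule.sum_mem _ fun s _ => Submodule.smul_mem _ _
      (hck _ (rat_EE ψ' hψ2 hi (hr s).1 (hr s).2) (hX s) k)
  -- (3) the components are algebraic
  have halg : ∀ k, HC.SE.Alg2 T' d (c' k) := by
    intro k
    refine thmKg _ cl_alg2 A T' q N' P (fun n' => j (n₀ n')) m (fun i h => ?_)
      (fun i => (D i).Z) (fun i => (D i).ψ) hD ψ' hA hψ2 d (c' k) (h25 T' d (c' k) (hcr k) (hI k)) ?_
    · have := hm i
      omega
    · intro U W hU hW R hR a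
      have h1 : R = EE (j := fun n' => j (n₀ n')) ψ' 0 (U * W - W * U) := ext_psi ψ' fun v => by
        rw [hR v, psi_EE]
        rfl
      rw [h1]
      exact hsu k (U * W - W * U) (fun i => ToBig_aux.isSU_comm (D i) (hU i) (hW i)) a
  have h1 : HC.SE.Alg2 T' d (psh Ψ c) := by
    rw [hcs]
    exact sum_mem x c' halg
  have h2 := h26.2.2 T T' d Φ (psh Ψ c) hΦ h1
  rw [h26.2.1 T T' d Ψ Φ c hΦΨ] at h2
  exact h2

end SEN
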