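import Pool.Agent.Lib.SE.N.Spec
import Pool.Agent.Lib.SE.Big.Perf
import Pool.Agent.Lib.SE.Big.Tr
import Pool.Agent.Lib.SE.Big.Real
import Pool.Agent.Lib.SE.Big.Bas
import Pool.Agent.Lib.SE.Big.Pj
import Pool.Agent.Lib.SE.Big.ToBig
import Pool.Agent.Lib.SE.Q.ThQ
import Pool.Agent.Lib.SE.W.Lie

set_option autoImplicit false

open Module

noncomputable section

namespace SEN

open HC HC.E HC.SE SEB SEQ SER SES SEG SE

namespace n23_aux

/-! ### `su` is spanned by the commutators of `u` -/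

section One

variable {T : AV} {m : ℕ} (D : Cyc T m)

lemma zet_pow (hm : 3 ≤ m) (t : (ZMod m)ˣ) : zet m t ^ m = 1 := by
  unfold zet
  rw [← pow_mul, Nat.mul_comm, pow_mul, (Complex.isPrimitiveRoot_exp m (by omega)).pow_eq_one,
    one_pow]

lemma zet_nz (hm : 3 ≤ m) (t : (ZMod m)ˣ) : zet m t ≠ 0 := by
  intro h
  have h1 := zet_pow hm t
  rw [h, zero_pow (by omega)] at h1
  exact zero_ne_one h1

lemma zet_inj (hm : 3 ≤ m) (s t : (ZMod m)ˣ) (h : zet m s = zet m t) : s = t := by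
  have : NeZero m := ⟨by omega⟩
  have h1 := (Complex.isPrimitiveRoot_exp m (by omega)).pow_inj (ZMod.val_lt (s : ZMod m))
    (ZMod.val_lt (t : ZMod m)) h
  exact Units.ext (ZMod.val_injective m h1)

lemma sumz (hm : 3 ≤ m) (s t : (ZMod m)ˣ) :
    (t = s → ∑ k ∈ Finset.range m, (zet m s)⁻¹ ^ k * zet m t ^ k = m) ∧
    (t ≠ s → ∑ k ∈ Finset.range m, (zet m s)⁻¹ ^ k * zet m t ^ k = 0) := by
  have h0 := zet_nz hm s
  constructor
  · rintro rfl
    have e : ∀ k ∈ Finset.range m, (zet m t)⁻¹ ^ k * zet m t ^ k = 1 := by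
      intro k _
      rw [← mul_pow, inv_mul_cancel₀ h0, one_pow]
    rw [Finset.sum_congr rfl e, Finset.sum_const, Finset.card_range, nsmul_eq_mul, mul_one]
  · intro hts
    have e : ∀ k ∈ Finset.range m, (zet m s)⁻¹ ^ k * zet m t ^ k =
        ((zet m s)⁻¹ * zet m t) ^ k := by
      intro k _
      rw [mul_pow]
    rw [Finset.sum_congr rfl e]
    have hx : (zet m s)⁻¹ * zet m t ≠ 1 := by
      intro h1
      apply hts
      apply zet_inj hm
      have h2 : zet m s * ((zet m s)⁻¹ * zet m t) = zet m s * 1 := by rw [h1]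
      rw [← mul_assoc, mul_inv_cancel₀ h0, one_mul, mul_one] at h2
      exact h2
    rw [geom_sum_eq hx, mul_pow, inv_pow, zet_pow hm, zet_pow hm, inv_one, mul_one, sub_self,
      zero_div]

/-- A real operator of rank one, averaged over the powers of `Z`. -/
def QQ (u w : T.V) : Module.End ℝ T.V :=
  ∑ k ∈ Finset.range m, (D.ψ ((D.Z ^ k) u)).smulRight ((D.Z ^ k) w)

lemma QQ_apply (u w v : T.V) :
    QQ D u w v = ∑ k ∈ Finset.range m, D.ψ ((D.Z ^ k) u) v • (D.Z ^ k) w := by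
  rw [QQ, LinearMap.sum_apply]
  rfl

lemma QQ_Z (hm : 3 ≤ m) (u w v : T.V) : QQ D u w (D.Z v) = D.Z (QQ D u w v) := by
  rw [QQ_apply, QQ_apply, map_sum]
  set g : ℕ → T.V := fun k => D.ψ ((D.Z ^ k) u) (D.Z v) • (D.Z ^ k) w with hg
  have e1 : ∀ k, D.Z (D.ψ ((D.Z ^ k) u) v • (D.Z ^ k) w) = g (k + 1) := by
    intro k
    rw [LinearMap.map_smul_of_tower, hg]
    simp only
    rw [pow_succ', Module.End.mul_apply, Module.End.mul_apply, D.inv]
  rw [Finset.sum_congr rfl fun k _ => e1 k]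
  have e3 : g m = g 0 := by
    rw [hg]
    simp only
    rw [(tPj T m D hm).1, pow_zero]
  have e4 := Finset.sum_range_succ g m
  have e5 := Finset.sum_range_succ' g m
  rw [e4, e3] at e5
  exact add_right_cancel e5

lemma QQ_psi (u w x y : T.V) : D.ψ (QQ D u w x) y + D.ψ x (QQ D w u y) = 0 := by
  rw [QQ_apply, QQ_apply, map_sum, map_sum, LinearMap.sum_apply, ← Finset.sum_add_distrib]
  refine Finset.sum_eq_zero fun k _ => ?_
  rw [map_smul, LinearMap.smul_apply, map_smul, D.alt x ((D.Z ^ k) u), smul_eq_mul, smul_eq_mul]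
  ring

/-- A skew operator which commutes with `Z`. -/
def PP (u w : T.V) : Module.End ℝ T.V := QQ D u w + QQ D w u

lemma PP_mem (hm : 3 ≤ m) (u w : T.V) : PP D u w ∈ Lef T D.Z D.ψ := by
  refine ⟨fun v => ?_, fun x y => ?_⟩
  · rw [PP, LinearMap.add_apply, LinearMap.add_apply, QQ_Z D hm, QQ_Z D hm, map_add]
  · rw [PP, LinearMap.add_apply, LinearMap.add_apply, map_add, LinearMap.add_apply, map_add]
    have h1 := QQ_psi D u w x y
    have h2 := QQ_psi D w u x y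
    linarith

variable {D}

lemma aZ {t : (ZMod m)ˣ} {a : Frm T} (ha : a ∈ Ws D t) (w : T.V) (k : ℕ) :
    a ((D.Z ^ k) w) = zet m t ^ k * a w := by
  induction k with
  | zero => rw [pow_zero, pow_zero, one_mul]; rfl
  | succ k ih =>
    rw [pow_succ', Module.End.mul_apply, ha, ih, pow_succ']
    ring

lemma bZ (hm : 3 ≤ m) {s : (ZMod m)ˣ} {b : Frm T} (hb : b ∈ Ws D s) {u1 u2 : T.V}
    (hu : ∀ v, b v = (D.ψ u1 v : ℂ) + Complex.I * (D.ψ u2 v : ℂ)) (k : ℕ) :
    ∀ v, (D.ψ ((D.Z ^ k) u1) v : ℂ) + Complex.I * (D.ψ ((D.Z ^ k) u2) v : ℂ) =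
      (zet m s)⁻¹ ^ k * b v := by
  induction k with
  | zero =>
    intro v
    rw [pow_zero, pow_zero, one_mul, hu]
    rfl
  | succ k ih =>
    intro v
    obtain ⟨v', rfl⟩ := Real_aux.Zsurj D v
    rw [pow_succ' D.Z, Module.End.mul_apply, Module.End.mul_apply, D.inv, D.inv, ih v', hb v',
      pow_succ]
    have h0 := zet_nz hm s
    field_simp

lemma orth (hm : 3 ≤ m) {s t : (ZMod m)ˣ} (hts : t ≠ -s) {a b : Frm T} (ha : a ∈ Ws D t)
    (hb : b ∈ Ws D s) {u1 u2 : T.V}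
    (hu : ∀ v, b v = (D.ψ u1 v : ℂ) + Complex.I * (D.ψ u2 v : ℂ)) :
    a u1 + Complex.I * a u2 = 0 := by
  have h0 := zet_nz hm s
  set x : ℝ := ((zet m s)⁻¹).re
  set y : ℝ := ((zet m s)⁻¹).im
  have hz : (zet m s)⁻¹ = (x : ℂ) + (y : ℂ) * Complex.I := (Complex.re_add_im _).symm
  have h1 : ∀ v, D.ψ (D.Z u1) v = D.ψ (x • u1 - y • u2) v ∧
      D.ψ (D.Z u2) v = D.ψ (y • u1 + x • u2) v := by
    intro v
    have h2 := bZ hm hb hu 1 v
    rw [pow_one, pow_one, hu, hz] at h2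
    have h3 := congrArg Complex.re h2
    have h4 := congrArg Complex.im h2
    simp at h3 h4
    rw [map_sub, LinearMap.sub_apply, map_add, LinearMap.add_apply, map_smul, map_smul,
      map_smul, map_smul, LinearMap.smul_apply, LinearMap.smul_apply, LinearMap.smul_apply,
      LinearMap.smul_apply, smul_eq_mul, smul_eq_mul, smul_eq_mul, smul_eq_mul]
    constructor <;> linarith
  have h2 : D.Z u1 = x • u1 - y • u2 := Real_aux.nd2 D _ _ fun v => (h1 v).1
  have h3 : D.Z u2 = y • u1 + x • u2 := Real_aux.nd2 D _ _ fun v => (h1 v).2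
  have h4 := ha u1
  have h5 := ha u2
  rw [h2, map_sub, map_smul, map_smul, Complex.real_smul, Complex.real_smul] at h4
  rw [h3, map_add, map_smul, map_smul, Complex.real_smul, Complex.real_smul] at h5
  have h6 : zet m t * (a u1 + Complex.I * a u2) = (zet m s)⁻¹ * (a u1 + Complex.I * a u2) := by
    rw [hz]
    linear_combination -h4 - Complex.I * h5 - (y : ℂ) * a u2 * Complex.I_mul_I
  have h7 := Real_aux.zet_ne hm (-s) t hts
  rw [neg_neg] at h7
  have h8 : (zet m t * zet m s - 1) * (a u1 + Complex.I * a u2) = 0 := by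
    have h9 := congrArg (fun z => zet m s * z) h6
    rw [← mul_assoc (zet m s) (zet m s)⁻¹, mul_inv_cancel₀ h0, one_mul] at h9
    linear_combination h9
  exact (mul_eq_zero.1 h8).resolve_left (sub_ne_zero.2 h7)

lemma ne_neg (hm : 3 ≤ m) (s : (ZMod m)ˣ) : s ≠ -s := by
  intro h
  have h1 : ((2 : ℕ) : ZMod m) * (s : ZMod m) = 0 := by
    have := congrArg (fun u : (ZMod m)ˣ => (u : ZMod m)) h
    simp only [Units.val_neg] at this
    push_cast
    linear_combination this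
  have h2 : ((2 : ℕ) : ZMod m) = 0 := by
    have := congrArg (fun z => z * ((s⁻¹ : (ZMod m)ˣ) : ZMod m)) h1
    simpa [mul_assoc] using this
  rw [ZMod.natCast_eq_zero_iff] at h2
  have := Nat.le_of_dvd (by norm_num) h2
  omega

/-- Operators of rank one on an eigenspace. -/
lemma rk (hm : 3 ≤ m) (s : (ZMod m)ˣ) {b : Frm T} (hb : b ∈ Ws D s) (w : T.V) :
    ∃ C ∈ Submodule.span ℂ (pre '' Lef T D.Z D.ψ), (∀ a ∈ Ws D s, C a = a w • b) ∧
      ∀ t, t ≠ s → t ≠ -s → ∀ a ∈ Ws D t, C a = 0 := by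
  obtain ⟨u1, u2, hu⟩ := Real_aux.repC D b
  have hs : ∀ u, pre (PP D u w) ∈ Submodule.span ℂ (pre '' Lef T D.Z D.ψ) := fun u =>
    Submodule.subset_span ⟨_, PP_mem D hm u w, rfl⟩
  have hss : s ≠ -s := ne_neg hm s
  have ha : ∀ t, t ≠ -s → ∀ a ∈ Ws D t, ∀ v,
      a (PP D u1 w v) + Complex.I * a (PP D u2 w v) =
        (∑ k ∈ Finset.range m, (zet m s)⁻¹ ^ k * zet m t ^ k) * (b v * a w) := by
    intro t ht a ha v
    have h1 := orth hm ht ha hb hu
    have e : ∀ u w : T.V, a (QQ D u w v) =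
        ∑ k ∈ Finset.range m, (D.ψ ((D.Z ^ k) u) v : ℂ) * (zet m t ^ k * a w) := by
      intro u w
      rw [QQ_apply, map_sum]
      refine Finset.sum_congr rfl fun k _ => ?_
      rw [map_smul, Complex.real_smul, aZ ha]
    rw [PP, PP, LinearMap.add_apply, LinearMap.add_apply, map_add, map_add, e, e, e, e, mul_add,
      Finset.mul_sum, Finset.mul_sum, Finset.sum_mul]
    rw [show ∀ A B C D : ℂ, A + B + (C + D) = (A + C) + (B + D) by intros; ring,
      ← Finset.sum_add_distrib, ← Finset.sum_add_distrib, ← Finset.sum_add_distrib]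
    refine Finset.sum_congr rfl fun k _ => ?_
    have h2 := bZ hm hb hu k v
    linear_combination (zet m t ^ k * a w) * h2 +
      ((D.ψ ((D.Z ^ k) w) v : ℂ) * zet m t ^ k) * h1
  have hm0 : (m : ℂ) ≠ 0 := Nat.cast_ne_zero.2 (by omega)
  refine ⟨(m : ℂ)⁻¹ • (pre (PP D u1 w) + Complex.I • pre (PP D u2 w)),
    Submodule.smul_mem _ _ (add_mem (hs u1) (Submodule.smul_mem _ _ (hs u2))),
    fun a h => ?_, fun t h1 h2 a h => ?_⟩
  · ext v
    have h3 := ha s hss a h v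
    rw [(sumz hm s s).1 rfl] at h3
    show (m : ℂ)⁻¹ * (a (PP D u1 w v) + Complex.I * a (PP D u2 w v)) = a w * b v
    rw [h3]
    field_simp
  · ext v
    have h3 := ha t h2 a h v
    rw [(sumz hm s t).2 h1, zero_mul] at h3
    show (m : ℂ)⁻¹ * (a (PP D u1 w v) + Complex.I * a (PP D u2 w v)) = 0
    rw [h3, mul_zero]

/-- The real forms of a basis. -/
def ep' (T : AV) (i : Fin (finrank ℝ T.V)) : Frm T :=
  Complex.ofRealCLM.toLinearMap ∘ₗ (Module.finBasis ℝ T.V).coord i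

lemma expand (a : Frm T) : a = ∑ i, a (Module.finBasis ℝ T.V i) • ep' T i := by
  ext v
  conv_lhs => rw [← (Module.finBasis ℝ T.V).sum_repr v]
  rw [map_sum, LinearMap.sum_apply]
  refine Finset.sum_congr rfl fun i _ => ?_
  rw [map_smul, Complex.real_smul, mul_comm]
  rfl

/-- Every operator on an eigenspace. -/
lemma full (hm : 3 ≤ m) (s : (ZMod m)ˣ) (A : Module.End ℂ (Ws D s)) :
    ∃ C ∈ Submodule.span ℂ (pre '' Lef T D.Z D.ψ), (∀ a : Ws D s, C (a : Frm T) = (A a : Frm T)) ∧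
      ∀ t, t ≠ s → t ≠ -s → ∀ a ∈ Ws D t, C a = 0 := by
  obtain ⟨-, hp1, hp2, -⟩ := tPj T m D hm
  let c : Fin (finrank ℝ T.V) → Ws D s := fun i => ⟨pj D s (ep' T i), hp1 s _⟩
  have h1 := fun i => rk hm s (A (c i)).2 (Module.finBasis ℝ T.V i)
  choose C hC hC1 hC2 using h1
  refine ⟨∑ i, C i, Submodule.sum_mem _ fun i _ => hC i, fun a => ?_, fun t h1 h2 a ha => ?_⟩
  · have h2 : a = ∑ i, (a : Frm T) (Module.finBasis ℝ T.V i) • c i := by
      apply Subtype.ext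
      rw [AddSubmonoidClass.coe_finsetSum]
      conv_lhs => rw [← hp2 s a a.2, expand (a : Frm T)]
      rw [map_sum]
      refine Finset.sum_congr rfl fun i _ => ?_
      rw [map_smul]
      rfl
    rw [LinearMap.sum_apply]
    conv_rhs => rw [h2]
    rw [map_sum, AddSubmonoidClass.coe_finsetSum]
    refine Finset.sum_congr rfl fun i _ => ?_
    rw [hC1 i a a.2, map_smul]
    rfl
  · rw [LinearMap.sum_apply]
    exact Finset.sum_eq_zero fun i _ => hC2 i t h1 h2 a ha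

/-- The commutators. -/
def CS (D : Cyc T m) : Set (Module.End ℝ T.V) :=
  {X | ∃ P ∈ Lef T D.Z D.ψ, ∃ Q ∈ Lef T D.Z D.ψ, X = P * Q - Q * P}

lemma com_mem {C C' : Module.End ℂ (Frm T)}
    (hC : C ∈ Submodule.span ℂ (pre '' Lef T D.Z D.ψ))
    (hC' : C' ∈ Submodule.span ℂ (pre '' Lef T D.Z D.ψ)) :
    C * C' - C' * C ∈ Submodule.span ℂ (pre '' CS D) := by
  induction hC, hC' using Submodule.span_induction₂ with
  | mem_mem x y hx hy =>
    obtain ⟨P, hP, rfl⟩ := hx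
    obtain ⟨Q, hQ, rfl⟩ := hy
    refine Submodule.subset_span ⟨Q * P - P * Q, ⟨Q, hQ, P, hP, rfl⟩, ?_⟩
    ext a v
    show a (Q (P v) - P (Q v)) = a (Q (P v)) - a (P (Q v))
    rw [map_sub]
  | zero_left y hy => rw [zero_mul, mul_zero, sub_zero]; exact zero_mem _
  | zero_right x hx => rw [zero_mul, mul_zero, sub_zero]; exact zero_mem _
  | add_left x y z _ _ _ h1 h2 =>
    rw [add_mul, mul_add, add_sub_add_comm]
    exact add_mem h1 h2
  | add_right x y z _ _ _ h1 h2 =>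
    rw [add_mul, mul_add, add_sub_add_comm]
    exact add_mem h1 h2
  | smul_left r x y _ _ h =>
    rw [smul_mul_assoc, mul_smul_comm, ← smul_sub]
    exact Submodule.smul_mem _ _ h
  | smul_right r x y _ _ h =>
    rw [smul_mul_assoc, mul_smul_comm, ← smul_sub]
    exact Submodule.smul_mem _ _ h

/-- Traceless operators are realised by the commutators. -/
lemma com (hm : 3 ≤ m) (s : (ZMod m)ˣ) (A : Module.End ℂ (Ws D s))
    (hA : LinearMap.trace ℂ (Ws D s) A = 0) :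
    ∃ C ∈ Submodule.span ℂ (pre '' CS D), (∀ a : Ws D s, C (a : Frm T) = (A a : Frm T)) ∧
      ∀ t, t ≠ s → t ≠ -s → ∀ a ∈ Ws D t, C a = 0 := by
  have := Tr_aux.fin_frm T
  have h1 := tPerf (Ws D s) A hA
  clear hA
  induction h1 using Submodule.span_induction with
  | mem A h =>
    obtain ⟨B, B', -, -, rfl⟩ := h
    obtain ⟨C, hC, hC1, hC2⟩ := full hm s B
    obtain ⟨C', hC', hC1', hC2'⟩ := full hm s B'
    refine ⟨C * C' - C' * C, com_mem hC hC', fun a => ?_, fun t h1 h2 a ha => ?_⟩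
    · rw [LinearMap.sub_apply, Module.End.mul_apply, Module.End.mul_apply, hC1', hC1, hC1, hC1']
      rfl
    · rw [LinearMap.sub_apply, Module.End.mul_apply, Module.End.mul_apply, hC2' t h1 h2 a ha,
        hC2 t h1 h2 a ha, map_zero, map_zero, sub_zero]
  | zero => exact ⟨0, zero_mem _, fun a => rfl, fun t _ _ a _ => rfl⟩
  | add A B _ _ h h' =>
    obtain ⟨C, hC, hC1, hC2⟩ := h
    obtain ⟨C', hC', hC1', hC2'⟩ := h'
    refine ⟨C + C', add_mem hC hC', fun a => ?_, fun t h1 h2 a ha => ?_⟩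
    · rw [LinearMap.add_apply, hC1, hC1']
      rfl
    · rw [LinearMap.add_apply, hC2 t h1 h2 a ha, hC2' t h1 h2 a ha, add_zero]
  | smul c A _ h =>
    obtain ⟨C, hC, hC1, hC2⟩ := h
    refine ⟨c • C, Submodule.smul_mem _ _ hC, fun a => ?_, fun t h1 h2 a ha => ?_⟩
    · rw [LinearMap.smul_apply, hC1]
      rfl
    · rw [LinearMap.smul_apply, hC2 t h1 h2 a ha, smul_zero]

/-- A half system of characters. -/
def hf (m : ℕ) : Set (ZMod m)ˣ := {s | (s : ZMod m).val < ((-s : (ZMod m)ˣ) : ZMod m).val}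

lemma hf_or (hm : 3 ≤ m) (s : (ZMod m)ˣ) : s ∈ hf m ∨ -s ∈ hf m := by
  have : NeZero m := ⟨by omega⟩
  rcases lt_trichotomy (s : ZMod m).val ((-s : (ZMod m)ˣ) : ZMod m).val with h | h | h
  · exact Or.inl h
  · exact absurd (Units.ext (ZMod.val_injective m h)) (ne_neg hm s)
  · refine Or.inr ?_
    show ((-s : (ZMod m)ˣ) : ZMod m).val < ((- -s : (ZMod m)ˣ) : ZMod m).val
    rw [neg_neg]
    exact h

lemma hf_not {s t : (ZMod m)ˣ} (hs : s ∈ hf m) (ht : t ∈ hf m) : s ≠ -t := by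
  rintro rfl
  have h1 : ((-t : (ZMod m)ˣ) : ZMod m).val < ((- -t : (ZMod m)ˣ) : ZMod m).val := hs
  rw [neg_neg] at h1
  exact lt_asymm h1 ht

/-- `su` is spanned by commutators. -/
theorem su_cl (hm : 3 ≤ m) (X : Module.End ℝ T.V) (hX : IsSU D X) : X ∈ CL D := by
  classical
  have : NeZero m := ⟨by omega⟩
  have h1 := fun s => tTr tPj (tBas tPj) T m D hm X hX s
  choose A hA hAX using h1
  have h2 := fun s => com hm s (A s) (hA s)
  choose C hC hC1 hC2 using h2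
  refine tReal (tBas tPj) T m D hm (CS D) X ?_ hX.1 (hf m) (hf_or hm)
    (∑ s ∈ Finset.univ.filter (fun s => s ∈ hf m), C s) (Submodule.sum_mem _ fun s _ => hC s) ?_
  · rintro _ ⟨P, hP, Q, hQ, rfl⟩
    exact (ToBig_aux.isSU_comm D hP hQ).1
  · intro s hs a ha
    rw [LinearMap.sum_apply, Finset.sum_eq_single s]
    · rw [hAX s ⟨a, ha⟩]
      exact hC1 s ⟨a, ha⟩
    · intro t ht hts
      refine hC2 t s (Ne.symm hts) ?_ a ha
      exact hf_not hs (Finset.mem_filter.1 ht).2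
    · intro h
      exact absurd (Finset.mem_filter.2 ⟨Finset.mem_univ _, hs⟩) h

end One

/-! ### The joint family -/

/-- The data of the joint family. -/
def GG {q₁ q : ℕ} {R : Fin q₁ → AV} {J : Fin q → AV} {m₁ : Fin q₁ → ℕ} {m : Fin q → ℕ}
    {D₁ : ∀ i, Cyc (R i) (m₁ i)} {D : ∀ i, Cyc (J i) (m i)} (Γ₁ : ∀ i, Sd (D₁ i))
    (hm : ∀ i, 3 ≤ m i) : ∀ x : Fin q₁ ⊕ Fin q, Sd (ThQ_aux.DG R J D₁ D x)
  | .inl a => Γ₁ a
  | .inr b => triv (D b) (hm b)

lemma cj_triv {T : AV} {m : ℕ} (D : Cyc T m) (hm : 3 ≤ m) : Cj (triv D hm) where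
  su g _ A hA B hB := by
    have h : B = A := LinearMap.ext fun v => hB v
    rw [h]
    exact hA
  mul g _ g' _ A _ v := rfl

end n23_aux

open n23_aux ThQ_aux

theorem tn23 : S_n9 → S_n15 → S_n22 → S_n23 := by
  intro h9 h15 h22 A B T q₁ N₁ q N R k m₁ D₁ Γ₁ J j m D ψ hA hm₁ hm hDA₁ hDA hCj hbig hB hψ d c
    hc hS
  obtain ⟨φ, hφ⟩ := hB
  obtain ⟨eq⟩ : Nonempty (Fin (q₁ + q) ≃ Fin q₁ ⊕ Fin q) := ⟨finSumFinEquiv.symm⟩
  obtain ⟨en⟩ : Nonempty (Fin (N₁ + N) ≃ Fin N₁ ⊕ Fin N) := ⟨finSumFinEquiv.symm⟩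
  let F : Fin (q₁ + q) → AV := fun i => Sum.elim R J (eq i)
  let mF : Fin (q₁ + q) → ℕ := fun i => Sum.elim m₁ m (eq i)
  let DF : ∀ i, Cyc (F i) (mF i) := fun i => DG R J D₁ D (eq i)
  let ΓF : ∀ i, Sd (DF i) := fun i => GG (D := D) Γ₁ hm (eq i)
  let jj : Fin (N₁ + N) → Fin (q₁ + q) := fun n => eq.symm (Sum.map k j (en n))
  let Ψ : T.V ≃ₗ[ℂ] A.V × (∀ n, (F (jj n)).V) := Psi R J k j eq en φ ψ
  let σ : (∀ x, Module.End ℝ (Sum.elim R J x).V) ≃ₗ[ℝ] Tup F :=
    LinearEquiv.piCongrLeft' ℝ (fun x => Module.End ℝ (Sum.elim R J x).V) eq.symm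
  have hσ : ∀ Y i, σ Y i = Y (eq i) := fun Y i => rfl
  let S : Set (Fin (q₁ + q)) := {i | ∃ a, eq i = Sum.inl a}
  have hΨ1 : ∀ v, (Ψ v).1 = (φ (ψ v).1).1 := fun v => rfl
  have hΨ2 : ∀ v n, (Ψ v).2 n = cst (Sum.elim R J)
      (eq.apply_symm_apply (Sum.map k j (en n))).symm (cmp R J k j φ ψ v (en n)) :=
    fun v n => Psi_snd R J k j eq en φ ψ v n
  have hlat : ∀ v ∈ T.L, ∃ k : ℕ, k ≠ 0 ∧ k • (Ψ v).1 ∈ A.L ∧
      ∀ n, k • (Ψ v).2 n ∈ (F (jj n)).L := by
    intro v hv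
    obtain ⟨K1, h1, h2, h3⟩ := hψ v hv
    obtain ⟨K2, h4, h5, h6⟩ := hφ _ h2
    refine ⟨K2 * K1, mul_ne_zero h4 h1, ?_, fun n => ?_⟩
    · rw [hΨ1, mul_smul]
      rw [map_nsmul, Prod.smul_fst] at h5
      exact h5
    · have h7 : ∀ x, (K2 * K1) • cmp R J k j φ ψ v x ∈ (Sum.elim R J (Sum.map k j x)).L := by
        rintro (a | b)
        · have := h6 a
          rw [map_nsmul, Prod.smul_snd, Pi.smul_apply] at this
          rw [mul_smul]
          exact this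
        · rw [mul_smul]
          exact (J (j b)).L.smul_of_tower_mem K2 (h3 b)
      rw [hΨ2, ← map_nsmul]
      exact cst_mem _ (h7 (en n))
  have hBS : ∀ X : Tup F, (∀ i, IsSU (DF i) (X i)) → CT ΓF X → ∀ h, HLieT DF h →
      ∃ W ∈ Submodule.span ℝ (ComT h), ∀ i ∈ S, W i = X i := by
    intro X hX hXC h hh
    -- the restriction to the first family
    let r : Tup F →ₗ[ℝ] Tup R :=
      (LinearMap.pi fun a => LinearMap.proj (Sum.inl a)) ∘ₗ σ.symm.toLinearMap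
    have hr : ∀ Y, r (σ Y) = fun a => Y (Sum.inl a) := by
      intro Y
      show (fun a => (σ.symm (σ Y)) (Sum.inl a)) = _
      rw [σ.symm_apply_apply]
    have hsur : ∀ Y : Tup F, ∃ Y', Y = σ Y' := fun Y => ⟨σ.symm Y, (σ.apply_symm_apply Y).symm⟩
    have hmul : ∀ Y Y', r (Y * Y') = r Y * r Y' := by
      intro Y Y'
      obtain ⟨Z, rfl⟩ := hsur Y
      obtain ⟨Z', rfl⟩ := hsur Y'
      have e : σ Z * σ Z' = σ (Z * Z') := rfl
      rw [e, hr, hr, hr]
      rfl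
    have hh1 : HLieT D₁ (r '' h) := by
      refine ⟨?_, ?_, ⟨0, hh.zero, map_zero r⟩, ?_, ?_, ?_, ?_⟩
      · rintro _ ⟨Y, hY, rfl⟩ a
        obtain ⟨Z, rfl⟩ := hsur Y
        have h1 : ∀ x, RatEnd (Sum.elim R J x) (Z x) := by
          intro x
          obtain ⟨i, rfl⟩ := eq.surjective x
          exact hh.rat _ hY i
        rw [hr]
        exact h1 (Sum.inl a)
      · rintro _ ⟨Y, hY, rfl⟩ a
        obtain ⟨Z, rfl⟩ := hsur Y
        have h1 : ∀ x, IsU (DG R J D₁ D x) (Z x) := by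
          intro x
          obtain ⟨i, rfl⟩ := eq.surjective x
          exact hh.u _ hY i
        rw [hr]
        exact h1 (Sum.inl a)
      · rintro _ ⟨Y, hY, rfl⟩ _ ⟨Y', hY', rfl⟩
        exact ⟨_, hh.add _ hY _ hY', map_add r _ _⟩
      · rintro x _ ⟨Y, hY, rfl⟩
        exact ⟨_, hh.smul x _ hY, map_smul r _ _⟩
      · rintro _ ⟨Y, hY, rfl⟩ _ ⟨Y', hY', rfl⟩
        exact ⟨_, hh.br _ hY _ hY', by rw [map_sub, hmul, hmul]⟩
      · rw [Submodule.span_image]
        refine ⟨_, hh.J, ?_⟩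
        have e : JT F = σ fun x => mulI (Sum.elim R J x) := rfl
        rw [e, hr]
        rfl
    obtain ⟨X', rfl⟩ := hsur X
    have h1 : ∀ x, IsSU (DG R J D₁ D x) (X' x) := by
      intro x
      obtain ⟨i, rfl⟩ := eq.surjective x
      exact hX i
    have h1' : ∀ x, X' x ∈ (GG (D := D) Γ₁ hm x).C := by
      intro x
      obtain ⟨i, rfl⟩ := eq.surjective x
      exact hXC i
    have h2 := h9 q₁ R m₁ D₁ Γ₁ hm₁ hbig _ hh1 (fun a => X' (Sum.inl a))
      (fun a => h1 (Sum.inl a)) (fun a => h1' (Sum.inl a))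
    have h3 : ComT (r '' h) ⊆ r '' ComT h := by
      rintro _ ⟨_, ⟨Y, hY, rfl⟩, _, ⟨Y', hY', rfl⟩, rfl⟩
      exact ⟨_, ⟨Y, hY, Y', hY', rfl⟩, by rw [map_sub, hmul, hmul]⟩
    have h4 := Submodule.span_mono h3 h2
    rw [Submodule.span_image] at h4
    obtain ⟨W, hW, hWe⟩ := h4
    refine ⟨W, hW, ?_⟩
    obtain ⟨W', rfl⟩ := hsur W
    rw [hr] at hWe
    rintro i ⟨a, ha⟩
    have h5 : ∀ x, (∃ a, x = Sum.inl a) → W' x = X' x := by
      rintro _ ⟨a, rfl⟩
      exact congrFun hWe a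
    exact h5 _ ⟨a, ha⟩
  have hSS : SUS S (fun i => (DF i).Z) (fun i => (DF i).ψ) Ψ c := by
    intro P Q hP hQ hPS X hX
    obtain ⟨P', rfl⟩ : ∃ P', P = σ P' := ⟨σ.symm P, (σ.apply_symm_apply P).symm⟩
    obtain ⟨Q', rfl⟩ : ∃ Q', Q = σ Q' := ⟨σ.symm Q, (σ.apply_symm_apply Q).symm⟩
    have hP' : ∀ x, P' x ∈ Lef (Sum.elim R J x) (DG R J D₁ D x).Z (DG R J D₁ D x).ψ := by
      intro x
      obtain ⟨i, rfl⟩ := eq.surjective x
      exact hP i
    have hQ' : ∀ x, Q' x ∈ Lef (Sum.elim R J x) (DG R J D₁ D x).Z (DG R J D₁ D x).ψ := by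
      intro x
      obtain ⟨i, rfl⟩ := eq.surjective x
      exact hQ i
    have hP0 : ∀ a, P' (Sum.inl a) = 0 := by
      intro a
      have h1 : ∀ x, (∃ a, x = Sum.inl a) → P' x = 0 := by
        intro x hx
        obtain ⟨i, rfl⟩ := eq.surjective x
        exact hPS i hx
      exact h1 _ ⟨a, rfl⟩
    refine hS (fun b => P' (Sum.inr b)) (fun b => Q' (Sum.inr b)) (fun b => hP' (Sum.inr b))
      (fun b => hQ' (Sum.inr b)) X fun v => ?_
    have h1 : ∀ x, cmp R J k j φ ψ (X v) x =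
        (P' * Q' - Q' * P') (Sum.map k j x) (cmp R J k j φ ψ v x) := by
      intro x
      obtain ⟨n, rfl⟩ := en.surjective x
      have h2 := congrFun (congrArg Prod.snd (hX v)) n
      rw [hΨ2] at h2
      refine (cst (Sum.elim R J) (eq.apply_symm_apply (Sum.map k j (en n))).symm).injective ?_
      rw [h2, ← cst_end, ← hΨ2]
      rfl
    have h3 : (ψ (X v)).1 = 0 := by
      apply φ.injective
      rw [map_zero]
      refine Prod.ext ?_ (funext fun a => ?_)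
      · have h4 := congrArg Prod.fst (hX v)
        exact h4
      · have h4 := h1 (Sum.inl a)
        have h5 : (P' * Q' - Q' * P') (Sum.map k j (Sum.inl a)) = 0 := by
          show P' (Sum.inl (k a)) * Q' (Sum.inl (k a)) - Q' (Sum.inl (k a)) * P' (Sum.inl (k a)) = 0
          rw [hP0, zero_mul, mul_zero, sub_zero]
        rw [h5] at h4
        exact h4
    refine Prod.ext h3 (funext fun b => ?_)
    exact h1 (Sum.inr b)
  have hmG : ∀ x, 3 ≤ Sum.elim m₁ m x := by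
    rintro (a | b)
    · exact hm₁ a
    · exact hm b
  have hDG : ∀ x, HasDA (fun T m c => HC.SE.Alg2 T m c) (Sum.elim m₁ m x) (Sum.elim R J x)
      (DG R J D₁ D x).Z (DG R J D₁ D x).ψ := by
    rintro (a | b)
    · exact hDA₁ a
    · exact hDA b
  have hCG : ∀ x, Cj (GG (D := D) Γ₁ hm x) := by
    rintro (a | b)
    · exact hCj a
    · exact cj_triv (D b) (hm b)
  refine h22 A T (q₁ + q) (N₁ + N) F mF DF ΓF jj Ψ hA (fun i => hmG (eq i))
    (fun i => hDG (eq i)) (fun i => hCG (eq i)) hlat d c hc fun X hX hXC => ?_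
  refine h15 A T (q₁ + q) (N₁ + N) F mF DF jj S Ψ hA hlat d c hc hSS X (hBS X hX hXC)
    fun i _ => ?_
  exact su_cl (hmG (eq i)) (X i) (hX i)

end SEN
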