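import Pool.Agent.Lib.SE.N.Spec
import Pool.Agent.Lib.HC.L.Ld

/-!
# SE-N, n25: a rational class killed by `i` is a Hodge class (author helper77)
-/

set_option autoImplicit false

open Module

noncomputable section

namespace SEN

open HC HC.E HC.SE SEB SEQ SER SES SEG SE

open ComplexConjugate in
theorem tn25 : S_n25 := by
  classical
  intro T m c hr hk
  refine ⟨hr, ?_⟩
  intro u hu
  have hII : Complex.I * Complex.I = -1 := Complex.I_mul_I
  have hII' : -Complex.I * -Complex.I = -1 := by rw [neg_mul_neg, hII]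
  let p : T.V →ₗ[ℂ] T.V := LinearMap.id
  have hp : ∀ v, p v = v := fun v => rfl
  let π : Fin 2 → (T.V →ₗ[ℝ] ℂ) → (T.V →ₗ[ℝ] ℂ) := ![Ld.pt p Complex.I, Ld.pt p (-Complex.I)]
  let lam : Fin 2 → ℂ := ![Complex.I, -Complex.I]
  let chi : Fin 2 → ℂ := ![u, conj u]
  have hπ : ∀ a, ∑ ε, π ε a = a := by
    intro a
    ext v
    rw [Fin.sum_univ_two]
    change Ld.pt p Complex.I a v + Ld.pt p (-Complex.I) a v = a v
    rw [Ld.pt_apply, Ld.pt_apply, hp]
    ring
  have ub : ∀ z : ℂ, (z.re : ℂ) + Complex.I * z.im = z := fun z => by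
    rw [mul_comm, Complex.re_add_im]
  have ub' : ∀ z : ℂ, (z.re : ℂ) + -Complex.I * z.im = conj z := fun z => by
    apply Complex.ext <;> simp
  have g : ∀ (t : ℂ), t * t = -1 → ∀ a, (Ld.pt p t a) ∘ₗ (mulI T) = t • Ld.pt p t a ∧
      pull (u • (LinearMap.id : T.V →ₗ[ℂ] T.V)) (Ld.pt p t a) =
        ((u.re : ℂ) + t * u.im) • Ld.pt p t a := by
    intro t ht a
    refine ⟨?_, ?_⟩
    · ext v
      change Ld.pt p t a (Complex.I • v) = t * Ld.pt p t a v
      rw [Ld.pt_I p ht]
    · ext v
      change Ld.pt p t a (u • v) = ((u.re : ℂ) + t * u.im) * Ld.pt p t a v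
      rw [Ld.val_smul (fun v => Ld.pt_I p ht a v)]
  have key : ∀ (ε : Fin 2) (a : T.V →ₗ[ℝ] ℂ), (π ε a) ∘ₗ (mulI T) = lam ε • π ε a ∧
      pull (u • (LinearMap.id : T.V →ₗ[ℂ] T.V)) (π ε a) = chi ε • π ε a := by
    intro ε a
    fin_cases ε
    · have h := g Complex.I hII a
      rw [ub] at h
      exact h
    · have h := g (-Complex.I) hII' a
      rw [ub'] at h
      exact h
  have lie : ∀ (l : Fin m → ℂ) (b : Fin m → (T.V →ₗ[ℝ] ℂ)),
      (∀ i, b i ∘ₗ (mulI T) = l i • b i) → lieAct (mulI T) c b = (∑ i, l i) * c b := by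
    intro l b hb
    unfold lieAct
    rw [Finset.sum_mul]
    refine Finset.sum_congr rfl (fun i _ => ?_)
    rw [hb i, AlternatingMap.map_update_smul, Function.update_eq_self, smul_eq_mul]
  have fib : ∀ (s : Fin m → Fin 2) (f : Fin 2 → ℂ), ∑ i, f (s i) =
      ∑ ε, ((Finset.univ.filter (fun i => s i = ε)).card : ℂ) * f ε := by
    intro s f
    rw [← Finset.sum_fiberwise (s := Finset.univ) (g := s) (f := fun i => f (s i))]
    refine Finset.sum_congr rfl (fun ε _ => ?_)
    rw [Finset.sum_congr rfl (g := fun _ => f ε) (fun i hi => by rw [(Finset.mem_filter.1 hi).2]),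
      Finset.sum_const, nsmul_eq_mul]
  have fibp : ∀ (s : Fin m → Fin 2) (f : Fin 2 → ℂ), ∏ i, f (s i) =
      ∏ ε, f ε ^ (Finset.univ.filter (fun i => s i = ε)).card := by
    intro s f
    rw [← Finset.prod_fiberwise (s := Finset.univ) (g := s) (f := fun i => f (s i))]
    refine Finset.prod_congr rfl (fun ε _ => ?_)
    rw [Finset.prod_congr rfl (g := fun _ => f ε) (fun i hi => by rw [(Finset.mem_filter.1 hi).2]),
      Finset.prod_const]
  have huc : u * conj u = 1 := by rw [Complex.mul_conj, Complex.normSq_eq_norm_sq, hu]; norm_num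
  have main : ∀ (s : Fin m → Fin 2) (a : Fin m → (T.V →ₗ[ℝ] ℂ)),
      c (fun i => pull (u • (LinearMap.id : T.V →ₗ[ℂ] T.V)) (π (s i) (a i))) =
        c (fun i => π (s i) (a i)) := by
    intro s a
    have e1 : (fun i => pull (u • (LinearMap.id : T.V →ₗ[ℂ] T.V)) (π (s i) (a i))) =
        fun i => chi (s i) • π (s i) (a i) := funext fun i => (key (s i) (a i)).2
    rw [e1]
    have e2 := c.map_smul_univ (fun i => chi (s i)) (fun i => π (s i) (a i))
    rw [e2]
    by_cases h0 : c (fun i => π (s i) (a i)) = 0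
    · rw [h0, smul_zero]
    · have h1 := lie (fun i => lam (s i)) (fun i => π (s i) (a i)) (fun i => (key (s i) (a i)).1)
      rw [hk] at h1
      have h3 : ∑ i, lam (s i) = 0 := by
        rcases mul_eq_zero.1 h1.symm with h | h
        · exact h
        · exact absurd h h0
      rw [fib, Fin.sum_univ_two] at h3
      set n0 := (Finset.univ.filter (fun i => s i = 0)).card with hn0
      set n1 := (Finset.univ.filter (fun i => s i = 1)).card with hn1
      have h5 : (n0 : ℂ) * Complex.I + n1 * -Complex.I = 0 := h3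
      have h7 : (n0 : ℂ) = n1 := by
        have h8 : ((n0 : ℂ) - n1) * Complex.I = 0 := by linear_combination h5
        rcases mul_eq_zero.1 h8 with h | h
        · exact sub_eq_zero.1 h
        · exact absurd h Complex.I_ne_zero
      have h7' : n0 = n1 := by exact_mod_cast h7
      have h10 : ∏ i, chi (s i) = 1 := by
        rw [fibp, Fin.prod_univ_two]
        change u ^ n0 * conj u ^ n1 = 1
        rw [← h7', ← mul_pow, huc, one_pow]
      rw [h10, one_smul]
  ext a
  change c (fun i => pull (u • (LinearMap.id : T.V →ₗ[ℂ] T.V)) (a i)) = c a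
  have e1 : a = fun i => ∑ ε, π ε (a i) := funext fun i => (hπ (a i)).symm
  have e2 : (fun i => pull (u • (LinearMap.id : T.V →ₗ[ℂ] T.V)) (a i)) =
      fun i => ∑ ε, pull (u • (LinearMap.id : T.V →ₗ[ℂ] T.V)) (π ε (a i)) := by
    funext i
    rw [← map_sum, hπ]
  have e3 : c a = c (fun i => ∑ ε, π ε (a i)) := by rw [← e1]
  rw [e2, e3]
  have e4 := c.toMultilinearMap.map_sum
    (fun (i : Fin m) (ε : Fin 2) => pull (u • (LinearMap.id : T.V →ₗ[ℂ] T.V)) (π ε (a i)))
  have e5 := c.toMultilinearMap.map_sum (fun (i : Fin m) (ε : Fin 2) => π ε (a i))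
  change c _ = _ at e4
  change c _ = _ at e5
  rw [e4, e5]
  exact Finset.sum_congr rfl (fun s _ => main s a)

end SEN
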