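import Pool.Agent.Lib.SE.N.Spec

/-!
# SE/N/n26: push forwards (helper95)
-/

set_option autoImplicit false

open Module

noncomputable section

namespace SEN

open HC HC.E HC.SE SEB SEQ SER SES SEG SE

theorem tn26 : S_n26 := by
  refine ⟨?_, ?_, ?_⟩
  · intro T T' d Ψ X X' c hX hc a
    have h := hc (fun i => a i ∘ₗ Ψ)
    unfold lieAct at h ⊢
    rw [← h]
    refine Finset.sum_congr rfl fun i _ => ?_
    change c _ = c _
    refine congrArg _ (funext fun k => ?_)
    by_cases hk : k = i
    · subst hk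
      rw [Function.update_self, Function.update_self]
      refine LinearMap.ext fun v => ?_
      change a k (X' (Ψ v)) = a k (Ψ (X v))
      rw [hX]
    · rw [Function.update_of_ne hk, Function.update_of_ne hk]
      rfl
  · intro T T' d Ψ Φ c h
    refine AlternatingMap.ext fun a => ?_
    change c _ = c _
    refine congrArg _ (funext fun k => LinearMap.ext fun v => ?_)
    change a k (Φ (Ψ v)) = a k v
    rw [h]
  · rintro T T' d Φ c ⟨k, hk, hΦ⟩ hc
    have h1 := HC.SE.Alg2.push (T := T') (T' := T) ((k : ℂ) • Φ) (fun x hx => by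
      have := hΦ x hx
      rw [← Nat.cast_smul_eq_nsmul ℂ] at this
      exact this) hc
    have h2 : push ((k : ℂ) • Φ) c = (k : ℂ) ^ d • psh (Φ.restrictScalars ℝ) c := by
      refine AlternatingMap.ext fun a => ?_
      have h3 : push ((k : ℂ) • Φ) c a =
          c (fun i => (k : ℂ) • (a i ∘ₗ Φ.restrictScalars ℝ)) := by
        change c _ = c _
        refine congrArg _ (funext fun i => LinearMap.ext fun v => ?_)
        change a i (((k : ℂ) • Φ) v) = (k : ℂ) • a i (Φ v)
        rw [LinearMap.smul_apply, Nat.cast_smul_eq_nsmul ℂ, map_nsmul, Nat.cast_smul_eq_nsmul ℂ]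
      rw [h3]
      have h4 := c.map_smul_univ (fun _ => (k : ℂ)) (fun i => a i ∘ₗ Φ.restrictScalars ℝ)
      rw [Finset.prod_const, Finset.card_univ, Fintype.card_fin] at h4
      exact h4
    rw [h2] at h1
    have hk' : (k : ℂ) ^ d ≠ 0 := pow_ne_zero _ (Nat.cast_ne_zero.2 hk)
    have h5 := HC.SE.Alg2.smul ((k : ℂ) ^ d)⁻¹ h1
    rw [smul_smul, inv_mul_cancel₀ hk', one_smul] at h5
    exact h5

end SEN
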