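import Pool.Agent.Lib.SE.N.Spec
import Pool.Agent.Lib.SE.R.Hr

/-!
# PROJECT SE-N, module n3: there is such a Lie algebra (helper45, for helper87)
-/

set_option autoImplicit false

open Module

noncomputable section

namespace SEN

open HC HC.E HC.SE SEB SEQ SER SES SEG SE

open SER.Hr_aux in
theorem tn3 : S_n2 → S_n3 := by
  intro h2 T m D Γ
  obtain ⟨h, hh, -⟩ := tHl T m D {X | RatEnd T X} (fun X hX => hX)
    (fun X hX Y hY => rat_sub (rat_mul hX hY) (rat_mul hY hX)) (HC.L.tLc1 T)
  exact ⟨_, h2.1 T m D Γ h hh, fun X hX => hX.2⟩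

end SEN
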