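import Pool.Agent.Lib.SE.N.Spec

/-!
# PROJECT SE-N, module n4: the action of the semilinear automorphisms on the forms
-/

set_option autoImplicit false

open Module

noncomputable section

namespace SEN

open HC HC.E HC.SE SEB SEQ SER SES SEG SE

namespace n4_aux

variable {T : AV} {m : ℕ}

lemma Z_pow (D : Cyc T m) : D.Z ^ m = 1 := by
  obtain ⟨q, hq⟩ := Polynomial.cyclotomic.dvd_X_pow_sub_one m ℤ
  have h := congrArg (Polynomial.aeval D.Z) hq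
  rw [map_mul, D.cyc, zero_mul, map_sub, map_pow, Polynomial.aeval_X, map_one] at h
  exact sub_eq_zero.mp h

lemma pow_mod_of {M : Type*} [Monoid M] (x : M) (h : x ^ m = 1) (k : ℕ) : x ^ (k % m) = x ^ k := by
  conv_rhs => rw [← Nat.mod_add_div k m, pow_add, pow_mul, h, one_pow, mul_one]

lemma w_pow (hm : m ≠ 0) : Complex.exp (2 * Real.pi * Complex.I / m) ^ m = 1 :=
  (Complex.isPrimitiveRoot_exp m hm).pow_eq_one

lemma zet_mul (hm : m ≠ 0) (g s : (ZMod m)ˣ) :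
    zet m (g * s) = zet m s ^ (g : ZMod m).val := by
  unfold zet
  rw [Units.val_mul, ZMod.val_mul, pow_mod_of _ (w_pow hm), ← pow_mul, Nat.mul_comm]

lemma zet_pow_m (hm : m ≠ 0) (s : (ZMod m)ˣ) : zet m s ^ m = 1 := by
  unfold zet
  rw [← pow_mul, Nat.mul_comm, pow_mul, w_pow hm, one_pow]

lemma val_mul_inv_mod (hm : 1 < m) (g : (ZMod m)ˣ) :
    ((g : ZMod m).val * ((g⁻¹ : (ZMod m)ˣ) : ZMod m).val) % m = 1 := by
  have : Fact (1 < m) := ⟨hm⟩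
  rw [← ZMod.val_mul, ← Units.val_mul, mul_inv_cancel, Units.val_one, ZMod.val_one]

lemma pow_gg {M : Type*} [Monoid M] (hm : 1 < m) (x : M) (h : x ^ m = 1) (g : (ZMod m)ˣ) :
    x ^ ((g : ZMod m).val * ((g⁻¹ : (ZMod m)ˣ) : ZMod m).val) = x := by
  rw [← pow_mod_of x h, val_mul_inv_mod hm, pow_one]

lemma ws_pow (D : Cyc T m) (s : (ZMod m)ˣ) (a : Frm T) (h : a ∈ Ws D s) (k : ℕ) (v : T.V) :
    a ((D.Z ^ k) v) = zet m s ^ k * a v := by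
  induction k with
  | zero => simp
  | succ k ih =>
    have h1 := h ((D.Z ^ k) v)
    rw [pow_succ', Module.End.mul_apply, h1, ih, pow_succ']
    ring

lemma pT_apply (Θ : T.V ≃ₗ[ℂ] T.V) (a : Frm T) (v : T.V) : pT Θ a v = a (Θ v) := rfl

lemma th_pow (D : Cyc T m) (Θ : T.V ≃ₗ[ℂ] T.V) (g : ℕ)
    (h : ∀ v, Θ (D.Z v) = (D.Z ^ g) (Θ v)) (k : ℕ) (v : T.V) :
    Θ ((D.Z ^ k) v) = (D.Z ^ (g * k)) (Θ v) := by
  induction k with
  | zero => simp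
  | succ k ih =>
    rw [pow_succ', Module.End.mul_apply, h, ih, Nat.mul_succ, Nat.add_comm, pow_add,
      Module.End.mul_apply]

lemma fwd (D : Cyc T m) (hm : 3 ≤ m) (Θ : T.V ≃ₗ[ℂ] T.V) (g : (ZMod m)ˣ)
    (h : ∀ v, Θ (D.Z v) = (D.Z ^ (g : ZMod m).val) (Θ v)) (s : (ZMod m)ˣ) (a : Frm T)
    (ha : a ∈ Ws D s) : pT Θ a ∈ Ws D (g * s) := by
  intro v
  rw [pT_apply, pT_apply, h, ws_pow D s a ha, zet_mul (by omega)]

lemma bwd (D : Cyc T m) (hm : 3 ≤ m) (Θ : T.V ≃ₗ[ℂ] T.V) (g : (ZMod m)ˣ)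
    (h : ∀ v, Θ (D.Z v) = (D.Z ^ (g : ZMod m).val) (Θ v)) (s : (ZMod m)ˣ) (b : Frm T)
    (hb : b ∈ Ws D (g * s)) : pT Θ.symm b ∈ Ws D s := by
  intro v
  have h1 : Θ.symm (D.Z v) = (D.Z ^ ((g⁻¹ : (ZMod m)ˣ) : ZMod m).val) (Θ.symm v) := by
    rw [LinearEquiv.symm_apply_eq, th_pow D Θ _ h, LinearEquiv.apply_symm_apply,
      pow_gg (by omega) D.Z (Z_pow D)]
  rw [pT_apply, pT_apply, h1, ws_pow D _ b hb, zet_mul (by omega), ← pow_mul,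
    pow_gg (by omega) _ (zet_pow_m (by omega) s)]

lemma symm_pT (Θ : T.V ≃ₗ[ℂ] T.V) (a : Frm T) : pT Θ.symm (pT Θ a) = a := by
  ext v
  rw [pT_apply, pT_apply, LinearEquiv.apply_symm_apply]

lemma pT_symm (Θ : T.V ≃ₗ[ℂ] T.V) (a : Frm T) : pT Θ (pT Θ.symm a) = a := by
  ext v
  rw [pT_apply, pT_apply, LinearEquiv.symm_apply_apply]

/-- The action on the forms as an equivalence. -/
def eT (Θ : T.V ≃ₗ[ℂ] T.V) : Frm T ≃ₗ[ℂ] Frm T :=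
  LinearEquiv.ofLinearMap (pT Θ) (pT Θ.symm) (LinearMap.ext (pT_symm Θ)) (LinearMap.ext (symm_pT Θ))

lemma map10 (D : Cyc T m) (hm : 3 ≤ m) (Θ : T.V ≃ₗ[ℂ] T.V) (g : (ZMod m)ˣ)
    (h : ∀ v, Θ (D.Z v) = (D.Z ^ (g : ZMod m).val) (Θ v)) (s : (ZMod m)ˣ) :
    (Ws10 D s).map (eT Θ : Frm T →ₗ[ℂ] Frm T) = Ws10 D (g * s) := by
  ext b
  rw [Submodule.mem_map]
  constructor
  · rintro ⟨a, ha, rfl⟩
    refine ⟨fwd D hm Θ g h s a ha.1, fun v => ?_⟩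
    change pT Θ a (Complex.I • v) = Complex.I * pT Θ a v
    rw [pT_apply, pT_apply, map_smul, ha.2]
  · intro hb
    refine ⟨pT Θ.symm b, ⟨bwd D hm Θ g h s b hb.1, fun v => ?_⟩, pT_symm Θ b⟩
    rw [pT_apply, pT_apply, map_smul, hb.2]

end n4_aux

open n4_aux in
theorem tn4 : S_n4 := by
  intro T m D Γ hm g hg s
  have h := Γ.com g hg
  refine ⟨fun a ha => fwd D hm _ g h s a ha, fun b hb => ?_, ?_⟩
  · exact ⟨pT (Γ.Θ g).symm b, bwd D hm _ g h s b hb, (pT_symm _ b).symm⟩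
  · unfold Cyc.p
    rw [← map10 D hm (Γ.Θ g) g h s]
    exact LinearEquiv.finrank_map_eq (eT (Γ.Θ g)) (Ws10 D s)

end SEN
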