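import Pool.Agent.Lib.SE.N.Spec

/-!
# PROJECT SE-N, module n5: transversals
-/

set_option autoImplicit false

open Module

noncomputable section

namespace SEN

open HC HC.E HC.SE SEB SEQ SER SES SEG SE

namespace n5_aux

variable {q : ℕ} {T : Fin q → AV} {m : Fin q → ℕ} {D : ∀ i, Cyc (T i) (m i)}

/-- In the same coset of `± S`. -/
def rel (Γ : ∀ i, Sd (D i)) (x y : Ch m) : Prop :=
  ∃ g ∈ (Γ x.1).S, (⟨x.1, g * x.2⟩ : Ch m) = y ∨ (⟨x.1, -(g * x.2)⟩ : Ch m) = y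

theorem rel_refl (Γ : ∀ i, Sd (D i)) (x : Ch m) : rel Γ x x :=
  ⟨1, one_mem _, Or.inl (by rw [one_mul])⟩

theorem rel_symm (Γ : ∀ i, Sd (D i)) {x y : Ch m} (h : rel Γ x y) : rel Γ y x := by
  obtain ⟨i, s⟩ := x
  rcases h with ⟨g, hg, rfl | rfl⟩
  · refine ⟨g⁻¹, inv_mem hg, Or.inl ?_⟩
    show (⟨i, g⁻¹ * (g * s)⟩ : Ch m) = ⟨i, s⟩
    rw [inv_mul_cancel_left]
  · refine ⟨g⁻¹, inv_mem hg, Or.inr ?_⟩
    show (⟨i, -(g⁻¹ * -(g * s))⟩ : Ch m) = ⟨i, s⟩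
    rw [mul_neg, neg_neg, inv_mul_cancel_left]

theorem rel_trans (Γ : ∀ i, Sd (D i)) {x y z : Ch m} (h : rel Γ x y) (h' : rel Γ y z) :
    rel Γ x z := by
  obtain ⟨i, s⟩ := x
  rcases h with ⟨g, hg, rfl | rfl⟩
  · rcases h' with ⟨g', hg', rfl | rfl⟩
    · refine ⟨g' * g, mul_mem hg' hg, Or.inl ?_⟩
      show (⟨i, g' * g * s⟩ : Ch m) = ⟨i, g' * (g * s)⟩
      rw [mul_assoc]
    · refine ⟨g' * g, mul_mem hg' hg, Or.inr ?_⟩
      show (⟨i, -(g' * g * s)⟩ : Ch m) = ⟨i, -(g' * (g * s))⟩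
      rw [mul_assoc]
  · rcases h' with ⟨g', hg', rfl | rfl⟩
    · refine ⟨g' * g, mul_mem hg' hg, Or.inr ?_⟩
      show (⟨i, -(g' * g * s)⟩ : Ch m) = ⟨i, g' * -(g * s)⟩
      rw [mul_neg, mul_assoc]
    · refine ⟨g' * g, mul_mem hg' hg, Or.inl ?_⟩
      show (⟨i, g' * g * s⟩ : Ch m) = ⟨i, -(g' * -(g * s))⟩
      rw [mul_neg, neg_neg, mul_assoc]

/-- The cosets of `± S`. -/
def std (Γ : ∀ i, Sd (D i)) : Setoid (Ch m) where
  r := rel Γ
  iseqv := ⟨rel_refl Γ, fun h => rel_symm Γ h, fun h h' => rel_trans Γ h h'⟩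

theorem main (Γ : ∀ i, Sd (D i)) (f : Quotient (std Γ) → Ch m)
    (hf : ∀ c, Quotient.mk (std Γ) (f c) = c) :
    Adm Γ (Set.range f) ∧ Ful Γ (Set.range f) := by
  have key : ∀ x ∈ Set.range f, ∀ y ∈ Set.range f, rel Γ x y → x = y := by
    rintro _ ⟨c, rfl⟩ _ ⟨c', rfl⟩ h
    have h' : Quotient.mk (std Γ) (f c) = Quotient.mk (std Γ) (f c') := Quotient.sound h
    rw [hf, hf] at h'
    rw [h']
  constructor
  · rintro x hx g hg
    constructor
    · intro h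
      have h1 := key x hx _ h ⟨g, hg, Or.inl rfl⟩
      obtain ⟨i, s⟩ := x
      have h2 : s = g * s := eq_of_heq (Sigma.mk.inj h1).2
      exact right_eq_mul.mp h2
    · intro h
      have h1 := key x hx _ h ⟨g, hg, Or.inr rfl⟩
      obtain ⟨i, s⟩ := x
      have h2 : s = -(g * s) := eq_of_heq (Sigma.mk.inj h1).2
      rw [← neg_mul] at h2
      have h3 : -g = 1 := right_eq_mul.mp h2
      apply (Γ i).neg
      rw [← h3, neg_neg]
      exact hg
  · intro x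
    have h1 : rel Γ x (f (Quotient.mk (std Γ) x)) := by
      have h2 := hf (Quotient.mk (std Γ) x)
      exact rel_symm Γ (Quotient.exact h2)
    obtain ⟨g, hg, h | h⟩ := h1
    · exact ⟨g, hg, Or.inl ⟨_, h.symm⟩⟩
    · exact ⟨g, hg, Or.inr ⟨_, h.symm⟩⟩

end n5_aux

open n5_aux in
open Classical in
theorem tn5 : S_n5 := by
  intro q T m D Γ
  refine ⟨⟨_, main Γ Quotient.out fun c => Quotient.out_eq c⟩, fun x => ?_⟩
  refine ⟨_, ?_, main Γ (Function.update Quotient.out (Quotient.mk (std Γ) x) x) fun c => ?_⟩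
  · exact ⟨Quotient.mk (std Γ) x, Function.update_self _ _ _⟩
  · by_cases hc : c = Quotient.mk (std Γ) x
    · subst hc
      rw [Function.update_self]
    · rw [Function.update_of_ne hc]
      exact Quotient.out_eq c

end SEN
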