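import Pool.Agent.Lib.SE.N.Spec

/-!
# SE/N/n6: the complex span commutes with `Θ` (helper95)
-/

set_option autoImplicit false

open Module

noncomputable section

namespace SEN

open HC HC.E HC.SE SEB SEQ SER SES SEG SE

namespace n6_aux

theorem core {T : AV} (Θ : T.V ≃ₗ[ℂ] T.V) {W : Type} [AddCommGroup W] [Module ℂ W]
    (π : W →ₗ[ℂ] Module.End ℂ (Frm T)) (S : Set W)
    (hS : ∀ w ∈ S, ∃ Y : Module.End ℝ T.V, π w = pre Y ∧ ∀ v, Y (Θ v) = Θ (Y v)) (C : W)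
    (hC : C ∈ Submodule.span ℂ S) (a : Frm T) : π C (pT Θ a) = pT Θ (π C a) := by
  induction hC using Submodule.span_induction with
  | mem x hx =>
    obtain ⟨Y, hY, hc⟩ := hS x hx
    rw [hY]
    refine LinearMap.ext fun v => ?_
    change a (Θ (Y v)) = a (Y (Θ v))
    rw [hc]
  | zero => rw [map_zero, LinearMap.zero_apply, LinearMap.zero_apply, map_zero]
  | add x y _ _ hx hy => rw [map_add, LinearMap.add_apply, LinearMap.add_apply, hx, hy, map_add]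
  | smul c x _ hx => rw [map_smul, LinearMap.smul_apply, LinearMap.smul_apply, hx, map_smul]

theorem com {T : AV} (Θ : T.V ≃ₗ[ℂ] T.V) {X X' : Module.End ℝ T.V}
    (h : ∀ v, X (Θ v) = Θ (X v)) (h' : ∀ v, X' (Θ v) = Θ (X' v)) (v : T.V) :
    (X * X' - X' * X) (Θ v) = Θ ((X * X' - X' * X) v) := by
  change X (X' (Θ v)) - X' (X (Θ v)) = Θ (X (X' v) - X' (X v))
  rw [h', h, h, h', map_sub]

end n6_aux

theorem tn6 : S_n6 := by
  refine ⟨?_, ?_, ?_, ?_⟩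
  · intro T m D Γ h hX C hC g hg a
    refine n6_aux.core (Γ.Θ g) LinearMap.id _ ?_ C hC a
    rintro _ ⟨_, ⟨X, hXh, X', hXh', rfl⟩, rfl⟩
    exact ⟨_, rfl, n6_aux.com _ (hX X hXh g hg) (hX X' hXh' g hg)⟩
  · intro q T m D Γ h hX C hC i g hg a
    refine n6_aux.core ((Γ i).Θ g) (LinearMap.proj i) _ ?_ C hC a
    rintro _ ⟨_, ⟨X, hXh, X', hXh', rfl⟩, rfl⟩
    exact ⟨_, rfl, n6_aux.com _ (hX X hXh i g hg) (hX X' hXh' i g hg)⟩
  · intro q T m D Γ B h hX C hC i g hg a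
    refine n6_aux.core ((Γ i).Θ g) ((LinearMap.proj i).comp (LinearMap.fst ℂ _ _)) _ ?_ C hC a
    rintro _ ⟨_, ⟨X, hXh, X', hXh', rfl⟩, rfl⟩
    exact ⟨_, rfl, n6_aux.com _ (hX X hXh i g hg) (hX X' hXh' i g hg)⟩
  · intro q q' T m D Γ B G' h hX C hC i g hg a
    refine n6_aux.core ((Γ i).Θ g)
      ((LinearMap.proj i).comp ((LinearMap.fst ℂ _ _).comp (LinearMap.fst ℂ _ _))) _ ?_ C hC a
    rintro _ ⟨_, ⟨X, hXh, X', hXh', rfl⟩, rfl⟩
    exact ⟨_, rfl, n6_aux.com _ (hX X hXh i g hg) (hX X' hXh' i g hg)⟩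

end SEN
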