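import Pool.Agent.Lib.SE.N.Spec
import Pool.Agent.Lib.SE.Q.SpecC
import Pool.Agent.Lib.SE.Q.ClT
import Pool.Agent.Lib.SE.Big.Perf

/-!
# PROJECT SE-N, module n7: Ribet's lemma for one set of characters
-/

set_option autoImplicit false

open Module

noncomputable section

namespace SEN

open HC HC.E HC.SE SEB SEQ SER SES SEG SE

namespace n7_aux

variable {q : ℕ} {T : Fin q → AV} {m : Fin q → ℕ}

/-- One character, a finite set of other characters. -/
theorem one_step (D : ∀ i, Cyc (T i) (m i)) (h : Set (Tup T))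
    (hcl : ∀ A ∈ ggT h, ∀ B ∈ ggT h, A * B - B * A ∈ ggT h)
    (hpr : ∀ A ∈ ggT h, ∀ x : Ch m, ∀ a : WT D x, A x.1 (a : Frm (T x.1)) ∈ WT D x)
    (a : Ch m) (h1 : HitsT D h {a}) (G : Finset (Ch m))
    (hG : ∀ b ∈ G, b ≠ a ∧ HitsT D h {a, b}) :
    ∀ A : Module.End ℂ (WT D a), LinearMap.trace ℂ (WT D a) A = 0 →
      ∃ C ∈ ggT h, (∀ x : WT D a, C a.1 (x : Frm (T a.1)) = (A x : Frm (T a.1))) ∧
        ∀ b ∈ G, ∀ x : WT D b, C b.1 (x : Frm (T b.1)) = 0 := by
  classical
  induction G using Finset.induction_on with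
  | empty =>
    intro A hA
    obtain ⟨C, hC, hC1⟩ := h1 (fun s => if hs : s = a then hs ▸ A else 0) (by
      intro s
      by_cases hs : s = a
      · subst hs
        simpa using hA
      · simp [hs])
    refine ⟨C, hC, fun x => ?_, fun b hb => absurd hb (Finset.notMem_empty b)⟩
    have h3 := hC1 a (Set.mem_singleton a) x
    simpa using h3
  | insert b G hb ih =>
    have ih' := ih (fun b' hb' => hG b' (Finset.mem_insert_of_mem hb'))
    have hba := hG b (Finset.mem_insert_self b G)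
    intro A hA
    have hspan := tPerf (WT D a) A hA
    clear hA
    induction hspan using Submodule.span_induction with
    | mem X hX =>
      obtain ⟨A1, A2, t1, t2, rfl⟩ := hX
      obtain ⟨C1, hC1, u1, u2⟩ := ih' A1 t1
      obtain ⟨C2, hC2, w⟩ := hba.2 (fun s => if hs : s = a then hs ▸ A2 else 0) (by
        intro s
        by_cases hs : s = a
        · subst hs
          simpa using t2
        · simp [hs])
      have w1 : ∀ x : WT D a, C2 a.1 (x : Frm (T a.1)) = (A2 x : Frm (T a.1)) := by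
        intro x
        have h3 := w a (Set.mem_insert a _) x
        simpa using h3
      have w2 : ∀ x : WT D b, C2 b.1 (x : Frm (T b.1)) = 0 := by
        intro x
        have h3 := w b (Set.mem_insert_of_mem a (Set.mem_singleton b)) x
        simpa [hba.1] using h3
      refine ⟨C1 * C2 - C2 * C1, hcl C1 hC1 C2 hC2, ?_, ?_⟩
      · intro x
        rw [Pi.sub_apply, Pi.mul_apply, Pi.mul_apply, LinearMap.sub_apply, Module.End.mul_apply,
          Module.End.mul_apply, w1, u1, u1, w1]
        rfl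
      · intro b' hb' x
        rw [Pi.sub_apply, Pi.mul_apply, Pi.mul_apply, LinearMap.sub_apply, Module.End.mul_apply,
          Module.End.mul_apply]
        rcases Finset.mem_insert.1 hb' with hb'' | hb''
        · subst hb''
          have h3 := w2 ⟨C1 b'.1 (x : Frm (T b'.1)), hpr C1 hC1 b' x⟩
          change C2 b'.1 (C1 b'.1 (x : Frm (T b'.1))) = 0 at h3
          rw [w2, map_zero, h3, sub_zero]
        · have h3 := u2 b' hb'' ⟨C2 b'.1 (x : Frm (T b'.1)), hpr C2 hC2 b' x⟩
          change C1 b'.1 (C2 b'.1 (x : Frm (T b'.1))) = 0 at h3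
          rw [u2 b' hb'', map_zero, h3, sub_zero]
    | zero =>
      refine ⟨0, Submodule.zero_mem _, fun x => ?_, fun b' _ x => ?_⟩
      · simp
      · simp
    | add X Y _ _ hX hY =>
      obtain ⟨C, hC, p1, p2⟩ := hX
      obtain ⟨C', hC', q1, q2⟩ := hY
      refine ⟨C + C', Submodule.add_mem _ hC hC', fun x => ?_, fun b' hb' x => ?_⟩
      · rw [Pi.add_apply, LinearMap.add_apply, LinearMap.add_apply, p1, q1]
        rfl
      · rw [Pi.add_apply, LinearMap.add_apply, p2 b' hb', q2 b' hb', add_zero]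
    | smul c X _ hX =>
      obtain ⟨C, hC, p1, p2⟩ := hX
      refine ⟨c • C, Submodule.smul_mem _ c hC, fun x => ?_, fun b' hb' x => ?_⟩
      · rw [Pi.smul_apply, LinearMap.smul_apply, LinearMap.smul_apply, p1]
        rfl
      · rw [Pi.smul_apply, LinearMap.smul_apply, p2 b' hb', smul_zero]

end n7_aux

open n7_aux

theorem tn7 : S_n7 := by
  classical
  intro q T m D hm h hh F h1 h2 A hA
  obtain ⟨hcl, hpr0⟩ := tClT q T m D hm h hh
  have hpr : ∀ A ∈ ggT h, ∀ x : Ch m, ∀ a : WT D x, A x.1 (a : Frm (T x.1)) ∈ WT D x := by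
    intro A hA x a
    obtain ⟨A', _, hA'⟩ := hpr0 A hA x
    rw [hA' a]
    exact (A' a).2
  have : ∀ i, NeZero (m i) := fun i => ⟨by have := hm i; omega⟩
  have hex : ∀ a : Ch m, ∃ C ∈ ggT h, a ∈ F →
      (∀ x : WT D a, C a.1 (x : Frm (T a.1)) = (A a x : Frm (T a.1))) ∧
        ∀ b ∈ F, b ≠ a → ∀ x : WT D b, C b.1 (x : Frm (T b.1)) = 0 := by
    intro a
    by_cases ha : a ∈ F
    · obtain ⟨C, hC, p1, p2⟩ := one_step D h hcl hpr a (h1 a ha)
        (Finset.univ.filter fun b => b ∈ F ∧ b ≠ a) (by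
          intro b hb
          rw [Finset.mem_filter] at hb
          exact ⟨hb.2.2, h2 a ha b hb.2.1 hb.2.2⟩) (A a) (hA a)
      refine ⟨C, hC, fun _ => ⟨p1, fun b hb hba x => p2 b ?_ x⟩⟩
      rw [Finset.mem_filter]
      exact ⟨Finset.mem_univ _, hb, hba⟩
    · exact ⟨0, Submodule.zero_mem _, fun h => absurd h ha⟩
  choose C hC hC1 using hex
  refine ⟨∑ a ∈ Finset.univ.filter (fun a => a ∈ F), C a,
    Submodule.sum_mem _ fun a _ => hC a, fun s hs x => ?_⟩
  rw [Finset.sum_apply, LinearMap.sum_apply, Finset.sum_eq_single s]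
  · exact (hC1 s hs).1 x
  · intro b hb hbs
    rw [Finset.mem_filter] at hb
    exact (hC1 b hb.2).2 s hs (Ne.symm hbs) x
  · intro h3
    exact absurd (Finset.mem_filter.2 ⟨Finset.mem_univ _, hs⟩) h3

end SEN

end
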