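import Pool.Agent.Lib.SE.N.Spec
import Pool.Agent.Lib.SE.Q.PrT

/-!
# PROJECT SE-N, module n8: from pairs to tuples
-/

set_option autoImplicit false

open Module

noncomputable section

namespace SEN

open HC HC.E HC.SE SEB SEQ SER SES SEG SE

theorem tn8 : S_n7 → S_n8 := by
  intro h7 q T m D Γ hm hit hp h hh hC F hF
  obtain ⟨hP1, hP2⟩ := tPrT q T m D h hh
  -- one component
  have key : ∀ (i : Fin q) (F' : Set (ZMod (m i))ˣ), (∀ t ∈ F', (⟨i, t⟩ : Ch m) ∈ F) →
      HitsT D h {x | ∃ s ∈ F', x = ⟨i, s⟩} := by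
    intro i F' hF' A hA
    have hAd : Ad (Γ i) F' := fun s hs g hg =>
      ⟨fun h1 => (hF ⟨i, s⟩ (hF' s hs) g hg).1 (hF' _ h1),
        fun h1 => (hF ⟨i, s⟩ (hF' s hs) g hg).2 (hF' _ h1)⟩
    have hCi : ∀ X ∈ (fun X : Tup T => X i) '' h, X ∈ (Γ i).C := by
      rintro _ ⟨X, hX, rfl⟩
      exact hC X hX i
    obtain ⟨C, hC, hC'⟩ := hit i _ (hP1 i).1 hCi F' hAd (fun s => A ⟨i, s⟩) (fun s => hA ⟨i, s⟩)
    obtain ⟨C', hC1, hC2⟩ := (hP1 i).2 C hC
    refine ⟨C', hC1, ?_⟩
    rintro _ ⟨s, hs, rfl⟩ a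
    show C' i (a : Frm (T i)) = _
    rw [hC2]
    exact hC' s hs a
  refine h7 q T m D hm h hh F ?_ ?_
  · rintro ⟨i, s⟩ hx
    have h1 := key i {s} (by
      intro t ht
      rw [Set.mem_singleton_iff] at ht
      subst ht
      exact hx)
    have e : ({x | ∃ t ∈ ({s} : Set (ZMod (m i))ˣ), x = ⟨i, t⟩} : Set (Ch m)) = {⟨i, s⟩} := by
      ext x
      constructor
      · rintro ⟨t, ht, rfl⟩
        rw [Set.mem_singleton_iff] at ht
        subst ht
        exact Set.mem_singleton _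
      · intro hx
        rw [Set.mem_singleton_iff] at hx
        exact ⟨s, Set.mem_singleton _, hx⟩
    rwa [e] at h1
  · rintro ⟨i, s⟩ hx ⟨j, t⟩ hy _
    by_cases hij : i = j
    · subst hij
      have h1 := key i {s, t} (by
        intro u hu
        rw [Set.mem_insert_iff, Set.mem_singleton_iff] at hu
        rcases hu with rfl | rfl
        · exact hx
        · exact hy)
      have e : ({x | ∃ u ∈ ({s, t} : Set (ZMod (m i))ˣ), x = ⟨i, u⟩} : Set (Ch m)) =
          {⟨i, s⟩, ⟨i, t⟩} := by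
        ext x
        constructor
        · rintro ⟨u, hu, rfl⟩
          rcases hu with rfl | hu
          · exact Or.inl rfl
          · rw [Set.mem_singleton_iff] at hu
            subst hu
            exact Or.inr rfl
        · rintro (hx | hx)
          · exact ⟨s, Or.inl rfl, hx⟩
          · exact ⟨t, Or.inr rfl, hx⟩
      rwa [e] at h1
    · intro A hA
      obtain ⟨C, hC, hC1, hC2⟩ := hp i j hij _ (hP2 i j).1 s t (A ⟨i, s⟩) (A ⟨j, t⟩)
        (hA ⟨i, s⟩) (hA ⟨j, t⟩)
      obtain ⟨C', hC3, hC4⟩ := (hP2 i j).2 C hC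
      refine ⟨C', hC3, ?_⟩
      have e1 : C' i = C.1 := congrArg Prod.fst hC4
      have e2 : C' j = C.2 := congrArg Prod.snd hC4
      rintro x (hx | hx) a
      · subst hx
        show C' i (a : Frm (T i)) = _
        rw [e1]
        exact hC1 a
      · rw [Set.mem_singleton_iff] at hx
        subst hx
        show C' j (a : Frm (T j)) = _
        rw [e2]
        exact hC2 a

end SEN
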