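import Pool.Agent.Lib.SE.N.Spec
import Pool.Agent.Lib.SE.Q.FiT
import Pool.Agent.Lib.SE.Q.ReT

/-!
# PROJECT SE-N, module n9: the commutators contain the elements of su which commute with the automorphisms
-/

set_option autoImplicit false

open Module

noncomputable section

namespace SEN

open HC HC.E HC.SE SEB SEQ SER SES SEG SE

theorem tn9 : S_n2 → S_n4 → S_n5 → S_n6 → S_n9 := by
  intro h2 h4 h5 h6 q T m D Γ hm hT h hH X hX hCX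
  have hH' : HLieT D {X | X ∈ h ∧ CT Γ X} := h2.2.1 q T m D Γ h hH
  obtain ⟨⟨F, hFA, hFF⟩, -⟩ := h5 q T m D Γ
  have hB : S_Bas := tBas tPj
  choose A hA1 hA2 using fun x : Ch m =>
    tTr tPj hB (T x.1) (m x.1) (D x.1) (hm x.1) (X x.1) (hX x.1) x.2
  obtain ⟨C, hC, hCF⟩ := hT {X | X ∈ h ∧ CT Γ X} hH' (fun X hX => hX.2) F hFA A hA1
  have key := tReT q T m D hm (ComT {X | X ∈ h ∧ CT Γ X}) X ?_ (fun i => (hX i).1)
    {y : Ch m | ∃ g ∈ (Γ y.1).S, (⟨y.1, g * y.2⟩ : Ch m) ∈ F} ?_ C hC ?_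
  · refine Submodule.span_mono ?_ key
    rintro Y ⟨Y₁, h₁, Y₂, h₂, rfl⟩
    exact ⟨Y₁, h₁.1, Y₂, h₂.1, rfl⟩
  · rintro Y ⟨Y₁, h₁, Y₂, h₂, rfl⟩ i
    exact FiT_aux.com_u (D i) (hH'.u _ h₁ i) (hH'.u _ h₂ i)
  · intro x
    obtain ⟨g, hg, h | h⟩ := hFF x
    · exact Or.inl ⟨g, hg, h⟩
    · refine Or.inr ⟨g, hg, ?_⟩
      change (⟨x.1, g * -x.2⟩ : Ch m) ∈ F
      rw [mul_neg]
      exact h
  · rintro y ⟨g, hg, hy⟩ b hb
    obtain ⟨-, h42, -⟩ := h4 (T y.1) (m y.1) (D y.1) (Γ y.1) (hm y.1) g⁻¹ (inv_mem hg) (g * y.2)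
    have hb' : b ∈ Ws (D y.1) (g⁻¹ * (g * y.2)) := by
      rw [inv_mul_cancel_left]
      exact hb
    obtain ⟨a, ha, rfl⟩ := h42 b hb'
    have e1 := h6.2.1 q T m D Γ {X | X ∈ h ∧ CT Γ X} (fun X hX => hX.2) C hC y.1 g⁻¹
      (inv_mem hg) a
    have e2 : C y.1 a = pre (X y.1) a :=
      (hCF ⟨y.1, g * y.2⟩ hy ⟨a, ha⟩).trans (hA2 ⟨y.1, g * y.2⟩ ⟨a, ha⟩).symm
    rw [e1, e2]
    refine LinearMap.ext fun v => ?_
    have e3 := hCX y.1 g⁻¹ (inv_mem hg) v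
    exact congrArg a e3

end SEN
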