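import Pool.Agent.Lib.SE.N.Fn
import Pool.Agent.Lib.SE.O.Main
import Pool.Agent.Lib.SE.N.n0
import Pool.Agent.Lib.SE.N.n1
import Pool.Agent.Lib.SE.N.n2
import Pool.Agent.Lib.SE.N.n3
import Pool.Agent.Lib.SE.N.n4
import Pool.Agent.Lib.SE.N.n5
import Pool.Agent.Lib.SE.N.n6
import Pool.Agent.Lib.SE.N.n7
import Pool.Agent.Lib.SE.N.n8
import Pool.Agent.Lib.SE.N.n9
import Pool.Agent.Lib.SE.N.n10
import Pool.Agent.Lib.SE.N.n11
import Pool.Agent.Lib.SE.N.n12
import Pool.Agent.Lib.SE.N.n13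
import Pool.Agent.Lib.SE.N.n14
import Pool.Agent.Lib.SE.N.n15
import Pool.Agent.Lib.SE.N.n16
import Pool.Agent.Lib.SE.N.n17
import Pool.Agent.Lib.SE.N.n18
import Pool.Agent.Lib.SE.N.n19
import Pool.Agent.Lib.SE.N.n20
import Pool.Agent.Lib.SE.N.n21
import Pool.Agent.Lib.SE.N.n22
import Pool.Agent.Lib.SE.N.n23
import Pool.Agent.Lib.SE.N.n24
import Pool.Agent.Lib.SE.N.n25
import Pool.Agent.Lib.SE.N.n26

/-!
# PROJECT SE-N: the modules and the final theorem (helper59)
-/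

set_option autoImplicit false

noncomputable section

namespace SEN

theorem n2' : S_n2 := tn2 tn0 tn1

theorem n3' : S_n3 := tn3 n2'

theorem n8' : S_n8 := tn8 tn7

theorem n9' : S_n9 := tn9 n2' tn4 tn5 tn6

theorem n10' : S_n10 := tn10 n3'

theorem n11' : S_n11 := tn11 tn4 tn5 tn6

theorem n12' : S_n12 := tn12 n11'

theorem n13' : S_n13 := tn13 n2' tn4 tn5 tn6 n12'

theorem n14' : S_n14 := tn14 n2' tn4 tn5 tn6

theorem n17' : S_n17 := tn17 tn0 tn1

theorem n18' : S_n18 := tn18 tn0 tn1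

theorem n20' : S_n20 := tn20 tn4 tn19

theorem n22' : S_n22 := tn22 tn16 n17' n18' n20' tn21 tn25 tn26

theorem n23' : S_n23 := tn23 n9' tn15 n22'

theorem n24' : S_n24 := tn24 n13' n23'

theorem modsN : ModsN := ⟨n8', n10', n12', n14', n24'⟩

/-- **THE FINAL THEOREM**: all cyclic covers of the line with very general branch points. -/
theorem finN : FinN := finN_of modsN SEV.modsV SEO.modsO SET.tJng

end SEN
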