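import Pool.Agent.Lib.SE.L.SpecZ

/-!
# PROJECT SE-N: the final theorem, all cyclic covers of the line with very general branch points (statement)
-/

set_option autoImplicit false

open Module

noncomputable section

namespace SEN

open HC HC.E HC.SE SEB SEQ SE SER SEE SES SEG SEZ SEL

/-- The factors in the final form: other factors, or the new parts of ALL cyclic covers of the line whose branch set
is contained in `{∞, s_1, …, s_p}`. -/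
def Fav {p : ℕ} (s : Fin p → ℂ) (G : AV) : Prop :=
  Fa0 G ∨ ∃ (m r : ℕ) (b : Fin (r + 1) → ℕ) (i : Fin (r + 1) → Fin p) (k : Option (Fin p)),
    Okk i k ∧ ∃ _ : New G m (pt s i k) b,
      IsCov m (pt s i k) b ∨ (m = 2 ∧ (∀ j, b j = 1) ∧ Even r ∧ 4 ≤ r)

/-- **THE FINAL THEOREM.** -/
def FinN : Prop :=
  ∃ M : (p : ℕ) → Set (Fin p → ℂ), (∀ p, IsMeagre (M p)) ∧
  ∀ (p : ℕ) (s : Fin p → ℂ), s ∉ M p →
  ∀ (A B T : AV) (N' : ℕ) (G : Fin N' → AV), IsCM A → (∀ n, Fav s (G n)) → IsProdE B A G →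
  ∀ (q N : ℕ) (J : Fin q → AV) (j : Fin N → Fin q) (m : Fin q → ℕ)
    (Z : ∀ i, Module.End ℂ (J i).V) (E : ∀ i, (J i).V →ₗ[ℝ] (J i).V →ₗ[ℝ] ℝ)
    (ψ : T.V ≃ₗ[ℂ] B.V × (∀ n, (J (j n)).V)),
    (∀ i, Fct (J i) (m i) (Z i)) → (∀ i, IsPol (J i) (Z i) (E i)) →
    (∀ v ∈ T.L, ∃ k : ℕ, k ≠ 0 ∧ k • (ψ v).1 ∈ B.L ∧ ∀ n, k • (ψ v).2 n ∈ (J (j n)).L) →
    ∀ (d : ℕ) (c : Hlg T d), IsHodge T d c → SUK Z E ψ c → Alg2 T d c

end SEN
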