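import Pool.Agent.Lib.SE.S.H0
import Pool.Agent.Lib.SE.S.All
import Pool.Agent.Lib.SE.Q.PTg
import Pool.Agent.Lib.SE.G.SpecK

/-!
# PROJECT SE-N: new parts with symmetric exponents (helper59)

`T` with `D : Cyc T m` (SE/Big/Spec.lean). `Sd D`: a group `S` of units, `-1 ∉ S`, and for every `g ∈ S` a rational
automorphism `Θ g` of `T` with `Θ Z = Z ^ g Θ`; then the eigenspaces `Ws D s` and `Ws D (g s)` carry the same
representation of the Hodge Lie algebra. The Lie algebra part of SE/Q, SE/R, SE/S for sets of characters with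
at most one element in every orbit of `± S` (`Adm`), and then a class which is killed by the elements of `su` which
commute with the `Θ g` is the push forward of a class of a bigger variety which is killed by all of `su`.

Every module: file `SE/N/nXyz.lean`, `theorem tnXyz : S_nXyz`, namespace `SEN` (after it
`open HC HC.E HC.SE SEB SEQ SER SES SEG SE`), import `Pool.Agent.Lib.SE.N.Spec` and the proved modules you want. If the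
docstring says `From S_A` the theorem is `tnXyz : S_A → S_nXyz`. Auxiliary lemmas in `namespace SEN.nXyz_aux`.
Most modules are copies of proved modules with small changes: start with `cp` of the file named in the docstring.
-/

set_option autoImplicit false

open Module

noncomputable section

namespace SEN

open HC HC.E HC.SE SEB SEQ SER SES SEG SE

/-! ## The data -/

/-- A group of units and semilinear rational automorphisms. -/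
structure Sd {T : AV} {m : ℕ} (D : Cyc T m) where
  S : Subgroup (ZMod m)ˣ
  neg : (-1 : (ZMod m)ˣ) ∉ S
  Θ : (ZMod m)ˣ → (T.V ≃ₗ[ℂ] T.V)
  rat : ∀ g ∈ S, RatEnd T (((Θ g : T.V ≃ₗ[ℂ] T.V) : T.V →ₗ[ℂ] T.V).restrictScalars ℝ)
  com : ∀ g ∈ S, ∀ v, Θ g (D.Z v) = (D.Z ^ (g : ZMod m).val) (Θ g v)

/-- The real endomorphisms which commute with the `Θ g`. -/
def Sd.C {T : AV} {m : ℕ} {D : Cyc T m} (Γ : Sd D) : Set (Module.End ℝ T.V) :=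
  {X | ∀ g ∈ Γ.S, ∀ v, X (Γ.Θ g v) = Γ.Θ g (X v)}

/-- Admissible sets of characters: at most one element in every orbit of `± S`. -/
def Ad {T : AV} {m : ℕ} {D : Cyc T m} (Γ : Sd D) (F : Set (ZMod m)ˣ) : Prop :=
  ∀ s ∈ F, ∀ g ∈ Γ.S, (g * s ∈ F → g = 1) ∧ -(g * s) ∉ F

/-- One variety: the commutators hit all admissible sets. -/
def IsHitN {T : AV} {m : ℕ} {D : Cyc T m} (Γ : Sd D) : Prop :=
  ∀ h, HLie D h → (∀ X ∈ h, X ∈ Γ.C) → ∀ F : Set (ZMod m)ˣ, Ad Γ F → Hits D h F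

/-- Single characters are hit. -/
def IsHit1 {T : AV} {m : ℕ} (D : Cyc T m) : Prop :=
  ∀ h, HLie D h → ∀ s, Hits D h {s}

section Tuples

variable {q : ℕ} {T : Fin q → AV} {m : Fin q → ℕ} {D : ∀ i, Cyc (T i) (m i)}

/-- Admissible sets of characters of a tuple. -/
def Adm (Γ : ∀ i, Sd (D i)) (F : Set (Ch m)) : Prop :=
  ∀ x ∈ F, ∀ g ∈ (Γ x.1).S, ((⟨x.1, g * x.2⟩ : Ch m) ∈ F → g = 1) ∧
    (⟨x.1, -(g * x.2)⟩ : Ch m) ∉ F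

/-- Every orbit meets `F`. -/
def Ful (Γ : ∀ i, Sd (D i)) (F : Set (Ch m)) : Prop :=
  ∀ x : Ch m, ∃ g ∈ (Γ x.1).S, (⟨x.1, g * x.2⟩ : Ch m) ∈ F ∨ (⟨x.1, -(g * x.2)⟩ : Ch m) ∈ F

/-- All components commute with the `Θ g`. -/
def CT (Γ : ∀ i, Sd (D i)) (X : Tup T) : Prop := ∀ i, X i ∈ (Γ i).C

/-- The Lie algebras hit all admissible sets. -/
def HTN (Γ : ∀ i, Sd (D i)) : Prop :=
  ∀ h, HLieT D h → (∀ X ∈ h, CT Γ X) → ∀ F : Set (Ch m), Adm Γ F → HitsT D h F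

end Tuples

/-! ## Linear algebra over `ℚ` and `ℝ` -/

/-- **n0**: COEFFICIENTS INDEPENDENT OVER `ℚ`. PROOF. `x = ∑_j d_j z_j`, `z_j ∈ h`; `c` a basis of the `ℚ`-span of the `d_j`
in `ℝ`, `d_j = ∑_k q_jk c_k`, `y_k = ∑_j q_jk z_j ∈ h`. (Compare SE/Big/RatSp.lean, SE/Q/Cutg.lean, SE/R/Rt.lean.) -/
def S_n0 : Prop :=
  ∀ (V : Type) [AddCommGroup V] [Module ℝ V] (h : Set V), (0 : V) ∈ h →
    (∀ x ∈ h, ∀ y ∈ h, x + y ∈ h) → (∀ t : ℚ, ∀ x ∈ h, (t : ℝ) • x ∈ h) →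
    ∀ x ∈ Submodule.span ℝ h, ∃ (n : ℕ) (c : Fin n → ℝ) (y : Fin n → V),
      LinearIndependent ℚ c ∧ (∀ k, y k ∈ h) ∧ x = ∑ k, c k • y k

/-- **n1**: RATIONAL ENDOMORPHISMS WITH INDEPENDENT COEFFICIENTS. PROOF. Evaluate at a basis of the lattice
(`RatSp_aux.lat_basis`, SE/Big/RatSp.lean): the coordinates of `∑ c_k Y_k (b_j) = 0` are `∑ c_k q_k`, `q_k` rational,
so `q_k = 0`. -/
def S_n1 : Prop :=
  ∀ (T T' : AV) (n : ℕ) (c : Fin n → ℝ), LinearIndependent ℚ c →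
    ∀ Y : Fin n → (T.V →ₗ[ℝ] T'.V), (∀ k, RatHom T T' (Y k)) → ∑ k, c k • Y k = 0 → ∀ k, Y k = 0

/-- **n2**: CUTTING DOWN. From `S_n0`, `S_n1`. PROOF. The closure properties of `{X ∈ h | X ∈ C}` directly (the `Θ g` are
complex linear, so `C` is a real subspace closed under products). `i`: `(i) = ∑ c_k Y_k`, `Y_k ∈ h` (`S_n0`); `i` commutes
with `Θ g`, so `∑ c_k (Y_k Θ - Θ Y_k) = 0` in the component, and `Y_k Θ - Θ Y_k` is rational: `S_n1`. The four versions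
in the same way. -/
def S_n2 : Prop :=
  (∀ (T : AV) (m : ℕ) (D : Cyc T m) (Γ : Sd D) (h : Set (Module.End ℝ T.V)), HLie D h →
    HLie D {X | X ∈ h ∧ X ∈ Γ.C}) ∧
  (∀ (q : ℕ) (T : Fin q → AV) (m : Fin q → ℕ) (D : ∀ i, Cyc (T i) (m i)) (Γ : ∀ i, Sd (D i))
    (h : Set (Tup T)), HLieT D h → HLieT D {X | X ∈ h ∧ CT Γ X}) ∧
  (∀ (q : ℕ) (T : Fin q → AV) (m : Fin q → ℕ) (D : ∀ i, Cyc (T i) (m i)) (Γ : ∀ i, Sd (D i))
    (B : AV) (ι : Type) (G : GC B ι) (h : Set (TB T B)), HLieR D G h →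
    HLieR D G {X | X ∈ h ∧ CT Γ X.1}) ∧
  ∀ (q q' : ℕ) (T : Fin q → AV) (m : Fin q → ℕ) (D : ∀ i, Cyc (T i) (m i)) (Γ : ∀ i, Sd (D i))
    (B : AV) (ι : Type) (G : GC B ι) (G' : Fin q' → AV)
    (E : ∀ k, (G' k).V →ₗ[ℝ] (G' k).V →ₗ[ℝ] ℝ) (h : Set (TM T B G')), HLieM D G E h →
    HLieM D G E {X | X ∈ h ∧ CT Γ X.1.1}

/-- **n3**: THERE IS SUCH A LIE ALGEBRA. From `S_n2`. PROOF. `h₀ = {X | RatEnd T X ∧ IsU D X}` is an `HLie` (`S_Hr`, `tHr`,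
SE/R/Hr.lean, gives `i` in its real span; closure: `isU_add` etc. in SE/Big/Hl.lean); `S_n2`. -/
def S_n3 : Prop :=
  ∀ (T : AV) (m : ℕ) (D : Cyc T m) (Γ : Sd D), ∃ h, HLie D h ∧ ∀ X ∈ h, X ∈ Γ.C

/-! ## Characters -/

/-- The action of `Θ g` on the forms. -/
def pT {T : AV} (Θ : T.V ≃ₗ[ℂ] T.V) : Frm T →ₗ[ℂ] Frm T :=
  pre ((Θ : T.V →ₗ[ℂ] T.V).restrictScalars ℝ)

/-- **n4**: THE ACTION ON THE FORMS. PROOF. `(a ∘ Θ)(Z v) = a(Z^g Θ v) = zet(s)^(g.val) a(Θ v)`, and `zet m (g s) = zet m s ^ g.val`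
(both are powers of `exp(2 π i/m)`; `m ≠ 0`). Inverse: `b ∘ Θ⁻¹`, `Θ⁻¹ Z^g = Z Θ⁻¹`, so `(b ∘ Θ⁻¹)(Z v) = b(Z^(g'.val) Θ⁻¹ v)`,
`g' = g⁻¹`. Type `(1,0)` is preserved (`Θ` is complex linear), so `p (g s) = p s`. -/
def S_n4 : Prop :=
  ∀ (T : AV) (m : ℕ) (D : Cyc T m) (Γ : Sd D), 3 ≤ m → ∀ g ∈ Γ.S, ∀ s,
    (∀ a ∈ Ws D s, pT (Γ.Θ g) a ∈ Ws D (g * s)) ∧
    (∀ b ∈ Ws D (g * s), ∃ a ∈ Ws D s, b = pT (Γ.Θ g) a) ∧ D.p (g * s) = D.p s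

/-- **n5**: TRANSVERSALS. PROOF. `K = S ∪ -S` is a subgroup; choose one element in every coset of `K` in every
component (for the coset of `x` the element `x`). `F` = these elements: `g s ∈ F` gives `g s = s`; `-(g s) ∈ F` gives
`-(g s) = s`, `g = -1 ∈ S`. -/
def S_n5 : Prop :=
  ∀ (q : ℕ) (T : Fin q → AV) (m : Fin q → ℕ) (D : ∀ i, Cyc (T i) (m i)) (Γ : ∀ i, Sd (D i)),
    (∃ F : Set (Ch m), Adm Γ F ∧ Ful Γ F) ∧ ∀ x : Ch m, ∃ F : Set (Ch m), x ∈ F ∧ Adm Γ F ∧ Ful Γ F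

/-- **n6**: THE COMPLEX SPAN COMMUTES WITH `Θ`. PROOF. `pre` reverses products; linearity (`Submodule.span_induction`);
`ComT h`: commutators of elements which commute with `Θ g`. The versions for `gg`, `ggT`, `ggR`, `ggM`. -/
def S_n6 : Prop :=
  (∀ (T : AV) (m : ℕ) (D : Cyc T m) (Γ : Sd D) (h : Set (Module.End ℝ T.V)),
    (∀ X ∈ h, X ∈ Γ.C) → ∀ C ∈ gg h, ∀ g ∈ Γ.S, ∀ a, C (pT (Γ.Θ g) a) = pT (Γ.Θ g) (C a)) ∧
  (∀ (q : ℕ) (T : Fin q → AV) (m : Fin q → ℕ) (D : ∀ i, Cyc (T i) (m i)) (Γ : ∀ i, Sd (D i))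
    (h : Set (Tup T)), (∀ X ∈ h, CT Γ X) → ∀ C ∈ ggT h, ∀ i, ∀ g ∈ (Γ i).S, ∀ a,
      C i (pT ((Γ i).Θ g) a) = pT ((Γ i).Θ g) (C i a)) ∧
  (∀ (q : ℕ) (T : Fin q → AV) (m : Fin q → ℕ) (D : ∀ i, Cyc (T i) (m i)) (Γ : ∀ i, Sd (D i))
    (B : AV) (h : Set (TB T B)), (∀ X ∈ h, CT Γ X.1) → ∀ C ∈ ggR h, ∀ i, ∀ g ∈ (Γ i).S, ∀ a,
      C.1 i (pT ((Γ i).Θ g) a) = pT ((Γ i).Θ g) (C.1 i a)) ∧
  ∀ (q q' : ℕ) (T : Fin q → AV) (m : Fin q → ℕ) (D : ∀ i, Cyc (T i) (m i)) (Γ : ∀ i, Sd (D i))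
    (B : AV) (G' : Fin q' → AV) (h : Set (TM T B G')), (∀ X ∈ h, CT Γ X.1.1) →
    ∀ C ∈ ggM h, ∀ i, ∀ g ∈ (Γ i).S, ∀ a,
      C.1.1 i (pT ((Γ i).Θ g) a) = pT ((Γ i).Θ g) (C.1.1 i a)

/-! ## Tuples -/

/-- **n7**: RIBET'S LEMMA, for one set. PROOF. Copy SE/Q/RbT.lean: in `one_step` only the pairs `{a, b}`, `b ∈ G`, are
used; take `a ∈ F`, `G ⊆ F`. -/
def S_n7 : Prop :=
  ∀ (q : ℕ) (T : Fin q → AV) (m : Fin q → ℕ) (D : ∀ i, Cyc (T i) (m i)), (∀ i, 3 ≤ m i) →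
    ∀ h, HLieT D h → ∀ F : Set (Ch m), (∀ x ∈ F, HitsT D h {x}) →
    (∀ x ∈ F, ∀ y ∈ F, y ≠ x → HitsT D h {x, y}) → HitsT D h F

/-- **n8**: FROM PAIRS TO TUPLES. From `S_n7`. PROOF. As SE/Q/HtT.lean: `F` admissible, `x ≠ y` in `F`: if `x.1 = y.1` apply
`IsHitN` to the projection of `h` (its elements are in `C`) and the admissible set `{x.2, y.2}` (or `{x.2}`); if
`x.1 ≠ y.1` apply `Ind` to the projection to the two components. -/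
def S_n8 : Prop :=
  ∀ (q : ℕ) (T : Fin q → AV) (m : Fin q → ℕ) (D : ∀ i, Cyc (T i) (m i)) (Γ : ∀ i, Sd (D i)),
    (∀ i, 3 ≤ m i) → (∀ i, IsHitN (Γ i)) →
    (∀ i j, i ≠ j → ∀ h, HLie2 (D i) (D j) h → ∀ s t, Hit2 (D i) (D j) h s t) → HTN Γ

/-- **n9**: THE COMMUTATORS CONTAIN THE ELEMENTS OF `su` WHICH COMMUTE WITH `Θ`. From `S_n2`, `S_n4`, `S_n5`, `S_n6`. PROOF. As
SE/Q/FiT.lean. `S_n2`: we may assume that the elements of `h` commute with the `Θ g`. `F` from `S_n5`; `C ∈ ggT h` is equal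
to `pre (X i)` (traceless, `S_Tr`) on `WT D x` for `x ∈ F`. `F' = {⟨i, g s⟩ | ⟨i, s⟩ ∈ F, g ∈ S i}`: `C i = pre (X i)` on these
eigenspaces (`S_n4`, `S_n6`, and `X i` commutes with `Θ g`: `pre (X i) (pT Θ a) = pT Θ (pre (X i) a)`). For all `x`: `x ∈ F'` or
`neg x ∈ F'` (`Ful`; `S` is a group). `S_ReT` (`tReT`, SE/Q/ReT.lean) with `F'`. -/
def S_n9 : Prop :=
  ∀ (q : ℕ) (T : Fin q → AV) (m : Fin q → ℕ) (D : ∀ i, Cyc (T i) (m i)) (Γ : ∀ i, Sd (D i)),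
    (∀ i, 3 ≤ m i) → HTN Γ → ∀ h, HLieT D h → ∀ X : Tup T, (∀ i, IsSU (D i) (X i)) → CT Γ X →
    X ∈ Submodule.span ℝ (ComT h)

/-! ## Schur's lemma -/

/-- Conjugation by the `Θ g` is compatible with everything. -/
structure Cj {T : AV} {m : ℕ} {D : Cyc T m} (Γ : Sd D) : Prop where
  su : ∀ g ∈ Γ.S, ∀ A : Module.End ℝ T.V, IsSU D A → ∀ B : Module.End ℝ T.V,
    (∀ v, Γ.Θ g (B v) = A (Γ.Θ g v)) → IsSU D B
  mul : ∀ g ∈ Γ.S, ∀ g' ∈ Γ.S, ∀ A : Module.End ℝ T.V, (∀ v, A (D.Z v) = D.Z (A v)) →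
    ∀ v, A (Γ.Θ g (Γ.Θ g' ((Γ.Θ (g * g')).symm v))) =
      Γ.Θ g (Γ.Θ g' ((Γ.Θ (g * g')).symm (A v)))

/-- **n10**: SCHUR'S LEMMA. From `S_n3`. PROOF. `h` from `S_n3`. (1) A real endomorphism `δ` which commutes with `Z` and all
`X ∈ h` acts as a scalar on every `Ws D s`: `pre δ` preserves it and commutes with the operators induced by `gg h`,
that is (`IsHit1`) with all traceless operators; so it is a scalar (`SER.S_Nsc`, SE/R/Nsc.lean: the traceless part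
commutes with all traceless operators; `finrank ≥ 1`). So `δ` commutes with every `A` which commutes with `Z`
(`pre A` preserves the `Ws D s`, which span the forms: `tBas`; `pre` is injective). (2) `mul`: `δ = Θ g Θ g' (Θ (g g'))⁻¹`
commutes with `Z` (`Z^(g.val g'.val) = Z^((g g').val)`, `Z ^ m = 1` by `tPj`-like lemmas) and with `X ∈ h ⊆ C`. (3) `su`: `B = Θ⁻¹ A Θ`
commutes with `Z`; traces: `tr(B Z^k) = tr(A Θ Z^k Θ⁻¹) = tr(A Z^(g k)) = 0`. Skewness: `ψ` is nondegenerate, so there is `κ` with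
`ψ(Θ u, Θ v) = ψ(u, κ v)`. `κ` commutes with `Z` (`ψ(Θ Z u, Θ Z v) = ψ(Z^g Θ u, Z^g Θ v) = ψ(Θ u, Θ v)`, and
`ψ(u, Z⁻¹ κ Z v) = ψ(Z u, κ Z v)`) and with `X ∈ h` (`X` is skew and commutes with `Θ`: `ψ(u, κ X v) = ψ(Θ u, X Θ v) =
-ψ(X Θ u, Θ v) = -ψ(X u, κ v) = ψ(u, X κ v)`). By (1) `κ B = B κ`. `κ` is bijective. `0 = ψ(A Θ u, Θ v) + ψ(Θ u, A Θ v) =
ψ(Θ B u, Θ v) + ψ(Θ u, Θ B v) = ψ(B u, κ v) + ψ(u, κ B v) = ψ(B u, κ v) + ψ(u, B κ v)`, and `κ v` is arbitrary. -/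
def S_n10 : Prop :=
  ∀ (T : AV) (m r : ℕ) (D : Cyc T m) (Γ : Sd D), 3 ≤ m → 2 ≤ r →
    2 * finrank ℂ T.V = r * m.totient → IsHit1 D → Cj Γ

/-! ## With a factor `B` (real multiplication) -/

/-- Everything admissible is hit with `B`-component `0`. -/
def H0N {q : ℕ} {T : Fin q → AV} {m : Fin q → ℕ} {D : ∀ i, Cyc (T i) (m i)} (Γ : ∀ i, Sd (D i))
    (B : AV) : Prop :=
  ∀ (ι : Type) (G : GC B ι) (h : Set (TB T B)), HLieR D G h → (∀ X ∈ h, CT Γ X.1) →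
    ∀ F : Set (Ch m), Adm Γ F → Hits0 D h F

/-- **n11**: AN ELEMENT WHICH LIVES ON `T i` ONLY. From `S_n4`, `S_n5`, `S_n6`. PROOF. Copy SE/R/Non.lean (`FF i s` there is
replaced by a full admissible `F ∋ ⟨i, s⟩`, `S_n5`; `zer`: `C x.1 = 0` on `WT D x` for the `x ∈ F`, `x ≠ ⟨i,s⟩`, so (`S_n4`, `S_n6`) on
all `⟨x.1, g x.2⟩`, and by `tLn` on their negatives: `C k = 0` for `k ≠ i`), then SE/R/Rt.lean (`tRt`, unchanged). -/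
def S_n11 : Prop :=
  ∀ (q : ℕ) (T : Fin q → AV) (m : Fin q → ℕ) (D : ∀ i, Cyc (T i) (m i)) (Γ : ∀ i, Sd (D i)),
    (∀ i, 3 ≤ m i) → HTN Γ → ∀ (B : AV) (ι : Type) (G : GC B ι) (h : Set (TB T B)),
    HLieR D G h → (∀ X ∈ h, CT Γ X.1) → ∀ i, (∃ s, 2 ≤ (D i).p s) → Only h i

/-- **n12**: EVERYTHING IS HIT WITH `B`-COMPONENT `0`. From `S_n11`. PROOF. Copy SE/R/Idn.lean and SE/R/IdA.lean (`hT` is applied
to `Prod.fst '' h`, whose elements satisfy `CT Γ`, and to the given `F`). -/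
def S_n12 : Prop :=
  ∀ (q : ℕ) (T : Fin q → AV) (m : Fin q → ℕ) (D : ∀ i, Cyc (T i) (m i)) (Γ : ∀ i, Sd (D i)),
    (∀ i, 3 ≤ m i) → HTN Γ → (∀ i, ∃ s, 2 ≤ (D i).p s) → ∀ B : AV, H0N Γ B

/-- **n13**: THE LIE ALGEBRA WITH REAL MULTIPLICATION. From `S_n2`, `S_n4`, `S_n5`, `S_n6`, `S_n12`. PROOF. `h` may be cut down
(`S_n2`; the span of the commutators gets smaller). As SE/R/SuR.lean: `(X, 0) ∈ span ℝ (ComR h)` for `X` in `∏ su_i` with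
`CT Γ X` (`F` from `S_n5`, `Hits0`, extension to `F'` as in `S_n9`, `tReR`). Then as SE/R/JB.lean: the tuple `W.1` there is a
combination of commutators of elements of `h`, so `CT Γ W.1`. -/
def S_n13 : Prop :=
  ∀ (q : ℕ) (T : Fin q → AV) (m : Fin q → ℕ) (D : ∀ i, Cyc (T i) (m i)) (Γ : ∀ i, Sd (D i)),
    (∀ i, 3 ≤ m i) → HTN Γ → (∀ i, ∃ s, 2 ≤ (D i).p s) → ∀ B : AV, SSH B → LR D B

/-- **n14**: THE LIE ALGEBRA WITH SYMPLECTIC FACTORS. From `S_n2`, `S_n4`, `S_n5`, `S_n6`. PROOF. `lm_of` (SE/S/Spec2.lean; used in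
SE/S/All.lean) with `H0 D B` replaced by `H0N Γ B`: `h` may be cut down (`S_n2`); `S_M1`, `S_M3`, `S_M4` are unchanged; `S_M2`: copy
SE/S/M2.lean, `F` from `S_n5` instead of the half system; 'if `C.1.1 z.1 = 0` on `WT D z` for all `z ∈ F` then `C.1.1 = 0`' by
`S_n4`, `S_n6` and `tLn` as in `S_n11`. -/
def S_n14 : Prop :=
  ∀ (q q' : ℕ) (T : Fin q → AV) (m r : Fin q → ℕ) (D : ∀ i, Cyc (T i) (m i)) (Γ : ∀ i, Sd (D i))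
    (B : AV) (G : Fin q' → AV) (E : ∀ k, (G k).V →ₗ[ℝ] (G k).V →ₗ[ℝ] ℝ)
    (f : ∀ k, Frm (G k) →ₗ[ℂ] Frm (G k) →ₗ[ℂ] ℂ), TuD G E f → (∀ i, 3 ≤ m i) →
    (∀ i, 2 * finrank ℂ (T i).V = r i * Nat.totient (m i)) → H0N Γ B → LM D B G E

/-! ## The class is killed -/

/-- Commutators of elements of the Lie algebra of one factor (real span). -/
def CL {T : AV} {m : ℕ} (D : Cyc T m) : Submodule ℝ (Module.End ℝ T.V) :=
  Submodule.span ℝ {X | ∃ P ∈ Lef T D.Z D.ψ, ∃ Q ∈ Lef T D.Z D.ψ, X = P * Q - Q * P}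

/-- **n15**: THE LIE ALGEBRA STEP. `𝒮` a set of indices; `X` a tuple such that every `HLieT` contains in the real span of its
commutators a tuple equal to `X` on `𝒮`, and `X i` is a combination of commutators for `i ∉ 𝒮`. Then `(0, X)` kills `c`.
PROOF. Copy SE/Q/LiR.lean (`tLiR`): there `X` is a commutator `[P, Q]`, here any such `X`. -/
def S_n15 : Prop :=
  ∀ (A T : AV) (q N : ℕ) (J : Fin q → AV) (m : Fin q → ℕ) (D : ∀ i, Cyc (J i) (m i))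
    (j : Fin N → Fin q) (𝒮 : Set (Fin q)) (ψ : T.V ≃ₗ[ℂ] A.V × (∀ n, (J (j n)).V)), IsCM A →
    (∀ v ∈ T.L, ∃ k : ℕ, k ≠ 0 ∧ k • (ψ v).1 ∈ A.L ∧ ∀ n, k • (ψ v).2 n ∈ (J (j n)).L) →
    ∀ (d : ℕ) (c : Hlg T d), IsHodge T d c → SUS 𝒮 (fun i => (D i).Z) (fun i => (D i).ψ) ψ c →
    ∀ X : Tup J, (∀ h, HLieT D h → ∃ W ∈ Submodule.span ℝ (ComT h), ∀ i ∈ 𝒮, W i = X i) →
    (∀ i, i ∉ 𝒮 → X i ∈ CL (D i)) → ∀ a, lieAct (Lie_aux.EE ψ 0 X) c a = 0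

/-! ## Push forward -/

/-- The action of a real linear map on homology. -/
def psh {T T' : AV} {d : ℕ} (Φ : T.V →ₗ[ℝ] T'.V) (c : Hlg T d) : Hlg T' d :=
  c.compLinearMap (preH Φ)

/-- `c` has rational values on the rational forms. -/
def RatC (T : AV) (d : ℕ) (c : Hlg T d) : Prop :=
  ∀ a : Fin d → (T.V →ₗ[ℝ] ℂ), (∀ i, ∀ v ∈ T.L, ∃ x : ℚ, a i v = x) → ∃ x : ℚ, c a = x

/-- **n16**: RATIONAL COMPONENTS OF A CLASS. PROOF. `b_i` a basis of the lattice, `β_i` the dual forms (`RatSp_aux.fb`); the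
values `c(β_(i_1), …, β_(i_d))` span a finite dimensional `ℚ`-subspace of `ℂ`, `λ_k` a basis of it; `c_k` = the class with the
`k`-th coordinates (apply the `ℚ`-linear coordinate function `ℂ ⊇ span → ℚ` to the values: `c_k = (l_k ∘ c)` on rational
forms, extended complex multilinearly; `AlternatingMap` from its values on a basis: `Module.Basis.ext_alternating`, and
existence by `MultilinearMap`/`Basis.constr` or by writing `c` in a basis of alternating maps `c ∘ (projections)`).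
If `X` is rational and kills `c`: for rational forms `a`: `0 = ∑_k λ_k lieAct X c_k a` with rational numbers `lieAct X c_k a`
(`a_i ∘ X` is rational), so all are `0`; both sides are complex multilinear in `a`. -/
def S_n16 : Prop :=
  ∀ (T : AV) (d : ℕ) (c : Hlg T d), ∃ (n : ℕ) (x : Fin n → ℂ) (c' : Fin n → Hlg T d),
    c = ∑ k, x k • c' k ∧ (∀ k, RatC T d (c' k)) ∧
    ∀ X : Module.End ℝ T.V, RatEnd T X → (∀ a, lieAct X c a = 0) → ∀ k a, lieAct X (c' k) a = 0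

/-- **n17**: `su` IS DEFINED OVER `ℚ`. From `S_n0`, `S_n1`. PROOF. `X` is a real combination of rational endomorphisms
(`HC.L.tLc1`-like; matrices in a basis of the lattice): `X = ∑ c_k Y_k` (`S_n0` for `h = {Y | RatEnd T Y}`); `Z` is rational: `Y_k`
commutes with `Z` (`S_n1`); `ψ(Y_k u, v) + ψ(u, Y_k v)` is rational for `u, v ∈ T.L`, `∑ c_k (…) = 0`, so it is `0`; the traces
`tr(Y_k Z^j)` are rational, so `0`. (Compare SE/R/Hr.lean, SE/Q/Cutg.lean.) -/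
def S_n17 : Prop :=
  ∀ (T : AV) (m : ℕ) (D : Cyc T m) (X : Module.End ℝ T.V), IsSU D X →
    X ∈ Submodule.span ℝ {Y | RatEnd T Y ∧ IsSU D Y}

/-- **n18**: THE HODGE LIE ALGEBRA OF A PRODUCT. From `S_n0`, `S_n1`. PROOF. `mulI = ∑ c_k (X_k, Y_k)`: apply `S_n0` to
`h = {(X, Y) | X and all Y i rational}` in `Module.End ℝ A.V × Tup P` and `(mulI A, JT P)` (each component is in the real span of
the rational endomorphisms, `HC.L.tLc1`). `Θ g`, `Z` rational: `Y_k i ∈ (Γ i).C`, commutes with `Z` (`S_n1`). `EE ψ X_k Y_k`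
kills the Hodge class `c`: `0 = lieAct (mulI T) c a = ∑ c_k lieAct (EE ψ X_k Y_k) c a` (`HC.L.pLa`), for rational `a` these are
rational numbers (`rat_EE`, SE/W/Lie.lean), so `0`; complex multilinear in `a`. -/
def S_n18 : Prop :=
  ∀ (A T : AV) (q N : ℕ) (P : Fin q → AV) (m : Fin q → ℕ) (D : ∀ i, Cyc (P i) (m i))
    (Γ : ∀ i, Sd (D i)) (j : Fin N → Fin q) (ψ : T.V ≃ₗ[ℂ] A.V × (∀ n, (P (j n)).V)),
    (∀ v ∈ T.L, ∃ k : ℕ, k ≠ 0 ∧ k • (ψ v).1 ∈ A.L ∧ ∀ n, k • (ψ v).2 n ∈ (P (j n)).L) →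
    ∀ (d : ℕ) (c : Hlg T d), IsHodge T d c → ∃ (n : ℕ) (x : Fin n → ℝ)
      (X : Fin n → Module.End ℝ A.V) (Y : Fin n → Tup P),
      (∀ k, RatEnd A (X k) ∧ ∀ i, RatEnd (P i) (Y k i)) ∧
      (∀ k i, Y k i ∈ (Γ i).C ∧ ∀ v, Y k i ((D i).Z v) = (D i).Z (Y k i v)) ∧
      ((mulI A, JT P) : Module.End ℝ A.V × Tup P) = ∑ k, x k • (X k, Y k) ∧
      ∀ k a, lieAct (Lie_aux.EE ψ (X k) (Y k)) c a = 0

/-- The projector to the part of `T.V` with the characters in `Y` (`Y = -Y`). -/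
def ep {T : AV} {m : ℕ} (D : Cyc T m) (Y : Set (ZMod m)ˣ) : Module.End ℝ T.V :=
  open Classical in
  ∑ k ∈ Finset.range m, ((1 / m : ℝ) * ∑ᶠ s ∈ Y, (zet m s ^ k).re) • D.ZR ^ (m - k)

/-- **n19**: THE PROJECTORS. PROOF. `Y` finite (`3 ≤ m`), `Y = -Y` and `zet m (-s) = conj (zet m s)`: `∑ᶠ_(s ∈ Y) Re(zet^k) =
∑ᶠ_(s ∈ Y) zet^k`, so `pre (ep D Y) = ∑_(s ∈ Y) (1/m) ∑_k zet(s)^k pre(Z)^(m-k) = ∑_(s ∈ Y) pj D s` (SE/Big/Pj.lean, `tPj`, `tBas`;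
`Z^m = 1`, so `k ↦ m - k` is the inverse): it is the identity on `Ws D s`, `s ∈ Y`, and `0` for `s ∉ Y`. (3), (4): `pre` is injective
and the `Ws D s` span. (5) with `ψ(Z u, v) = ψ(u, Z⁻¹ v)`, coefficients symmetric under `k ↦ m - k`, only for `k = 0` look at
`Z^m = 1 = Z^0`. (6) is the definition. (7): both sides have the same `pre` on all `Ws D s`, by `S_n4`. -/
def S_n19 : Prop :=
  S_n4 → ∀ (T : AV) (m : ℕ) (D : Cyc T m), 3 ≤ m →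
    (∀ Y : Set (ZMod m)ˣ, (∀ s ∈ Y, -s ∈ Y) →
      (∀ s ∈ Y, ∀ a ∈ Ws D s, pre (ep D Y) a = a) ∧
      (∀ s ∉ Y, ∀ a ∈ Ws D s, pre (ep D Y) a = 0) ∧
      (∀ X : Module.End ℝ T.V, (∀ v, X (D.Z v) = D.Z (X v)) → ep D Y * X = X * ep D Y) ∧
      ep D Y * ep D Y = ep D Y ∧ (∀ u v, D.ψ (ep D Y u) v = D.ψ u (ep D Y v)) ∧
      (ep D Y ∈ Submodule.span ℝ (Set.range fun k : ℕ => D.ZR ^ k)) ∧
      ∀ Γ : Sd D, ∀ g ∈ Γ.S, ∀ v, Γ.Θ g (ep D {s | ∃ t ∈ Y, s = g * t} v) = ep D Y (Γ.Θ g v)) ∧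
    ∀ (ι : Type) [Fintype ι] (Y : ι → Set (ZMod m)ˣ), (∀ i, ∀ s ∈ Y i, -s ∈ Y i) →
      (∀ s, ∃ i, s ∈ Y i) → (∀ i i', i ≠ i' → Disjoint (Y i) (Y i')) →
      (∑ i, ep D (Y i) = 1) ∧ ∀ i i', i ≠ i' → ep D (Y i) * ep D (Y i') = 0

/-- **n20**: THE SYMMETRISED OPERATOR. From `S_n4`, `S_n19`. PROOF. `K = S ∪ -S`, `Y` = a set of representatives of the
cosets of `K` together with its negative: `Y = -Y`, and the sets `g Y`, `g ∈ S`, are disjoint with union everything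
(`-1 ∉ S`). `E g = ep D (g Y)`. For `A` in `su`: `B_g = Θ_g⁻¹ A Θ_g`, `A₀ = ∑_(g ∈ S) B_g E_g`. In `su`: `Cj.su`, and `B_g E_g` is skew
(`B_g` skew and commutes with `E_g`, `E_g` symmetric), its traces are `0` (`E_g` is a combination of powers of `Z`). `C`:
`Θ_h⁻¹ A₀ Θ_h = ∑_g (Θ_g Θ_h)⁻¹ A (Θ_g Θ_h) · Θ_h⁻¹ E_g Θ_h`, `Θ_h⁻¹ ep(g Y) Θ_h = ep(h g Y)` (`S_n19` (7)), and by `Cj.mul` the
first factor is `B_(g h)`; reindex `g ↦ g h`. `Θ_g E_g A₀ = Θ_g B_g E_g = A Θ_g E_g`. -/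
def S_n20 : Prop :=
  ∀ (T : AV) (m : ℕ) (D : Cyc T m) (Γ : Sd D), 3 ≤ m → Cj Γ →
    ∃ E : (ZMod m)ˣ → Module.End ℝ T.V, (∑ᶠ g ∈ Γ.S, E g = 1) ∧
      (∀ g, E g ∈ Submodule.span ℝ (Set.range fun k : ℕ => D.ZR ^ k)) ∧
      ∀ A : Module.End ℝ T.V, IsSU D A → ∃ A₀ : Module.End ℝ T.V, IsSU D A₀ ∧ A₀ ∈ Γ.C ∧
        ∀ g ∈ Γ.S, ∀ v, Γ.Θ g (E g (A₀ v)) = A (Γ.Θ g (E g v))

/-- **n21**: THE BIGGER VARIETY. PROOF. `𝓘 = Σ n : Fin N, (Γ (j n)).S` (finite, `m i ≠ 0`), `e : Fin N' ≃ 𝓘`,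
`j' n' = j (e n').1`, `T'`, `ψ'` from `prodE` (SE/W/Lie.lean) with `ψ' := ` the isomorphism. `Φ v = ψ⁻¹ ((ψ' v).1,
n ↦ ∑_(n' : (e n').1 = n) Θ_g⁻¹ ((ψ' v).2 n'))`, `g = (e n').2`; to avoid casts compose `ψ'` with `LinearEquiv.piCongrLeft ℂ _ e`
and write the sum over `g : (Γ (j n)).S`. `Θ_g⁻¹` is rational (`HC.E.tIsoInv`), so a multiple `k Φ` maps `T'.L` to `T.L`.
`Ψ v = ψ'⁻¹ ((ψ v).1, n' ↦ Θ_g (E_g ((ψ v).2 n)))`. `Φ Ψ v = v`: `∑_g E_g = 1`. -/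
def S_n21 : Prop :=
  E.S_IsoInv → ∀ (A T : AV) (q N : ℕ) (P : Fin q → AV) (m : Fin q → ℕ)
    (D : ∀ i, Cyc (P i) (m i)) (Γ : ∀ i, Sd (D i)) (j : Fin N → Fin q)
    (ψ : T.V ≃ₗ[ℂ] A.V × (∀ n, (P (j n)).V)) (E : ∀ i, (ZMod (m i))ˣ → Module.End ℝ (P i).V),
    (∀ i, 3 ≤ m i) → (∀ i, ∑ᶠ g ∈ (Γ i).S, E i g = 1) →
    (∀ v ∈ T.L, ∃ k : ℕ, k ≠ 0 ∧ k • (ψ v).1 ∈ A.L ∧ ∀ n, k • (ψ v).2 n ∈ (P (j n)).L) →
    ∃ (T' : AV) (N' : ℕ) (n₀ : Fin N' → Fin N) (g₀ : ∀ n', (ZMod (m (j (n₀ n'))))ˣ)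
      (ψ' : T'.V ≃ₗ[ℂ] A.V × (∀ n', (P (j (n₀ n'))).V)) (Φ : T'.V →ₗ[ℂ] T.V)
      (Ψ : T.V →ₗ[ℝ] T'.V), (∀ n', g₀ n' ∈ (Γ (j (n₀ n'))).S) ∧
      (∀ v ∈ T'.L, (ψ' v).1 ∈ A.L ∧ ∀ n', (ψ' v).2 n' ∈ (P (j (n₀ n'))).L) ∧
      (∃ k : ℕ, k ≠ 0 ∧ ∀ v ∈ T'.L, k • Φ v ∈ T.L) ∧ (∀ v, Φ (Ψ v) = v) ∧
      ∀ v, ψ' (Ψ v) = ((ψ v).1, fun n' =>
        (Γ (j (n₀ n'))).Θ (g₀ n') (E (j (n₀ n')) (g₀ n') ((ψ v).2 (n₀ n'))))

/-- **n25**: A RATIONAL CLASS KILLED BY `i` IS A HODGE CLASS. PROOF. `push (u • id) c = c` for `|u| = 1`: see HC/L/Ld.lean (`pLd`, the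
same for a product; the lemmas in `namespace Ld` with `p = id`, or apply `pLd` to the product of `T` with the zero variety):
on forms `a_i` with `a_i (i v) = ± i a_i(v)` (they span) `c(a ∘ u) = u^(p) ū^(q) c(a)`, and `(p - q) i c(a) = 0`. -/
def S_n25 : Prop :=
  ∀ (T : AV) (d : ℕ) (c : Hlg T d), RatC T d c → (∀ a, lieAct (mulI T) c a = 0) → IsHodge T d c

/-- **n26**: PUSH FORWARDS. PROOF. (1) `lieAct X' (psh Ψ c) a = lieAct X c (a ∘ Ψ)`: `(a_i ∘ X') ∘ Ψ = (a_i ∘ Ψ) ∘ X`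
(`Function.update` under `fun i => a i ∘ Ψ`). (2) directly. (3) `psh (k Φ) c = k^d psh Φ c` (multilinear), `Alg2.push` for `k Φ`
(`push` in HC/Defs.lean is `psh` of a complex linear map) and `Alg2.smul`. -/
def S_n26 : Prop :=
  (∀ (T T' : AV) (d : ℕ) (Ψ : T.V →ₗ[ℝ] T'.V) (X : Module.End ℝ T.V) (X' : Module.End ℝ T'.V)
    (c : Hlg T d), (∀ v, X' (Ψ v) = Ψ (X v)) → (∀ a, lieAct X c a = 0) →
    ∀ a, lieAct X' (psh Ψ c) a = 0) ∧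
  (∀ (T T' : AV) (d : ℕ) (Ψ : T.V →ₗ[ℝ] T'.V) (Φ : T'.V →ₗ[ℂ] T.V) (c : Hlg T d),
    (∀ v, Φ (Ψ v) = v) → psh (Φ.restrictScalars ℝ) (psh Ψ c) = c) ∧
  ∀ (T T' : AV) (d : ℕ) (Φ : T'.V →ₗ[ℂ] T.V) (c : Hlg T' d),
    (∃ k : ℕ, k ≠ 0 ∧ ∀ v ∈ T'.L, k • Φ v ∈ T.L) → Alg2 T' d c →
    Alg2 T d (psh (Φ.restrictScalars ℝ) c)

/-- **n22**: THE THEOREM FOR CLASSES KILLED BY THE SYMMETRISED ALGEBRA. From `S_n16`, `S_n17`, `S_n18`, `S_n20`, `S_n21`,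
`S_n25`, `S_n26`. PROOF.
`E i` from `S_n20`; `T'`, `Φ`, `Ψ` from `S_n21`; `c̃ = psh Ψ c`; `psh Φ c̃ = c`. (1) For `A ∈ ∏ su_i`: `A₀ i` from `S_n20`;
`EE ψ' 0 A ∘ Ψ = Ψ ∘ EE ψ 0 A₀` (components), so `EE ψ' 0 A` kills `c̃` because `EE ψ 0 A₀` kills `c` (`lieAct X' (psh Ψ c) a =
lieAct X c (a ∘ Ψ)` if `X' Ψ = Ψ X`). (2) `x_k, X_k, Y_k` from `S_n18`: `EE ψ' X_k Y_k ∘ Ψ = Ψ ∘ EE ψ X_k Y_k` (`Y_k` commutes with `Θ`
and with `E`, a combination of powers of `Z`), so `EE ψ' X_k Y_k` kills `c̃`. (3) `S_n16`: `c̃ = ∑ x_l c'_l`, `c'_l` rational. Every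
rational operator which kills `c̃` kills `c'_l`: so the `EE ψ' X_k Y_k` (rational, `rat_EE`), so `mulI T' = ∑ x_k EE ψ' X_k Y_k` does:
`c'_l` is a Hodge class (`S_n25`). And the `EE ψ' 0 A`, `A i` rational in
`su_i`, so by `S_n17` all `EE ψ' 0 A`, `A ∈ ∏ su_i`, kill `c'_l`; commutators of elements of `Lef` are in `su` (`isSU_comm`, SE/Big/ToBig.lean):
`SUK`. `thmKg` (SE/W/All.lean, `cl_alg2`): `c'_l ∈ Alg2`, so `c̃` is, and `c = psh Φ c̃` is (`S_n26`). -/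
def S_n22 : Prop :=
  ∀ (A T : AV) (q N : ℕ) (P : Fin q → AV) (m : Fin q → ℕ) (D : ∀ i, Cyc (P i) (m i))
    (Γ : ∀ i, Sd (D i)) (j : Fin N → Fin q) (ψ : T.V ≃ₗ[ℂ] A.V × (∀ n, (P (j n)).V)), IsCM A →
    (∀ i, 3 ≤ m i) → (∀ i, HasDA (fun T m c => HC.SE.Alg2 T m c) (m i) (P i) (D i).Z (D i).ψ) →
    (∀ i, Cj (Γ i)) →
    (∀ v ∈ T.L, ∃ k : ℕ, k ≠ 0 ∧ k • (ψ v).1 ∈ A.L ∧ ∀ n, k • (ψ v).2 n ∈ (P (j n)).L) →
    ∀ (d : ℕ) (c : Hlg T d), IsHodge T d c →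
    (∀ X : Tup P, (∀ i, IsSU (D i) (X i)) → CT Γ X → ∀ a, lieAct (Lie_aux.EE ψ 0 X) c a = 0) →
    Alg2 T d c

/-! ## The theorem without the symplectic factors -/

/-- **n23**: TWO FAMILIES. From `S_n9`, `S_n15`, `S_n22`. PROOF. As SE/Q/ThQ.lean (`tThQ`): the family indexed by
`Fin q' ≃ Fin q₁ ⊕ Fin q` (`R` and `J`, `Γ` trivial (`triv`) for the `J i`), `𝒮` = the indices of the `R_i`. `S_n22` for it: for `X` in
`∏ su` with `CT Γ X`: `S_n15` applies: every `HLieT` of the big family restricts to one of `R`, `S_n9` gives the `R`-components;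
`X i ∈ CL (D i)` for the `J i`: `su` is spanned by commutators of `u` (`SEB`: `su_comm`-converse; if it is not available use that
`X i` is a sum of commutators of traceless operators, SE/Big/Perf.lean and the real form SE/Big/Real.lean; see also
SE/Big/ToBig.lean). -/
def S_n23 : Prop :=
  ∀ (A B T : AV) (q₁ N₁ q N : ℕ) (R : Fin q₁ → AV) (k : Fin N₁ → Fin q₁)
    (m₁ : Fin q₁ → ℕ) (D₁ : ∀ i, Cyc (R i) (m₁ i)) (Γ₁ : ∀ i, Sd (D₁ i)) (J : Fin q → AV)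
    (j : Fin N → Fin q) (m : Fin q → ℕ) (D : ∀ i, Cyc (J i) (m i))
    (ψ : T.V ≃ₗ[ℂ] B.V × (∀ n, (J (j n)).V)),
    IsCM A → (∀ i, 3 ≤ m₁ i) → (∀ i, 3 ≤ m i) →
    (∀ i, HasDA (fun T m c => HC.SE.Alg2 T m c) (m₁ i) (R i) (D₁ i).Z (D₁ i).ψ) →
    (∀ i, HasDA (fun T m c => HC.SE.Alg2 T m c) (m i) (J i) (D i).Z (D i).ψ) →
    (∀ i, Cj (Γ₁ i)) → HTN Γ₁ → IsProdE B A (fun n => R (k n)) →
    (∀ v ∈ T.L, ∃ k : ℕ, k ≠ 0 ∧ k • (ψ v).1 ∈ B.L ∧ ∀ n, k • (ψ v).2 n ∈ (J (j n)).L) →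
    ∀ (d : ℕ) (c : Hlg T d), IsHodge T d c →
    HC.SE.SUK (fun i => (D i).Z) (fun i => (D i).ψ) ψ c → HC.SE.Alg2 T d c

/-- **n24**: WITH REAL MULTIPLICATION. From `S_n13`, `S_n23`. PROOF. Copy SE/R/ThR.lean (`tThR`): `hThQ` is replaced by `S_n23`, and
`LR D₁ B₂` comes from `S_n13`. -/
def S_n24 : Prop :=
  ∀ (A Y B T : AV) (q₁ N₁ N₂ q N : ℕ) (R : Fin q₁ → AV) (k : Fin N₁ → Fin q₁)
    (m₁ : Fin q₁ → ℕ) (D₁ : ∀ i, Cyc (R i) (m₁ i)) (Γ₁ : ∀ i, Sd (D₁ i)) (E : Fin N₂ → AV)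
    (J : Fin q → AV) (j : Fin N → Fin q) (m : Fin q → ℕ) (D : ∀ i, Cyc (J i) (m i))
    (ψ : T.V ≃ₗ[ℂ] B.V × (∀ n, (J (j n)).V)),
    IsCM A → (∀ i, 3 ≤ m₁ i) → (∀ i, 3 ≤ m i) →
    (∀ i, HasDA (fun T m c => HC.SE.Alg2 T m c) (m₁ i) (R i) (D₁ i).Z (D₁ i).ψ) →
    (∀ i, HasDA (fun T m c => HC.SE.Alg2 T m c) (m i) (J i) (D i).Z (D i).ψ) →
    (∀ i, Cj (Γ₁ i)) → HTN Γ₁ → (∀ i, ∃ s, 2 ≤ (D₁ i).p s) → (∀ n, IsRM (E n)) →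
    IsProdE Y A (fun n => R (k n)) → IsProdE B Y E →
    (∀ v ∈ T.L, ∃ k : ℕ, k ≠ 0 ∧ k • (ψ v).1 ∈ B.L ∧ ∀ n, k • (ψ v).2 n ∈ (J (j n)).L) →
    ∀ (d : ℕ) (c : Hlg T d), IsHodge T d c →
    HC.SE.SUK (fun i => (D i).Z) (fun i => (D i).ψ) ψ c → HC.SE.Alg2 T d c

/-- The trivial data. -/
def triv {T : AV} {m : ℕ} (D : Cyc T m) (hm : 3 ≤ m) : Sd D where
  S := ⊥
  neg := by
    rw [Subgroup.mem_bot]
    intro h
    have h1 : (-1 : ZMod m) = 1 := by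
      have := congrArg (fun u : (ZMod m)ˣ => (u : ZMod m)) h
      simpa using this
    have h2 : ((2 : ℕ) : ZMod m) = 0 := by
      push_cast
      linear_combination -h1
    rw [ZMod.natCast_eq_zero_iff] at h2
    have := Nat.le_of_dvd (by norm_num) h2
    omega
  Θ _ := LinearEquiv.refl ℂ _
  rat _ _ v hv := ⟨1, one_ne_zero, by
    rw [one_smul]
    exact hv⟩
  com g hg v := by
    rw [Subgroup.mem_bot] at hg
    subst hg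
    have : (1 : ZMod m).val = 1 := ZMod.val_one'' (by omega)
    rw [Units.val_one, this, pow_one]
    rfl

end SEN
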