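import Pool.Agent.Lib.SE.N.FinN
import Pool.Agent.Lib.SE.N.Spec
import Pool.Agent.Lib.SE.T.Jn
import Pool.Agent.Lib.SE.O.Fin

/-!
# PROJECT SE-N: assembly (helper59)
-/

set_option autoImplicit false

open Module

noncomputable section

namespace SEN

open HC HC.E HC.SE SEB SEQ SE SER SEE SES SEG SEZ SEK SEL SEL.FnM_aux SET

/-! ## The modules -/

/-- The modules of SE-N which are used here. -/
structure ModsN : Prop where
  n8 : S_n8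
  n10 : S_n10
  n12 : S_n12
  n14 : S_n14
  n24 : S_n24

/-! ## Good factors -/

/-- The data of a factor. -/
structure GdN {G : AV} {m : ℕ} (r : ℕ) (D : Cyc G m) (Γ : Sd D) : Prop where
  gs : GFs D r
  hitN : IsHitN Γ
  cj : Cj Γ
  da : SEG.HDa D
  p2 : ∃ s, 2 ≤ D.p s

/-- Good factors in the old sense. -/
theorem gdN_of_gd (h10 : S_n10) {G : AV} {m r : ℕ} {D : Cyc G m} (h : Gd r D) :
    GdN r D (triv D h.gf.hm) := by
  have hs := gfs_of_gfw h.gf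
  refine ⟨hs, fun k hk _ F hF => h.gf.hit k hk F fun s hsF hn => ?_,
    h10 G m r D _ h.gf.hm h.gf.hr h.gf.dim hs.hit, h.da, h.p2⟩
  have := (hF s hsF 1 (Subgroup.one_mem _)).2
  rw [one_mul] at this
  exact this hn

/-- Factors of rank 2. -/
theorem gdN_of_G1 (h10 : S_n10) {G : AV} {m : ℕ} {D : Cyc G m} (h : G1 D) (hda : SEG.HDa D)
    (hp : ∃ s, 2 ≤ D.p s) : GdN 2 D (SET.sd h.gfs.hm h.gfs.dim hp) :=
  ⟨h.gfs, isHitN_sd h hp, h10 G m 2 D _ h.gfs.hm h.gfs.hr h.gfs.dim h.gfs.hit, hda, hp⟩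

/-- Families of pairwise non isogenous abelian varieties of the class `K` have independent data. -/
def FamN (K : AV → Prop) : Prop :=
  ∀ (q : ℕ) (R : Fin q → AV), (∀ i, K (R i)) → (∀ i i', i ≠ i' → ¬ Isg (R i) (R i')) →
    ∃ (m r : Fin q → ℕ) (D : ∀ i, Cyc (R i) (m i)) (Γ : ∀ i, Sd (D i)),
      (∀ i, GdN (r i) (D i) (Γ i)) ∧ ∀ i i', i ≠ i' → Ind (D i) (D i')

open SEQ.Fn_aux in
/-- **THE MAIN THEOREM** for a class `K`. -/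
theorem con_ofN (Ms : ModsN) {K : AV → Prop} (hK : FamN K) {B : AV} (hB : Dc (Cls K) B) :
    Con B := by
  have hI : Ing := SES.ing
  obtain ⟨A, N', G, hA, hG', hB⟩ := hB
  intro T q N J j m Z E ψ hF hE hψ d c hc hS
  obtain ⟨B₁, N₁₀, N₃, G₁₀, G₃, hG0, hG3, hB1, hBB⟩ :=
    tSpl (fun G => K G ∨ IsRM G) IsSy A B N' G hG' hB
  obtain ⟨Y, N₁', N₂, G₁, G₂, hG1, hG2, hY, hBY⟩ := tSpl K IsRM A B₁ N₁₀ G₁₀ hG0 hB1
  obtain ⟨A', q₁, N₁, R, k, hA', hR, hne, hYR⟩ := SEQ.tRep HC.E.tIsoInv K A Y N₁' G₁ hA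
    (fun n => Or.inr (hG1 n)) hY
  obtain ⟨q', S, κ, hSy, hne', hBS⟩ := hI.rep HC.E.tIsoInv IsSy B₁ B N₃ G₃ hG3 hBB
  obtain ⟨m₁, r₁, D₁, Γ₁, h1, hInd⟩ := hK q₁ R hR hne
  choose D hDZ hDψ using fun i => cyc_fct (hF i) (hE i)
  obtain rfl : (fun i => (D i).Z) = Z := funext hDZ
  obtain rfl : (fun i => (D i).ψ) = E := funext hDψ
  have hg : ∀ i, GFs (D₁ i) (r₁ i) := fun i => (h1 i).gs
  have hm1 : ∀ i, 3 ≤ m₁ i := fun i => (hg i).hm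
  have hDA : ∀ (J : AV) (m : ℕ) (Z : Module.End ℂ J.V) (R : J.V →ₗ[ℝ] J.V →ₗ[ℝ] ℝ),
      Fct J m Z → IsPol J Z R → HasDA (fun T m c => HC.SE.Alg2 T m c) m J Z R :=
    fun _ _ _ _ hF hP => SEP.hasDA s_da SEP.s_DAB hF hP
  have hHT : HTN Γ₁ := Ms.n8 q₁ R m₁ D₁ Γ₁ hm1 (fun i => (h1 i).hitN)
    fun i j hij h hh s t => hInd i j hij h hh s t
  have hp2 : ∀ i, ∃ s, 2 ≤ (D₁ i).p s := fun i => (h1 i).p2
  -- the symplectic factors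
  choose h2S E' hRf hSp using hSy
  choose f hf using fun i => hI.fm (S i) (E' i) (hRf i)
  have hTu : TuD S E' f := ⟨h2S, hRf, hf, hSp, hne'⟩
  have hLM : ∀ B₂ : AV, LM D₁ B₂ S E' := fun B₂ =>
    Ms.n14 q₁ q' R m₁ r₁ D₁ Γ₁ B₂ S E' f hTu hm1 (fun i => (hg i).dim)
      (Ms.n12 q₁ R m₁ D₁ Γ₁ hm1 hHT hp2 B₂)
  refine hI.th A' Y B₁ B T q₁ N₁ N₂ q N R k m₁ D₁ G₂ J j m D q' N₃ S κ E' ψ hA' hRf hLM hG2 hYR
    hBY hBS hψ ?_ (fun C d c hc => hI.hc q' N₃ S κ E' f C hTu d c hc) d c hc hS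
  intro T₁ ψ₁ hψ₁ d₁ c₁ hc₁ hS₁
  exact Ms.n24 A' Y B₁ T₁ q₁ N₁ N₂ q N R k m₁ D₁ Γ₁ G₂ J j m D ψ₁ hA' hm1
    (fun i => fct_three (hF i)) (fun i => (h1 i).da (D₁ i).ψ (isPol_cyc (D₁ i)))
    (fun i => hDA _ _ _ _ (hF i) (hE i)) (fun i => (h1 i).cj) hHT hp2 hG2 hYR hBY hψ₁ d₁ c₁
    hc₁ hS₁

/-! ## The engine -/

/-- The data of a new part. -/
def NwN (G : AV) (m r : ℕ) (b : Fin (r + 1) → ℕ) (s : Fin (r + 1) → ℂ) : Prop :=
  IsCov m s b ∧ (IsCM G ∨ finrank ℂ G.V = 2 ∨ (HypW m r b ∧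
    ∃ (m₀ : ℕ) (D₀ : Cyc G m₀) (Γ : Sd D₀), GdN r D₀ Γ ∧ (r ≠ 2 → Gd r D₀) ∧
      ∃ (N : New G m s b) (D : Cyc G m), D.Z = N.Z ∧ GFs D r ∧ Frm0 D D₀))

theorem nwN_of_nwD (h10 : S_n10) {G : AV} {m r : ℕ} {b : Fin (r + 1) → ℕ}
    {s : Fin (r + 1) → ℂ} (h : NwD G m r b s) : NwN G m r b s := by
  obtain ⟨hc, h1 | h1 | ⟨m₀, D₀, h1, h2, N, D, h3, h4, h5⟩⟩ := h
  · exact ⟨hc, Or.inl h1⟩
  · exact ⟨hc, Or.inr (Or.inl h1)⟩
  · exact ⟨hc, Or.inr (Or.inr ⟨hypW_of hc h1 h2, m₀, D₀, _, gdN_of_gd h10 h1, fun _ => h1, N, D,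
      h3, gfs_of_gfw h4, h5⟩)⟩

/-- New parts with four very general branch points, one signature `(2, 0)`. -/
theorem nwN_two (h10 : S_n10) {G : AV} {m : ℕ} {b : Fin (2 + 1) → ℕ} {s : Fin (2 + 1) → ℂ}
    (N : New G m s b) (hc : IsCov m s b) (hT : HypW m 2 b → ∀ D : Cyc G m, D.Z = N.Z → G1 D)
    (h2 : ∃ u < m, u.Coprime m ∧ sg m 2 b u = 2) : NwN G m 2 b s := by
  have hm : 3 ≤ m := hc.1
  have : NeZero m := ⟨by omega⟩
  obtain ⟨D, hD⟩ := tAvg G m (by omega) N.Z N.lat N.cyc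
  have hsg : ∀ u : (ZMod m)ˣ, D.p u = sg m 2 b (u : ZMod m).val :=
    tPnew tSg mods.Bas G m 2 s b hc N D hD
  have hsum := sum_p (D := D) hm N.dim
  have hda : SEG.HDa D := fun R hR =>
    SEP.hasDA s_da SEP.s_DAB (Or.inl ⟨2, s, b, N, hc, hD.symm⟩) hR
  by_cases hdef : ∀ s, D.p s = 0 ∨ D.p (-s) = 0
  · exact ⟨hc, Or.inl (isCM_def hm N.dim hdef)⟩
  simp only [not_forall, not_or] at hdef
  obtain ⟨v, hv1, hv2⟩ := hdef
  have hv := hsum v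
  have hW : HypW m 2 b := by
    refine ⟨(v : ZMod m).val, ZMod.val_lt _, ZMod.val_coe_unit_coprime v, ?_, ?_⟩
    · rw [← hsg]
      omega
    · have h1 := tSg m 2 s b hc (v : ZMod m).val (ZMod.val_lt _)
        (ZMod.val_coe_unit_coprime v)
      rw [← hsg] at h1
      omega
  obtain ⟨u, hum, huc, hu2⟩ := h2
  obtain ⟨w, hw⟩ := exists_unit hum huc
  have h1 : G1 D := hT hW D hD
  refine ⟨hc, Or.inr (Or.inr ⟨hW, m, D, _, gdN_of_G1 h10 h1 hda ⟨w, ?_⟩,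
    fun h => absurd rfl h, N, D, hD, h1.gfs, Or.inl ⟨rfl, rfl⟩⟩)⟩
  rw [hsg, hw, hu2]

/-- The class of the good factors in the final theorem, for given data. -/
def Kn (N' : ℕ) (G₀ : Fin N' → AV) (μ ρ : Fin N' → ℕ) (β : ∀ n, Fin (ρ n + 1) → ℕ)
    (σ : ∀ n, Fin (ρ n + 1) → ℂ) (G : AV) : Prop :=
  ∃ (m r : ℕ) (D₀ : Cyc G m) (Γ : Sd D₀), GdN r D₀ Γ ∧ (r ≠ 2 → Gd r D₀) ∧
    ((3 ≤ r ∧ ∀ s, 0 < D₀.p s) ∨
    ∃ n, G = G₀ n ∧ NwN (G₀ n) (μ n) (ρ n) (β n) (σ n) ∧ r = ρ n ∧ HypW (μ n) (ρ n) (β n) ∧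
      ∃ (N : New G (μ n) (σ n) (β n)) (D : Cyc G (μ n)), D.Z = N.Z ∧ GFs D (ρ n) ∧ Frm0 D D₀)

/-- All structures of the two new parts are independent. -/
def IndS {G G' : AV} {m m' r r' : ℕ} (s : Fin (r + 1) → ℂ) (b : Fin (r + 1) → ℕ)
    (s' : Fin (r' + 1) → ℂ) (b' : Fin (r' + 1) → ℕ) : Prop :=
  ∀ (N : New G m s b) (N' : New G' m' s' b') (D : Cyc G m) (D' : Cyc G' m'), D.Z = N.Z →
    D'.Z = N'.Z → GFs D r → GFs D' r' → Ind D D'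

/-- Pairs: independent data. -/
theorem fam_kn {N' : ℕ} {G₀ : Fin N' → AV} {μ ρ : Fin N' → ℕ}
    {β : ∀ n, Fin (ρ n + 1) → ℕ} {σ : ∀ n, Fin (ρ n + 1) → ℂ}
    (hC : ∀ n n', NwN (G₀ n) (μ n) (ρ n) (β n) (σ n) →
      NwN (G₀ n') (μ n') (ρ n') (β n') (σ n') →
      Isg (G₀ n) (G₀ n') ∨ (HypW (μ n) (ρ n) (β n) → HypW (μ n') (ρ n') (β n') → ρ n = ρ n' →
        IndS (G := G₀ n) (G' := G₀ n') (m := μ n) (m' := μ n') (σ n) (β n) (σ n') (β n'))) :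
    FamN (Kn N' G₀ μ ρ β σ) := by
  intro q R hR hne
  choose m r D Γ h1 h1' h2 using hR
  refine ⟨m, r, D, Γ, h1, fun i i' hii => ?_⟩
  by_cases hrr : r i = r i'
  swap
  · exact ind_ne hrr (h1 i).gs (h1 i').gs
  have key : 3 ≤ r i → ((∀ s, 0 < (D i).p s) ∨ (∀ s, 0 < (D i').p s)) → Ind (D i) (D i') := by
    intro h3 h4 h hh s t
    have g1 : Gd (r i) (D i) := h1' i (by omega)
    have g2 : Gd (r i') (D i') := h1' i' (by omega)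
    refine tPPv _ _ _ _ _ _ (D i) (D i') g1.gf g2.gf (cpv_of g1 g2 ?_) (hne i i' hii) h hh s t
    rcases h4 with h4 | h4
    · exact Or.inl h4
    · exact Or.inr (Or.inl h4)
  rcases h2 i with ⟨hi3, hi⟩ | ⟨n, e1, e2, e3, e4, N, D₁, e5, eg, e6⟩
  · exact key hi3 (Or.inl hi)
  rcases h2 i' with ⟨hi3, hi⟩ | ⟨n', f1, f2, f3, f4, N₁, D₂, f5, fg, f6⟩
  · exact key (by omega) (Or.inr hi)
  rcases hC n n' e2 f2 with hc | hc
  · rw [← e1, ← f1] at hc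
    exact absurd hc (hne i i' hii)
  · have hI : ∀ (N : New (R i) (μ n) (σ n) (β n)) (N' : New (R i') (μ n') (σ n') (β n'))
        (D : Cyc (R i) (μ n)) (D' : Cyc (R i') (μ n')), D.Z = N.Z → D'.Z = N'.Z →
        GFs D (ρ n) → GFs D' (ρ n') → Ind D D' := by
      rw [e1, f1]
      exact hc e4 f4 (by omega)
    have hI' := hI N N₁ D₁ D₂ e5 f5 eg fg
    exact ind_frm e6 (ind_symm (ind_frm f6 (ind_symm hI')))

/-- **THE MAIN THEOREM**: `F` is a class of other factors, pairs of new parts are isogenous or independent. -/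
theorem con_mainN (Ms : ModsN) {F : AV → Prop}
    (hF : ∀ (K : AV → Prop), (∀ (G : AV) (m r : ℕ) (D : Cyc G m), Gd r D →
      (∀ s, 0 < D.p s) → K G) → ∀ G, F G → Dc (Cls K) G)
    (A B : AV) (N' : ℕ) (G : Fin N' → AV) (μ ρ : Fin N' → ℕ) (β : ∀ n, Fin (ρ n + 1) → ℕ)
    (σ : ∀ n, Fin (ρ n + 1) → ℂ) (hA : IsCM A)
    (hG : ∀ n, F (G n) ∨ NwN (G n) (μ n) (ρ n) (β n) (σ n))
    (hC : ∀ n n', NwN (G n) (μ n) (ρ n) (β n) (σ n) →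
      NwN (G n') (μ n') (ρ n') (β n') (σ n') →
      Isg (G n) (G n') ∨ (HypW (μ n) (ρ n) (β n) → HypW (μ n') (ρ n') (β n') → ρ n = ρ n' →
        IndS (G := G n) (G' := G n') (m := μ n) (m' := μ n') (σ n) (β n) (σ n') (β n')))
    (hB : IsProdE B A G) : Con B := by
  refine con_ofN Ms (K := Kn N' G μ ρ β σ) (fam_kn hC)
    (SES.tDcB SES.tDcA _ A B N' G ((SES.tDcA _).1 A hA) (fun n => ?_) hB)
  rcases hG n with h | h
  · refine hF _ (fun G m r D h1 h2 => ⟨m, r, D, _, gdN_of_gd Ms.n10 h1, fun _ => h1,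
      Or.inl ⟨?_, h2⟩⟩) _ h
    obtain ⟨s, hs⟩ := h1.p2
    have h3 := h2 (-s)
    have h4 := sum_p (D := D) h1.gf.hm h1.gf.dim s
    omega
  · obtain ⟨a1, a2, a3, -⟩ := SES.tDcA (Cls (Kn N' G μ ρ β σ))
    rcases h.2 with h1 | h1 | ⟨hW, m₀, D₀, Γ, h1, h2, h3⟩
    · exact a1 _ h1
    · exact dc_small _ (fun G h => Or.inl (Or.inr h)) (fun G h => Or.inr h) h1.le
    · exact a2 _ (Or.inl (Or.inl ⟨m₀, ρ n, D₀, Γ, h1, h2, Or.inr ⟨n, rfl, h, rfl, hW, h3⟩⟩))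

/-! ## The final theorem -/

/-- **THE FINAL THEOREM**, assembly. -/
theorem finN_of (Ms : ModsN) (Mv : SEV.ModsV) (Mo : SEO.ModsO) (hJ : S_Jng) : FinN := by
  obtain ⟨M', hM', hJ⟩ := hJ MMk (mmk_meagre SEU.tMxm)
  refine ⟨M', hM', ?_⟩
  intro p s hs A B T N' G hA hG hB q N J j m Z E ψ hFc hE hψ d c hc hS
  obtain ⟨hinj, hMM, hOne, hI⟩ := hJ p s hs
  -- the data
  have key : ∀ n, ∃ (μ ρ : ℕ) (β : Fin (ρ + 1) → ℕ) (σ : Fin (ρ + 1) → ℂ),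
      ((FacV MMk (G n) ∨ ∀ P : AV → Prop, (∀ G, IsRM G → P G) → Dc P (G n)) ∧ μ = 0) ∨
        (NwN (G n) μ ρ β σ ∧ ∃ i k, Okk i k ∧ σ = pt s i k) := by
    intro n
    rcases hG n with h1 | ⟨m, r, b, i, k, hk, D, h1 | ⟨rfl, h2, h3, h4⟩⟩
    · refine ⟨0, 0, fun _ => 0, fun _ => 0, Or.inl ⟨Or.inl ?_, rfl⟩⟩
      rcases h1 with h1 | h1 | h1 | h1
      · exact Or.inr (Or.inl h1)
      · exact Or.inr (Or.inr (Or.inl h1))
      · exact Or.inr (Or.inr (Or.inr (Or.inl h1)))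
      · exact Or.inr (Or.inr (Or.inr (Or.inr (Or.inr h1))))
    · have hs' := hMM m r b i k hk
      by_cases hr2 : r = 2
      · subst hr2
        rcases SEO.sg_two h1 rfl with h3 | h3
        · exact ⟨m, 2, b, pt s i k, Or.inr ⟨nwN_two Ms.n10 D h1
            (fun hW D' hD' => hOne m b i k hk hW h1 _ D D' hD') h3, i, k, hk, rfl⟩⟩
        · exact ⟨0, 0, fun _ => 0, fun _ => 0,
            Or.inl ⟨Or.inr fun P hP => SEO.dc_new Mo hP D h1 rfl h3, rfl⟩⟩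
      · exact ⟨m, r, b, pt s i k, Or.inr ⟨nwN_of_nwD Ms.n10 (nwD_nw (M := MMk)
          (fun m r b s hs => Or.inl hs) ⟨D, h1, Or.inl ⟨hr2, hs'⟩⟩), i, k, hk, rfl⟩⟩
    · obtain rfl : b = fun _ => 1 := funext h2
      have hs' := hMM 2 r (fun _ => 1) i k hk
      refine ⟨0, 0, fun _ => 0, fun _ => 0, Or.inl ⟨Or.inl ?_, rfl⟩⟩
      refine Or.inr (Or.inr (Or.inr (Or.inr (Or.inl
        ⟨r, pt s i k, D, h4, h3, ?_, hs'⟩))))
      rcases k with _ | k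
      · exact hinj.comp hk.1
      · intro x y hxy
        have h5 : s (i x) - s k = s (i y) - s k := inv_injective hxy
        exact hk.1 (hinj (by linear_combination h5))
  choose μ ρ β σ key using key
  refine con_mainN Ms
    (F := fun G => FacV MMk G ∨ ∀ P : AV → Prop, (∀ G, IsRM G → P G) → Dc P G)
    (fun K' hK' G hG => ?_) A B N' G μ ρ β σ hA (fun n => ?_)
    (fun n n' h1 h2 => ?_) hB T q N J j m Z E ψ hFc hE hψ d c hc hS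
  · rcases hG with hG | hG
    · exact facV_dc Mv K' hK' G hG
    · exact hG _ fun G h => Or.inl (Or.inr h)
  · rcases key n with ⟨h1, -⟩ | ⟨h1, -⟩
    · exact Or.inl h1
    · exact Or.inr h1
  · have e0 : μ n ≠ 0 := by
      have := h1.1.1
      omega
    have e0' : μ n' ≠ 0 := by
      have := h2.1.1
      omega
    obtain ⟨-, i, k, e2, e3⟩ := (key n).resolve_left fun h => e0 h.2
    obtain ⟨-, i', k', f2, f3⟩ := (key n').resolve_left fun h => e0' h.2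
    by_cases hisg : Isg (G n) (G n')
    · exact Or.inl hisg
    right
    intro w1 w2 hr
    have c1 := h1.1
    have c2 := h2.1
    rw [e3] at c1 ⊢
    rw [f3] at c2 ⊢
    intro N N₁ D D' hD hD' hg hg'
    exact (hI _ _ _ _ _ _ i k i' k' e2 f2 hg.hr hg'.hr w1 w2 c1 c2 _ _ N N₁
      D D' hD hD').resolve_left hisg

end SEN
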