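import Pool.Agent.Lib.SE.N.Spec
import Pool.Agent.Lib.SE.R.SuR
import Pool.Agent.Lib.SE.R.JB
import Pool.Agent.Lib.SE.R.ReR

/-!
# PROJECT SE-N: module n13, the Lie algebra with real multiplication
-/

set_option autoImplicit false

open Module

noncomputable section

namespace SEN

open HC HC.E HC.SE SEB SEQ SER SES SEG SE

namespace n13_aux

section One

variable {T : AV} {m : ℕ} {D : Cyc T m} (Γ : Sd D)

theorem c_zero : (0 : Module.End ℝ T.V) ∈ Γ.C := by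
  intro g _ v
  rw [LinearMap.zero_apply, LinearMap.zero_apply, map_zero]

theorem c_add {P Q : Module.End ℝ T.V} (hP : P ∈ Γ.C) (hQ : Q ∈ Γ.C) : P + Q ∈ Γ.C := by
  intro g hg v
  rw [LinearMap.add_apply, LinearMap.add_apply, hP g hg, hQ g hg, map_add]

theorem c_smul {P : Module.End ℝ T.V} (c : ℝ) (hP : P ∈ Γ.C) : c • P ∈ Γ.C := by
  intro g hg v
  rw [LinearMap.smul_apply, LinearMap.smul_apply, hP g hg, ← Complex.coe_smul,
    ← Complex.coe_smul, map_smul]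

theorem c_comm {P Q : Module.End ℝ T.V} (hP : P ∈ Γ.C) (hQ : Q ∈ Γ.C) :
    P * Q - Q * P ∈ Γ.C := by
  intro g hg v
  rw [LinearMap.sub_apply, LinearMap.sub_apply, Module.End.mul_apply, Module.End.mul_apply,
    Module.End.mul_apply, Module.End.mul_apply, hQ g hg, hP g hg, hP g hg, hQ g hg, map_sub]

theorem c_pre {X : Module.End ℝ T.V} (hX : X ∈ Γ.C) {g : (ZMod m)ˣ} (hg : g ∈ Γ.S)
    (a : Frm T) : pT (Γ.Θ g) (pre X a) = pre X (pT (Γ.Θ g) a) := by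
  apply LinearMap.ext
  intro v
  change a (X (Γ.Θ g v)) = a (Γ.Θ g (X v))
  rw [hX g hg v]

end One

variable {q : ℕ} {T : Fin q → AV} {m : Fin q → ℕ} {D : ∀ i, Cyc (T i) (m i)}

/-- The combinations of commutators commute with the `Θ g`. -/
theorem ct_span (Γ : ∀ i, Sd (D i)) {B : AV} {h : Set (TB T B)} (hC : ∀ X ∈ h, CT Γ X.1)
    {Z : TB T B} (hZ : Z ∈ Submodule.span ℝ (ComR h)) : CT Γ Z.1 := by
  induction hZ using Submodule.span_induction with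
  | mem x hx =>
    obtain ⟨X, hX, Y, hY, rfl⟩ := hx
    intro i
    exact c_comm (Γ i) (hC X hX i) (hC Y hY i)
  | zero => exact fun i => c_zero (Γ i)
  | add x y _ _ hx hy => exact fun i => c_add (Γ i) (hx i) (hy i)
  | smul c x _ hx => exact fun i => c_smul (Γ i) c (hx i)

/-- The combinations of commutators are in `su`. -/
theorem su_span {B : AV} {ι : Type} {G : GC B ι} {h : Set (TB T B)} (hh : HLieR D G h)
    {Z : TB T B} (hZ : Z ∈ Submodule.span ℝ (ComR h)) : ∀ i, IsSU (D i) (Z.1 i) := by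
  induction hZ using Submodule.span_induction with
  | mem x hx =>
    obtain ⟨X, hX, Y, hY, rfl⟩ := hx
    intro i
    exact JB_aux.su_comm (D i) (hh.u X hX i) (hh.u Y hY i)
  | zero => exact fun i => JB_aux.su_zero (D i)
  | add x y _ _ hx hy => exact fun i => JB_aux.su_add (D i) (hx i) (hy i)
  | smul c x _ hx => exact fun i => JB_aux.su_smul (D i) c (hx i)

/-- `(X, 0)` for `X` in `su` commuting with the `Θ g`. -/
theorem su_zero (h4 : S_n4) (h5 : S_n5) (h6 : S_n6) (Γ : ∀ i, Sd (D i)) (hm : ∀ i, 3 ≤ m i)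
    {B : AV} (hH : H0N Γ B) {ι : Type} {G : GC B ι} {h : Set (TB T B)} (hh : HLieR D G h)
    (hC : ∀ X ∈ h, CT Γ X.1) (X : Tup T) (hX : ∀ i, IsSU (D i) (X i)) (hXC : CT Γ X) :
    ((X, 0) : TB T B) ∈ Submodule.span ℝ (ComR h) := by
  obtain ⟨F, hFA, hFF⟩ := (h5 q T m D Γ).1
  have hBs : S_Bas := tBas tPj
  choose A hA1 hA2 using fun x : Ch m =>
    tTr tPj hBs (T x.1) (m x.1) (D x.1) (hm x.1) (X x.1) (hX x.1) x.2
  obtain ⟨C, hCg, hC2, hCF⟩ := hH ι G h hh hC F hFA A hA1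
  let F' : Set (Ch m) := {y | ∃ x ∈ F, ∃ g ∈ (Γ x.1).S, y = ⟨x.1, g * x.2⟩}
  refine tReR q T m D hm B (ComR h) X ?_ (fun i => (hX i).1) F' ?_ C hCg hC2 ?_
  · rintro Y ⟨Y₁, h₁, Y₂, h₂, rfl⟩ i
    exact SuR_aux.com_u (D i) (hh.u _ h₁ i) (hh.u _ h₂ i)
  · intro x
    obtain ⟨g, hg, hx⟩ := hFF x
    rcases hx with hx | hx
    · left
      refine ⟨_, hx, g⁻¹, (Γ x.1).S.inv_mem hg, ?_⟩
      refine Sigma.ext rfl (heq_of_eq ?_)
      change x.2 = g⁻¹ * (g * x.2)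
      rw [inv_mul_cancel_left]
    · right
      refine ⟨_, hx, g⁻¹, (Γ x.1).S.inv_mem hg, ?_⟩
      refine Sigma.ext rfl (heq_of_eq ?_)
      change -x.2 = g⁻¹ * -(g * x.2)
      rw [mul_neg, inv_mul_cancel_left]
  · rintro y ⟨x, hx, g, hg, rfl⟩ b hb
    obtain ⟨a, ha, rfl⟩ := (h4 (T x.1) (m x.1) (D x.1) (Γ x.1) (hm x.1) g hg x.2).2.1 b hb
    have e1 : C.1 x.1 a = pre (X x.1) a := (hCF x hx ⟨a, ha⟩).trans (hA2 x ⟨a, ha⟩).symm
    change C.1 x.1 (pT ((Γ x.1).Θ g) a) = pre (X x.1) (pT ((Γ x.1).Θ g) a)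
    rw [h6.2.2.1 q T m D Γ B h hC C hCg x.1 g hg a, e1, c_pre (Γ x.1) (hXC x.1) hg a]

end n13_aux

open n13_aux in
theorem tn13 : S_n2 → S_n4 → S_n5 → S_n6 → S_n12 → S_n13 := by
  intro hn2 h4 h5 h6 h12 q T m D Γ hm hT hp B hB ι G h₀ hh₀
  have hh := hn2.2.2.1 q T m D Γ B ι G h₀ hh₀
  set h : Set (TB T B) := {X | X ∈ h₀ ∧ CT Γ X.1} with hdef
  have hC : ∀ X ∈ h, CT Γ X.1 := fun X hX => hX.2
  have hmono : ComR h ⊆ ComR h₀ := by
    rintro _ ⟨X, hX, Y, hY, rfl⟩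
    exact ⟨X, hX.1, Y, hY.1, rfl⟩
  have hsu := su_zero h4 h5 h6 Γ hm (h12 q T m D Γ hm hT hp B) hh hC
  -- the second components
  have k1 : ∀ X ∈ Prod.snd '' h, RatEnd B X := by
    rintro _ ⟨X, hX, rfl⟩
    exact (hh.rat X hX).2
  have k2 : ∀ X ∈ Prod.snd '' h, ∀ Y ∈ Prod.snd '' h, X * Y - Y * X ∈ Prod.snd '' h := by
    rintro _ ⟨X, hX, rfl⟩ _ ⟨Y, hY, rfl⟩
    exact ⟨X * Y - Y * X, hh.br X hX Y hY, rfl⟩
  let sn : TB T B →ₗ[ℝ] Module.End ℝ B.V := LinearMap.snd ℝ _ _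
  have k3 : mulI B ∈ Submodule.span ℝ (Prod.snd '' h) := by
    have e : (Prod.snd '' h : Set (Module.End ℝ B.V)) = sn '' h := rfl
    rw [e, Submodule.span_image]
    exact ⟨_, hh.J, rfl⟩
  have k4 := hB _ k1 k2 k3
  have k5 : Submodule.span ℝ {Z | ∃ X ∈ Prod.snd '' h, ∃ Y ∈ Prod.snd '' h, Z = X * Y - Y * X} ≤
      Submodule.map sn (Submodule.span ℝ (ComR h)) := by
    rw [← Submodule.span_image]
    apply Submodule.span_mono
    rintro _ ⟨_, ⟨X, hX, rfl⟩, _, ⟨Y, hY, rfl⟩, rfl⟩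
    exact ⟨X * Y - Y * X, ⟨X, hX, Y, hY, rfl⟩, rfl⟩
  obtain ⟨W, hW, hWe⟩ := k5 k4
  have k7 := hsu W.1 (su_span hh hW) (ct_span Γ hC hW)
  have k8 : ((0, mulI B) : TB T B) = W - (W.1, 0) := by
    apply Prod.ext
    · change 0 = W.1 - W.1
      rw [sub_self]
    · change mulI B = W.2 - 0
      rw [sub_zero]
      exact hWe.symm
  rw [k8]
  exact Submodule.span_mono hmono (sub_mem hW k7)

end SEN
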