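import Pool.Agent.Lib.SE.N.Spec
import Pool.Agent.Lib.SE.Big.Bas
import Pool.Agent.Lib.SE.Big.Pj
import Pool.Agent.Lib.SE.Big.Tr
import Pool.Agent.Lib.SE.Big.Real
import Pool.Agent.Lib.SE.Big.Perf
import Pool.Agent.Lib.SE.Big.Rib
import Pool.Agent.Lib.SE.Big.ToBig
import Pool.Agent.Lib.SE.Big.At0
import Pool.Agent.Lib.SE.Q.RSH
import Pool.Agent.Lib.SE.G.Homg
import Pool.Agent.Lib.SE.G.Lrg

/-!
# PROJECT SE-N, module n27: `su` is spanned by the commutators of `u` (helper59)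

For a real endomorphism `Y` which commutes with `Z` let `Y†` be the adjoint for `ψ`: `Y - Y†` is in `u`. An
operator `A` on `Ws D s` (`0` on the other eigenspaces) is `∑ c_k pre (Y_k)`, and `∑ c_k pre (Y_k†)` is `0` on
`Ws D t`, `t ≠ -s`. So the complex span of `pre '' u` contains all families of operators on a half system.
-/

set_option autoImplicit false

open Module

noncomputable section

namespace SEN

open HC HC.E HC.SE SEB SEQ SER SES SEG SE

/-- **n27**: `su` IS SPANNED BY THE COMMUTATORS OF `u`. -/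
def S_n27 : Prop :=
  ∀ (T : AV) (m : ℕ) (D : Cyc T m), 3 ≤ m → ∀ X, IsSU D X → X ∈ CL D

namespace n27_aux

open SEB.Real_aux SEB.Rib_aux

variable {T : AV} {m : ℕ} (D : Cyc T m)

/-- The adjoint. -/
theorem exists_adj (Y : Module.End ℝ T.V) :
    ∃ Y' : Module.End ℝ T.V, ∀ u v, D.ψ (Y' u) v = D.ψ u (Y v) := by
  have h1 : Function.Injective (D.ψ : T.V →ₗ[ℝ] T.V →ₗ[ℝ] ℝ) := fun u u' h =>
    nd2 D u u' fun v => LinearMap.congr_fun h v
  have h2 : Function.Surjective (D.ψ : T.V →ₗ[ℝ] T.V →ₗ[ℝ] ℝ) := by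
    refine (LinearMap.injective_iff_surjective_of_finrank_eq_finrank ?_).1 h1
    exact (Subspace.dual_finrank_eq (K := ℝ) (V := T.V)).symm
  let e : T.V ≃ₗ[ℝ] (T.V →ₗ[ℝ] ℝ) := LinearEquiv.ofBijective D.ψ ⟨h1, h2⟩
  have he : ∀ u, e u = D.ψ u := fun _ => rfl
  refine ⟨e.symm.toLinearMap ∘ₗ ((Y.dualMap : (T.V →ₗ[ℝ] ℝ) →ₗ[ℝ] (T.V →ₗ[ℝ] ℝ)) ∘ₗ
    e.toLinearMap), fun u v => ?_⟩
  have h3 : D.ψ (e.symm (Y.dualMap (e u))) = Y.dualMap (e u) := by
    rw [← he, LinearEquiv.apply_symm_apply]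
  change D.ψ (e.symm (Y.dualMap (e u))) v = _
  rw [h3, he]
  rfl

theorem adj_isU {Y Y' : Module.End ℝ T.V} (hY : ∀ v, Y (D.Z v) = D.Z (Y v))
    (h : ∀ u v, D.ψ (Y' u) v = D.ψ u (Y v)) : IsU D (Y - Y') := by
  have hZ : ∀ u, Y' (D.Z u) = D.Z (Y' u) := by
    intro u
    refine nd2 D _ _ fun v => ?_
    obtain ⟨v, rfl⟩ := Zsurj D v
    rw [h, D.inv, h, hY, D.inv]
  refine ⟨fun v => ?_, fun u v => ?_⟩
  · rw [LinearMap.sub_apply, LinearMap.sub_apply, hY, hZ, map_sub]
  · have e1 : D.ψ u (Y' v) = D.ψ (Y u) v := by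
      rw [D.alt u (Y' v), h, D.alt v (Y u), neg_neg]
    rw [LinearMap.sub_apply, LinearMap.sub_apply, map_sub, LinearMap.sub_apply, map_sub, h, e1]
    ring

/-- The pairing of `Ws D s` and `Ws D t`. -/
theorem pair0 (hm : 3 ≤ m) {s t : (ZMod m)ˣ} (hts : t ≠ -s) {a b : Frm T} (ha : a ∈ Ws D t)
    (hb : b ∈ Ws D s) {u1 u2 : T.V}
    (hu : ∀ v, a v = (D.ψ u1 v : ℂ) + Complex.I * (D.ψ u2 v : ℂ)) :
    b u1 + Complex.I * b u2 = 0 := by
  have hI := Complex.I_mul_I
  set x : ℝ := (zet m t).re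
  set y : ℝ := (zet m t).im
  have hz : zet m t = (x : ℂ) + (y : ℂ) * Complex.I := (Complex.re_add_im _).symm
  have h1 : ∀ v, D.ψ u1 (D.Z v) = D.ψ (x • u1 - y • u2) v ∧
      D.ψ u2 (D.Z v) = D.ψ (y • u1 + x • u2) v := by
    intro v
    have h2 := ha v
    rw [hu, hu, hz] at h2
    have h3 := congrArg Complex.re h2
    have h4 := congrArg Complex.im h2
    simp at h3 h4
    rw [map_sub, LinearMap.sub_apply, map_add, LinearMap.add_apply, map_smul, map_smul,
      map_smul, map_smul, LinearMap.smul_apply, LinearMap.smul_apply, LinearMap.smul_apply,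
      LinearMap.smul_apply, smul_eq_mul, smul_eq_mul, smul_eq_mul, smul_eq_mul]
    constructor <;> linarith
  have hw : ∀ w u, (∀ v, D.ψ u (D.Z v) = D.ψ w v) → u = D.Z w := by
    intro w u hwu
    refine nd2 D _ _ fun v => ?_
    obtain ⟨v, rfl⟩ := Zsurj D v
    rw [hwu, D.inv]
  have h2 := hw _ _ fun v => (h1 v).1
  have h3 := hw _ _ fun v => (h1 v).2
  have h4 : b u1 = zet m s * (x * b u1 - y * b u2) := by
    conv_lhs => rw [h2]
    rw [hb, map_sub, map_smul, map_smul, Complex.real_smul, Complex.real_smul]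
  have h5 : b u2 = zet m s * (y * b u1 + x * b u2) := by
    conv_lhs => rw [h3]
    rw [hb, map_add, map_smul, map_smul, Complex.real_smul, Complex.real_smul]
  have h6 : (1 - zet m t * zet m s) * (b u1 + Complex.I * b u2) = 0 := by
    rw [hz]
    linear_combination h4 + Complex.I * h5 - ((zet m s) * y * b u2) * hI
  have h7 := zet_ne hm (-s) t hts
  rw [neg_neg] at h7
  exact (mul_eq_zero.1 h6).resolve_left (sub_ne_zero.2 h7.symm)

/-- An operator on one eigenspace is induced by the complex span of `u`. -/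
theorem one (hm : 3 ≤ m) (s : (ZMod m)ˣ) (A : Module.End ℂ (Ws D s)) :
    ∃ C ∈ Submodule.span ℂ (pre '' {Y | IsU D Y}), (∀ a : Ws D s, C (a : Frm T) = (A a : Frm T)) ∧
      ∀ t, t ≠ s → t ≠ -s → ∀ a ∈ Ws D t, C a = 0 := by
  classical
  obtain ⟨-, j1, j2, j3⟩ := tPj T m D hm
  let pW : Frm T →ₗ[ℂ] Ws D s := (pj D s).codRestrict (Ws D s) fun a => j1 s a
  let A₀ : Frm T →ₗ[ℂ] Frm T := (Ws D s).subtype ∘ₗ A ∘ₗ pW
  have hA₀ : ∀ a, A₀ a ∈ Ws D s := fun a => (A (pW a)).2
  have hcom : A₀ ∘ₗ pre D.ZR = pre D.ZR ∘ₗ A₀ := by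
    refine LinearMap.ext fun a => ?_
    have h1 : pW (pre D.ZR a) = zet m s • pW a := by
      apply Subtype.ext
      change pj D s (pre D.ZR a) = zet m s • pj D s a
      rw [SEG.Homg_aux.pj_comm D D.ZR (fun v => rfl)]
      refine LinearMap.ext fun v => ?_
      exact j1 s a v
    change ((A (pW (pre D.ZR a)) : Ws D s) : Frm T) = pre D.ZR ((A (pW a) : Ws D s) : Frm T)
    rw [h1, map_smul]
    refine LinearMap.ext fun v => ?_
    exact ((A (pW a)).2 v).symm
  have hZr : RatEnd T D.ZR := fun v hv => ⟨1, one_ne_zero, by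
    rw [one_smul]
    exact D.lat v hv⟩
  obtain ⟨n, c, Y, hAY, -, hYc⟩ := tRSH T T A₀
  have hYZ : ∀ k v, Y k (D.Z v) = D.Z (Y k v) := fun k v =>
    (LinearMap.congr_fun (hYc D.ZR D.ZR hZr hZr hcom k) v).symm
  choose Y' hY' using fun k => exists_adj D (Y k)
  have hval : ∀ a v, A₀ a v = ∑ k, c k * a (Y k v) := by
    intro a v
    rw [hAY, LinearMap.sum_apply, LinearMap.sum_apply]
    rfl
  -- the adjoint part
  have hadj : ∀ t, t ≠ -s → ∀ a ∈ Ws D t, ∀ v, ∑ k, c k * a (Y' k v) = 0 := by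
    intro t hts a ha v
    obtain ⟨u1, u2, hu⟩ := repC D a
    let β : Frm T := Complex.ofRealCLM.toLinearMap ∘ₗ D.ψ v
    have h1 := pair0 D hm hts ha (hA₀ β) hu
    rw [hval, hval] at h1
    have h2 : ∀ k, a (Y' k v) = -(β (Y k u1) + Complex.I * β (Y k u2)) := by
      intro k
      have e1 : D.ψ u1 (Y' k v) = -D.ψ v (Y k u1) := by
        rw [D.alt, hY']
      have e2 : D.ψ u2 (Y' k v) = -D.ψ v (Y k u2) := by
        rw [D.alt, hY']
      rw [hu, e1, e2]
      change _ = -((D.ψ v (Y k u1) : ℂ) + Complex.I * (D.ψ v (Y k u2) : ℂ))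
      push_cast
      ring
    have h3 : ∑ k, c k * a (Y' k v) =
        -(∑ k, c k * β (Y k u1) + Complex.I * ∑ k, c k * β (Y k u2)) := by
      rw [Finset.mul_sum, ← Finset.sum_add_distrib, ← Finset.sum_neg_distrib]
      refine Finset.sum_congr rfl fun k _ => ?_
      rw [h2 k]
      ring
    rw [h3, h1, neg_zero]
  refine ⟨∑ k, c k • pre (Y k - Y' k), Submodule.sum_mem _ fun k _ => Submodule.smul_mem _ _
    (Submodule.subset_span ⟨_, adj_isU D (hYZ k) (hY' k), rfl⟩), ?_, ?_⟩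
  · intro a
    have hC : ∀ v, (∑ k, c k • pre (Y k - Y' k)) (a : Frm T) v =
        A₀ (a : Frm T) v - ∑ k, c k * (a : Frm T) (Y' k v) := by
      intro v
      rw [hval, ← Finset.sum_sub_distrib, LinearMap.sum_apply, LinearMap.sum_apply]
      refine Finset.sum_congr rfl fun k _ => ?_
      change c k * (a : Frm T) (Y k v - Y' k v) = _
      rw [map_sub, mul_sub]
    refine LinearMap.ext fun v => ?_
    rw [hC, hadj s (fun h => SEG.Lrg_aux.ne_neg hm s h.symm) _ a.2, sub_zero]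
    have h1 : pW (a : Frm T) = a := Subtype.ext (j2 s a a.2)
    change ((A (pW (a : Frm T)) : Ws D s) : Frm T) v = _
    rw [h1]
  · intro t hts hts' a ha
    refine LinearMap.ext fun v => ?_
    have hC : (∑ k, c k • pre (Y k - Y' k)) a v = A₀ a v - ∑ k, c k * a (Y' k v) := by
      rw [hval, ← Finset.sum_sub_distrib, LinearMap.sum_apply, LinearMap.sum_apply]
      refine Finset.sum_congr rfl fun k _ => ?_
      change c k * a (Y k v - Y' k v) = _
      rw [map_sub, mul_sub]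
    rw [hC, hadj t hts' a ha, sub_zero]
    have h1 : pW a = 0 := Subtype.ext (j3 t s hts a ha)
    change ((A (pW a) : Ws D s) : Frm T) v = _
    rw [h1, map_zero]
    rfl

/-- Commutators of elements of `u`. -/
def Y₀ : Set (Module.End ℝ T.V) :=
  {X | ∃ P ∈ Lef T D.Z D.ψ, ∃ Q ∈ Lef T D.Z D.ψ, X = P * Q - Q * P}

/-- Commutators of elements of the complex span of `u`. -/
theorem comm_mem {C C' : Module.End ℂ (Frm T)} (hC : C ∈ Submodule.span ℂ (pre '' {Y | IsU D Y}))
    (hC' : C' ∈ Submodule.span ℂ (pre '' {Y | IsU D Y})) :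
    C * C' - C' * C ∈ Submodule.span ℂ (pre '' Y₀ D) := by
  induction hC using Submodule.span_induction with
  | mem A hA =>
    obtain ⟨Y, hY, rfl⟩ := hA
    induction hC' using Submodule.span_induction with
    | mem B hB =>
      obtain ⟨Y', hY', rfl⟩ := hB
      have h1 : pre Y * pre Y' - pre Y' * pre Y = pre (Y' * Y - Y * Y') := by
        rw [pre_sub, pre_mul, pre_mul]
      rw [h1]
      exact Submodule.subset_span ⟨_, ⟨Y', hY', Y, hY, rfl⟩, rfl⟩
    | zero =>
      rw [mul_zero, zero_mul, sub_zero]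
      exact Submodule.zero_mem _
    | add B B' _ _ hB hB' =>
      have h1 : pre Y * (B + B') - (B + B') * pre Y =
          (pre Y * B - B * pre Y) + (pre Y * B' - B' * pre Y) := by
        rw [mul_add, add_mul]
        abel
      rw [h1]
      exact Submodule.add_mem _ hB hB'
    | smul c B _ hB =>
      have h1 : pre Y * (c • B) - (c • B) * pre Y = c • (pre Y * B - B * pre Y) := by
        rw [mul_smul_comm, smul_mul_assoc, smul_sub]
      rw [h1]
      exact Submodule.smul_mem _ _ hB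
  | zero =>
    rw [mul_zero, zero_mul, sub_zero]
    exact Submodule.zero_mem _
  | add A A' _ _ hA hA' =>
    have h1 : (A + A') * C' - C' * (A + A') = (A * C' - C' * A) + (A' * C' - C' * A') := by
      rw [mul_add, add_mul]
      abel
    rw [h1]
    exact Submodule.add_mem _ hA hA'
  | smul c A _ hA =>
    have h1 : (c • A) * C' - C' * (c • A) = c • (A * C' - C' * A) := by
      rw [mul_smul_comm, smul_mul_assoc, smul_sub]
    rw [h1]
    exact Submodule.smul_mem _ _ hA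

/-- A traceless operator on one eigenspace is induced by commutators. -/
theorem two (hm : 3 ≤ m) (s : (ZMod m)ˣ) (A : Module.End ℂ (Ws D s))
    (hA : LinearMap.trace ℂ (Ws D s) A = 0) :
    ∃ C ∈ Submodule.span ℂ (pre '' Y₀ D), (∀ a : Ws D s, C (a : Frm T) = (A a : Frm T)) ∧
      ∀ t, t ≠ s → t ≠ -s → ∀ a ∈ Ws D t, C a = 0 := by
  have := SEB.At0_aux.fin_frm T
  have h1 := tPerf (Ws D s) A hA
  clear hA
  induction h1 using Submodule.span_induction with
  | mem X hX =>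
    obtain ⟨A₁, A₂, -, -, rfl⟩ := hX
    obtain ⟨C₁, h1, h2, h3⟩ := one D hm s A₁
    obtain ⟨C₂, k1, k2, k3⟩ := one D hm s A₂
    refine ⟨C₁ * C₂ - C₂ * C₁, comm_mem D h1 k1, fun a => ?_, fun t ht ht' a ha => ?_⟩
    · rw [LinearMap.sub_apply, Module.End.mul_apply, Module.End.mul_apply, k2, h2, h2, k2]
      rfl
    · rw [LinearMap.sub_apply, Module.End.mul_apply, Module.End.mul_apply, k3 t ht ht' a ha,
        h3 t ht ht' a ha, map_zero, map_zero, sub_zero]
  | zero => exact ⟨0, Submodule.zero_mem _, fun _ => rfl, fun _ _ _ _ _ => rfl⟩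
  | add X Y _ _ hX hY =>
    obtain ⟨C, hC, p1, p2⟩ := hX
    obtain ⟨C', hC', q1, q2⟩ := hY
    refine ⟨C + C', Submodule.add_mem _ hC hC', fun x => ?_, fun t ht ht' a ha => ?_⟩
    · rw [LinearMap.add_apply, p1, q1]
      rfl
    · rw [LinearMap.add_apply, p2 t ht ht' a ha, q2 t ht ht' a ha, add_zero]
  | smul c X _ hX =>
    obtain ⟨C, hC, p1, p2⟩ := hX
    refine ⟨c • C, Submodule.smul_mem _ c hC, fun x => ?_, fun t ht ht' a ha => ?_⟩
    · rw [LinearMap.smul_apply, p1]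
      rfl
    · rw [LinearMap.smul_apply, p2 t ht ht' a ha, smul_zero]

end n27_aux

open n27_aux in
theorem tn27 : S_n27 := by
  classical
  intro T m D hm X hX
  have : NeZero m := ⟨by omega⟩
  -- a half system
  let F : Finset (ZMod m)ˣ :=
    Finset.univ.filter fun s : (ZMod m)ˣ => (s : ZMod m).val < ((-s : (ZMod m)ˣ) : ZMod m).val
  have hF1 : ∀ s ∈ F, -s ∉ F := by
    intro s hs hs'
    rw [Finset.mem_filter] at hs hs'
    have h1 := hs'.2
    rw [neg_neg] at h1
    have h2 := hs.2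
    omega
  have hF2 : ∀ s, s ∈ F ∨ -s ∈ F := by
    intro s
    by_contra hno
    rw [not_or, Finset.mem_filter, Finset.mem_filter, neg_neg] at hno
    have h1 : ¬ (s : ZMod m).val < ((-s : (ZMod m)ˣ) : ZMod m).val := fun h =>
      hno.1 ⟨Finset.mem_univ _, h⟩
    have h2 : ¬ ((-s : (ZMod m)ˣ) : ZMod m).val < (s : ZMod m).val := fun h =>
      hno.2 ⟨Finset.mem_univ _, h⟩
    have h3 : ((-s : (ZMod m)ˣ) : ZMod m).val = (s : ZMod m).val := by omega
    exact SEG.Lrg_aux.ne_neg hm s (Units.ext (ZMod.val_injective m h3))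
  choose A' hA' hXA using fun s => tTr tPj (tBas tPj) T m D hm X hX s
  choose C hC hC1 hC2 using fun s => two D hm s (A' s) (hA' s)
  refine tReal (tBas tPj) T m D hm (Y₀ D) X ?_ hX.1 (F : Set (ZMod m)ˣ)
    (fun s => by rw [Finset.mem_coe, Finset.mem_coe]; exact hF2 s) (∑ s ∈ F, C s)
    (Submodule.sum_mem _ fun s _ => hC s) ?_
  · rintro _ ⟨P, hP, Q, hQ, rfl⟩
    exact (SEB.ToBig_aux.isSU_comm D hP hQ).1
  · intro s hs a ha
    rw [Finset.mem_coe] at hs
    rw [LinearMap.sum_apply, Finset.sum_eq_single s]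
    · have h1 := hC1 s ⟨a, ha⟩
      rw [← hXA s ⟨a, ha⟩] at h1
      exact h1
    · intro t ht hts
      refine hC2 t s (Ne.symm hts) ?_ a ha
      rintro rfl
      exact hF1 t ht hs
    · intro h
      exact absurd hs h

end SEN
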